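import Pool.Agent.SymZF.Val
import Pool.Agent.MP_b1d3ea_lc.Transfer

/-!
# Tools for formulas: Boolean values of the connectives, renaming, extensionality
-/

set_option autoImplicit false

namespace Pool.Agent.SymZF

open Pool.Agent.BVM Pool.Agent.StarHur

variable {𝔹 : Type} [CompleteBooleanAlgebra 𝔹] {H : Type 1} (B : BStr 𝔹 H)

open Transfer in
theorem gval_not {n : ℕ} (φ : Fml n) (v : Fin n → H) : gval B (fnot φ) v = (gval B φ v)ᶜ := by
  unfold fnot
  simp only [gval]
  rw [himp_bot]

open Transfer in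
theorem gval_and {n : ℕ} (φ ψ : Fml n) (v : Fin n → H) :
    gval B (fand φ ψ) v = gval B φ v ⊓ gval B ψ v := by
  unfold fand
  rw [gval_not]
  simp only [gval]
  rw [gval_not, himp_eq, compl_sup, compl_compl, compl_compl, inf_comm]

open Transfer in
theorem gval_or {n : ℕ} (φ ψ : Fml n) (v : Fin n → H) :
    gval B (fOr φ ψ) v = gval B φ v ⊔ gval B ψ v := by
  unfold fOr
  simp only [gval]
  rw [gval_not, himp_eq, compl_compl, sup_comm]

open Transfer in
theorem gval_iff {n : ℕ} (φ ψ : Fml n) (v : Fin n → H) :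
    gval B (fiff φ ψ) v = biff (gval B φ v) (gval B ψ v) := by
  unfold fiff biff
  rw [gval_and]
  simp only [gval]

open Transfer in
theorem gval_ex {n : ℕ} (φ : Fml (n + 1)) (v : Fin n → H) :
    gval B (fex φ) v = ⨆ x : H, gval B φ (Fin.cons x v : Fin (n + 1) → H) := by
  unfold fex
  rw [gval_not]
  simp only [gval]
  simp only [gval_not]
  rw [compl_iInf]
  simp only [compl_compl]

/-- renaming of the free variables -/
def ren : {n : ℕ} → Fml n → {m : ℕ} → (Fin n → Fin m) → Fml m
  | _, .bot, _, _ => .bot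
  | _, .mem i j, _, f => .mem (f i) (f j)
  | _, .eq i j, _, f => .eq (f i) (f j)
  | _, .imp φ ψ, _, f => .imp (ren φ f) (ren ψ f)
  | _, .all φ, _, f => .all (ren φ (Fin.cases 0 fun i => (f i).succ))

private lemma cons_cases {M : Type*} {n m : ℕ} (f : Fin n → Fin m) (v : Fin m → M) (x : M) :
    (fun i : Fin (n + 1) => (Fin.cons x v : Fin (m + 1) → M)
      ((Fin.cases 0 (fun i => (f i).succ) i : Fin (m + 1)))) =
      (Fin.cons x (fun i => v (f i)) : Fin (n + 1) → M) := by
  funext i
  refine Fin.cases ?_ (fun k => ?_) i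
  · rfl
  · rfl

theorem sat_ren {M : Type*} (E : M → M → Prop) {n m : ℕ} (φ : Fml n) (f : Fin n → Fin m)
    (v : Fin m → M) : Sat E (ren φ f) v ↔ Sat E φ (fun i => v (f i)) := by
  induction φ generalizing m with
  | bot => exact Iff.rfl
  | mem i j => exact Iff.rfl
  | eq i j => exact Iff.rfl
  | imp φ ψ h1 h2 =>
    simp only [ren, Sat]
    rw [h1, h2]
  | all φ h =>
    simp only [ren, Sat]
    refine forall_congr' fun x => ?_
    rw [h, cons_cases]

theorem gval_ren {n m : ℕ} (φ : Fml n) (f : Fin n → Fin m) (v : Fin m → H) :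
    gval B (ren φ f) v = gval B φ (fun i => v (f i)) := by
  induction φ generalizing m with
  | bot => rfl
  | mem i j => rfl
  | eq i j => rfl
  | imp φ ψ h1 h2 =>
    simp only [ren, gval]
    rw [h1, h2]
  | all φ h =>
    simp only [ren, gval]
    refine iInf_congr fun x => ?_
    rw [h, cons_cases]

theorem gval_ext {n : ℕ} (φ : Fml n) (v w : Fin n → H) :
    (⨅ i, B.eq (v i) (w i)) ⊓ gval B φ v ≤ gval B φ w := by
  induction φ with
  | bot => exact inf_le_right
  | mem i j =>
    simp only [gval]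
    have h1 : (⨅ i, B.eq (v i) (w i)) ⊓ B.mem (v i) (v j) ≤
        B.eq (v j) (w j) ⊓ B.mem (w i) (v j) := by
      refine le_inf (inf_le_left.trans (iInf_le _ j)) ?_
      refine le_trans ?_ (B.congr_left (v i) (w i) (v j))
      exact inf_le_inf_right _ (iInf_le _ i)
    exact h1.trans (B.congr_right _ _ _)
  | eq i j =>
    simp only [gval]
    have h1 : (⨅ i, B.eq (v i) (w i)) ⊓ B.eq (v i) (v j) ≤
        B.eq (w i) (v j) ⊓ B.eq (v j) (w j) := by
      refine le_inf ?_ (inf_le_left.trans (iInf_le _ j))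
      refine le_trans ?_ (B.trans (w i) (v i) (v j))
      rw [B.symm (w i) (v i)]
      exact inf_le_inf_right _ (iInf_le _ i)
    exact h1.trans (B.trans _ _ _)
  | imp φ ψ ih1 ih2 =>
    simp only [gval]
    rw [le_himp_iff]
    have hs : (⨅ i, B.eq (w i) (v i)) = ⨅ i, B.eq (v i) (w i) :=
      iInf_congr fun i => B.symm _ _
    have h1 : (⨅ i, B.eq (v i) (w i)) ⊓ (gval B φ v ⇨ gval B ψ v) ⊓ gval B φ w ≤
        (⨅ i, B.eq (v i) (w i)) ⊓ gval B ψ v := by
      refine le_inf (inf_le_left.trans inf_le_left) ?_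
      have h2 : (⨅ i, B.eq (v i) (w i)) ⊓ gval B φ w ≤ gval B φ v := by
        rw [← hs]
        exact ih1 w v
      calc (⨅ i, B.eq (v i) (w i)) ⊓ (gval B φ v ⇨ gval B ψ v) ⊓ gval B φ w
          ≤ (gval B φ v ⇨ gval B ψ v) ⊓ gval B φ v := by
            refine le_inf (inf_le_left.trans inf_le_right) ?_
            exact le_trans (inf_le_inf_right _ inf_le_left) h2
        _ ≤ gval B ψ v := himp_inf_le
    exact h1.trans (ih2 v w)
  | all φ ih =>
    simp only [gval]
    refine le_iInf fun x => ?_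
    refine le_trans ?_ (ih (Fin.cons x v) (Fin.cons x w))
    refine le_inf ?_ (inf_le_right.trans (iInf_le _ x))
    refine le_iInf fun i => ?_
    refine Fin.cases ?_ (fun k => ?_) i
    · simp only [Fin.cons_zero, B.refl]
      exact le_top
    · simp only [Fin.cons_succ]
      exact inf_le_left.trans (iInf_le _ k)

end Pool.Agent.SymZF
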