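import Pool.Agent.MP_b1d3ea_lc.RO

/-! # Module II5: the regular open algebra of a preorder, with automorphisms -/

set_option autoImplicit false

namespace Pool.Agent.SymZF

namespace RO2

open Pool.Agent.StarHur

variable {P : Type} [Preorder P]

theorem reg_map (m : LowerSet P ≃o LowerSet P) (a : LowerSet P) (h : aᶜᶜ = a) : (m a)ᶜᶜ = m a := by
  rw [← map_compl, ← map_compl, h]

/-- the automorphism of the regular open algebra induced by an automorphism of the preorder -/
noncomputable def aut (σ : P ≃o P) : RO.Alg P ≃o RO.Alg P where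
  toFun a := ⟨LowerSet.map σ a.1, reg_map _ _ a.2⟩
  invFun a := ⟨(LowerSet.map σ).symm a.1, reg_map _ _ a.2⟩
  left_inv a := by
    apply Heyting.Regular.coe_injective
    exact (LowerSet.map σ).symm_apply_apply a.1
  right_inv a := by
    apply Heyting.Regular.coe_injective
    exact (LowerSet.map σ).apply_symm_apply a.1
  map_rel_iff' := by
    intro a b
    exact (LowerSet.map σ).le_iff_le

theorem aut_val (σ : P ≃o P) (a : RO.Alg P) : (aut σ a).1 = LowerSet.map σ a.1 := rfl

theorem aut_e (σ : P ≃o P) (p : P) :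
    aut σ (Heyting.Regular.toRegular (LowerSet.Iic p)) =
      Heyting.Regular.toRegular (LowerSet.Iic (σ p)) := by
  apply Heyting.Regular.coe_injective
  show LowerSet.map σ (LowerSet.Iic p)ᶜᶜ = (LowerSet.Iic (σ p))ᶜᶜ
  rw [map_compl, map_compl, LowerSet.map_Iic]

end RO2

theorem exists_RO_aut (P : Type) [Preorder P] : ∃ (𝔹 : Type) (_ : CompleteBooleanAlgebra 𝔹) (e : P → 𝔹)
    (r : (P ≃o P) → (𝔹 ≃o 𝔹)),
    (∀ p, e p ≠ ⊥) ∧ (∀ p q, p ≤ q → e p ≤ e q) ∧ (∀ b : 𝔹, b ≠ ⊥ → ∃ p, e p ≤ b) ∧
    (∀ p q, e p ⊓ e q ≠ ⊥ → ∃ r, r ≤ p ∧ r ≤ q) ∧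
    (∀ σ p, r σ (e p) = e (σ p)) ∧ (∀ b, r (OrderIso.refl P) b = b) ∧
    (∀ σ τ b, r (τ.trans σ) b = r σ (r τ b)) := by
  open Pool.Agent.StarHur RO2 in
  refine ⟨RO.Alg P, RO.completeBooleanAlgebra P,
    fun p => Heyting.Regular.toRegular (LowerSet.Iic p), aut, ?_, ?_, ?_, ?_, aut_e, ?_, ?_⟩
  · intro p h
    have h1 : (Heyting.Regular.toRegular (LowerSet.Iic p) : Heyting.Regular (LowerSet P)).val =
        (⊥ : LowerSet P) := congrArg Heyting.Regular.val h
    have h2 : LowerSet.Iic p ≤ (⊥ : LowerSet P) := by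
      rw [← h1]
      exact le_compl_compl
    have h3 : p ∈ (⊥ : LowerSet P) := h2 (le_refl p)
    exact h3
  · intro p q hpq
    exact Heyting.Regular.toRegular.monotone (LowerSet.Iic_le.mpr hpq)
  · intro b hb
    have hne : ∃ p, p ∈ b.val := by
      by_contra hcon
      push Not at hcon
      apply hb
      apply Heyting.Regular.coe_injective
      change b.val = (⊥ : LowerSet P)
      ext p
      constructor
      · intro hp; exact absurd hp (hcon p)
      · intro hp; exact absurd hp (by simp)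
    obtain ⟨p, hp⟩ := hne
    refine ⟨p, (Heyting.Regular.gi.gc _ _).mpr ?_⟩
    exact LowerSet.Iic_le.mpr hp
  · intro p q hpq
    by_contra hcon
    push Not at hcon
    apply hpq
    apply Heyting.Regular.coe_injective
    change (LowerSet.Iic p)ᶜᶜ ⊓ (LowerSet.Iic q)ᶜᶜ = (⊥ : LowerSet P)
    rw [← compl_compl_inf_distrib]
    have h1 : LowerSet.Iic p ⊓ LowerSet.Iic q = (⊥ : LowerSet P) := by
      ext r
      constructor
      · rintro ⟨h2, h3⟩
        exact absurd h3 (hcon r h2)
      · intro hp; exact absurd hp (by simp)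
    rw [h1, compl_bot, compl_top]
  · intro b
    apply Heyting.Regular.coe_injective
    show LowerSet.map (OrderIso.refl P) b.1 = b.1
    rw [LowerSet.map_refl]
    rfl
  · intro σ τ b
    apply Heyting.Regular.coe_injective
    show LowerSet.map (τ.trans σ) b.1 = LowerSet.map σ (LowerSet.map τ b.1)
    rw [LowerSet.map_map]

end Pool.Agent.SymZF
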