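import Pool.Agent.SymZF.DecideAll
import Pool.Agent.SymZF.RO2

/-!
# The core from the forcing
-/

set_option autoImplicit false

namespace Pool.Agent.SymZF

/-- Translations as automorphisms of the forcing. -/
def shiftIso (Z : Gp) : Cond ≃o Cond where
  toFun p := p.shift Z
  invFun p := p.shift (-Z)
  left_inv p := by
    cases p
    simp [Cond.shift]
  right_inv p := by
    cases p
    simp [Cond.shift]
  map_rel_iff' := by
    intro p q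
    show (p.shift Z) ≤ (q.shift Z) ↔ p ≤ q
    rw [Cond.le_def, Cond.le_def]
    simp [Cond.shift]

theorem shiftIso_apply (Z : Gp) (p : Cond) : shiftIso Z p = p.shift Z := rfl

theorem shiftIso_zero : shiftIso 0 = OrderIso.refl Cond := by
  ext p
  cases p
  simp [shiftIso_apply, Cond.shift]

theorem shiftIso_add (g h : Gp) : shiftIso (g + h) = (shiftIso h).trans (shiftIso g) := by
  ext p
  show p.shift (g + h) = (p.shift h).shift g
  cases p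
  simp only [Cond.shift]
  rw [add_comm g h, add_assoc]

/-- order isomorphisms preserve complements -/
theorem map_cpl {𝔹 : Type} [CompleteBooleanAlgebra 𝔹] (r : 𝔹 ≃o 𝔹) (b : 𝔹) : r bᶜ = (r b)ᶜ := by
  rw [eq_compl_iff_isCompl]
  exact IsCompl.map r (isCompl_compl.symm)

/-- The data of the regular open algebra. -/
structure ROA (𝔹 : Type) [CompleteBooleanAlgebra 𝔹] where
  e : Cond → 𝔹
  r : (Cond ≃o Cond) → (𝔹 ≃o 𝔹)
  ne : ∀ p, e p ≠ ⊥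
  mono : ∀ p q, p ≤ q → e p ≤ e q
  dense : ∀ b, b ≠ ⊥ → ∃ p, e p ≤ b
  compat : ∀ p q, e p ⊓ e q ≠ ⊥ → ∃ r, r ≤ p ∧ r ≤ q
  r_e : ∀ σ p, r σ (e p) = e (σ p)
  r_id : ∀ b, r (OrderIso.refl Cond) b = b
  r_comp : ∀ σ τ b, r (τ.trans σ) b = r σ (r τ b)

namespace ROA

variable {𝔹 : Type} [CompleteBooleanAlgebra 𝔹] (R : ROA 𝔹)

/-- The symmetric system. -/
def sys : Sys Gp 𝔹 where
  ρ Z := R.r (shiftIso Z)
  map_zero b := by rw [shiftIso_zero, R.r_id]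
  map_add g h b := by rw [shiftIso_add, R.r_comp]
  F := Set.range fixS
  nonempty := ⟨fixS ∅, ∅, rfl⟩
  dir := by
    rintro _ ⟨E, rfl⟩ _ ⟨E', rfl⟩
    exact ⟨fixS (E ∪ E'), ⟨_, rfl⟩, fun Z hZ e he => hZ e (Finset.mem_union_left _ he),
      fun Z hZ e he => hZ e (Finset.mem_union_right _ he)⟩

theorem ρ_e (Z : Gp) (p : Cond) : R.sys.ρ Z (R.e p) = R.e (p.shift Z) := R.r_e _ _

theorem le_of (b c : 𝔹) (h : ∀ q, R.e q ≤ b → ∃ q', q' ≤ q ∧ R.e q' ≤ c) : b ≤ c := by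
  by_contra hbc
  have h1 : b ⊓ cᶜ ≠ ⊥ := fun h' => hbc (by rwa [← sdiff_eq, sdiff_eq_bot_iff] at h')
  obtain ⟨q, hq⟩ := R.dense _ h1
  obtain ⟨q', hq', h2⟩ := h q (hq.trans inf_le_left)
  have h3 : R.e q' ≤ cᶜ := (R.mono _ _ hq').trans (hq.trans inf_le_right)
  exact R.ne q' (le_bot_iff.1 ((le_inf h2 h3).trans (by rw [inf_compl_eq_bot])))

/-- a condition which is not below `b` has an extension below the complement -/
theorem ext_compl {q : Cond} {b : 𝔹} (h : ¬ R.e q ≤ b) : ∃ q', q' ≤ q ∧ R.e q' ≤ bᶜ := by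
  have h1 : R.e q ⊓ bᶜ ≠ ⊥ := fun h' => h (by rwa [← sdiff_eq, sdiff_eq_bot_iff] at h')
  obtain ⟨q0, hq0⟩ := R.dense _ h1
  have h2 : R.e q0 ⊓ R.e q ≠ ⊥ := by
    rw [inf_eq_left.2 (hq0.trans inf_le_left)]
    exact R.ne _
  obtain ⟨q', h3, h4⟩ := R.compat _ _ h2
  exact ⟨q', h4, (R.mono _ _ h3).trans (hq0.trans inf_le_right)⟩

theorem le_of' (p : Cond) (c : 𝔹) (h : ∀ q, q ≤ p → ∃ q', q' ≤ q ∧ R.e q' ≤ c) : R.e p ≤ c := by
  by_contra hc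
  obtain ⟨q, h1, h2⟩ := R.ext_compl hc
  obtain ⟨q', h3, h4⟩ := h q h1
  exact R.ne q' (le_bot_iff.1 ((le_inf h4 ((R.mono _ _ h3).trans h2)).trans (by rw [inf_compl_eq_bot])))

/-- joins of conditions with a property -/
def sup (Q : Cond → Prop) : 𝔹 := ⨆ p, ⨆ _ : Q p, R.e p

theorem le_sup {Q : Cond → Prop} {p : Cond} (h : Q p) : R.e p ≤ R.sup Q :=
  le_iSup₂ (f := fun p (_ : Q p) => R.e p) p h

theorem of_le_sup {Q : Cond → Prop} (hQ : ∀ p q, q ≤ p → Q p → Q q) {q : Cond} (h : R.e q ≤ R.sup Q) :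
    ∃ q', q' ≤ q ∧ Q q' := by
  by_contra hn
  have h1 : R.e q ⊓ R.sup Q = ⊥ := by
    rw [sup, inf_iSup_eq, iSup_eq_bot]
    intro p
    rw [inf_iSup_eq, iSup_eq_bot]
    intro hp
    by_contra hne
    obtain ⟨r, h1, h2⟩ := R.compat _ _ hne
    exact hn ⟨r, h1, hQ _ _ h2 hp⟩
  rw [inf_eq_left.2 h] at h1
  exact R.ne _ h1

/-- invariance of joins -/
theorem ρ_sup (Z : Gp) (Q Q' : Cond → Prop) (h : ∀ p, Q p ↔ Q' (p.shift Z)) :
    R.sys.ρ Z (R.sup Q) = R.sup Q' := by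
  apply le_antisymm
  · rw [sup, OrderIso.map_iSup]
    refine iSup_le fun p => ?_
    rw [OrderIso.map_iSup]
    refine iSup_le fun hp => ?_
    rw [ρ_e]
    exact R.le_sup ((h p).1 hp)
  · rw [sup]
    refine iSup₂_le fun p hp => ?_
    have h1 : (p.shift (-Z)).shift Z = p := (shiftIso Z).right_inv p
    have h2 : Q (p.shift (-Z)) := (h _).2 (by rwa [h1])
    have h3 := (R.sys.ρ Z).monotone (R.le_sup h2)
    rwa [ρ_e, h1] at h3

/-- the restriction of a condition to finitely many coordinates -/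
def _root_.Pool.Agent.SymZF.Cond.res (q : Cond) (E : Finset ℕ) : Cond := ⟨q.A, q.N, E, q.π⟩

/-- homogeneity -/
theorem homog (E : Finset ℕ) (b : 𝔹) (hb : ∀ Z ∈ fixS E, R.sys.ρ Z b = b) (q : Cond)
    (h : R.e q ≤ b) : R.e (q.res E) ≤ b := by
  refine R.le_of' _ _ fun s hs => ?_
  obtain ⟨h1, h2, h3, h4⟩ := hs
  classical
  set Z : Gp := fun e => if e ∈ E then 0 else s.π e - q.π e with hZ
  refine ⟨⟨s.A, s.N, s.E ∪ q.E, s.π⟩, ⟨le_refl s.A, le_refl s.N, Finset.subset_union_left, fun e _ => ?_⟩, ?_⟩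
  · show s.π e - s.π e ∈ _
    rw [sub_self]; exact s.N.span.zero_mem
  · have h5 : (⟨s.A, s.N, s.E ∪ q.E, s.π⟩ : Cond) ≤ q.shift Z := by
      refine ⟨h1, h2, Finset.subset_union_right, fun e he => ?_⟩
      show s.π e - (q.π e + Z e) ∈ q.N.span
      by_cases heE : e ∈ E
      · rw [hZ]
        simp only [heE, if_true, add_zero]
        exact h4 e heE
      · rw [hZ]
        simp only [heE, if_false]
        rw [add_sub_cancel, sub_self]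
        exact q.N.span.zero_mem
    refine (R.mono _ _ h5).trans ?_
    rw [← ρ_e]
    have h6 := (R.sys.ρ Z).monotone h
    rwa [hb Z (fun e he => by rw [hZ]; simp [he])] at h6

theorem res_le {q p : Cond} (h : q ≤ p) : q.res p.E ≤ p := by
  obtain ⟨h1, h2, h3, h4⟩ := h
  exact ⟨h1, h2, Finset.Subset.refl _, h4⟩

/-- common extensions of restrictions -/
theorem exists_common {q q' : Cond} {E : Finset ℕ} (hE : E ⊆ q.E) (h : q' ≤ q.res E) (hq' : q'.E = E) :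
    ∃ r : Cond, r ≤ q ∧ r ≤ q' := by
  classical
  obtain ⟨h1, h2, h3, h4⟩ := h
  refine ⟨⟨q'.A, q'.N, q.E, fun e => if e ∈ E then q'.π e else q.π e⟩,
    ⟨h1, h2, Finset.Subset.refl _, fun e he => ?_⟩,
    ⟨le_refl q'.A, le_refl q'.N, by rw [hq']; exact hE, fun e he => ?_⟩⟩
  · show (if e ∈ E then q'.π e else q.π e) - q.π e ∈ _
    split_ifs with h5
    · exact h4 e h5
    · rw [sub_self]; exact q.N.span.zero_mem
  · show (if e ∈ E then q'.π e else q.π e) - q'.π e ∈ _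
    rw [hq'] at he
    rw [if_pos he, sub_self]
    exact q'.N.span.zero_mem

theorem compl_inv {E : Finset ℕ} {b : 𝔹} (hb : ∀ Z ∈ fixS E, R.sys.ρ Z b = b) :
    ∀ Z ∈ fixS E, R.sys.ρ Z bᶜ = bᶜ := fun Z hZ => by rw [map_cpl, hb Z hZ]

/-- the sum of `2 ^ i` -/
def _root_.Pool.Agent.SymZF.sig (t : Finset ℕ) : ℕ := ∑ i ∈ t, 2 ^ i

theorem sig_pos {t : Finset ℕ} (ht : t.Nonempty) : 0 < sig t :=
  Finset.sum_pos (fun _ _ => by positivity) ht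

/-- `q` forces all `s (sig t)`, `t ∈ FU A` -/
def Wit (s : ℕ → 𝔹) (q : Cond) : Prop := ∀ t ∈ q.A.FU, R.e q ≤ s (sig t)

theorem wit_mono {s : ℕ → 𝔹} (p q : Cond) (h : q ≤ p) (hp : R.Wit s p) : R.Wit s q := fun t ht =>
  (R.mono _ _ h).trans (hp t (BlockSeq.FU_mono h.1 ht))

/-- the ultrafilter -/
def u (s : ℕ → 𝔹) : 𝔹 := R.sup (R.Wit s)

/-- `q` forces that `s` contains the middle parts of the dyadic intervals -/
def Mid (s : ℕ → 𝔹) (q : Cond) : Prop :=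
  ∃ n, ∀ i j, i ∈ q.N.b j → ∀ m, 2 ^ i + n ≤ m → m + n < 2 ^ (i + 1) → R.e q ≤ s m

theorem mem_of_le {A B : BlockSeq} (h : B ≤ A) {j i : ℕ} (hi : i ∈ B.b j) : ∃ k, i ∈ A.b k := by
  obtain ⟨J, -, hJ⟩ := h j
  rw [hJ, Finset.mem_biUnion] at hi
  obtain ⟨k, _, hk⟩ := hi
  exact ⟨k, hk⟩

theorem mid_mono {s : ℕ → 𝔹} (p q : Cond) (h : q ≤ p) (hp : R.Mid s p) : R.Mid s q := by
  obtain ⟨n, hn⟩ := hp
  refine ⟨n, fun i j hi m h1 h2 => ?_⟩
  obtain ⟨k, hk⟩ := mem_of_le h.2.1 hi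
  exact (R.mono _ _ h).trans (hn i k hk m h1 h2)

/-- the filter -/
def f (s : ℕ → 𝔹) : 𝔹 := R.sup (R.Mid s)

theorem u_inv (g : Gp) (s : ℕ → 𝔹) : R.sys.ρ g (R.u s) = R.u (fun n => R.sys.ρ g (s n)) := by
  refine R.ρ_sup g _ _ fun p => ?_
  show (∀ t ∈ p.A.FU, R.e p ≤ s (sig t)) ↔ ∀ t ∈ p.A.FU, R.e (p.shift g) ≤ R.sys.ρ g (s (sig t))
  simp only [← ρ_e, (R.sys.ρ g).le_iff_le]

theorem f_inv (g : Gp) (s : ℕ → 𝔹) : R.sys.ρ g (R.f s) = R.f (fun n => R.sys.ρ g (s n)) := by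
  refine R.ρ_sup g _ _ fun p => ?_
  show (∃ n, ∀ i j, i ∈ p.N.b j → ∀ m, 2 ^ i + n ≤ m → m + n < 2 ^ (i + 1) → R.e p ≤ s m) ↔
    ∃ n, ∀ i j, i ∈ p.N.b j → ∀ m, 2 ^ i + n ≤ m → m + n < 2 ^ (i + 1) →
      R.e (p.shift g) ≤ R.sys.ρ g (s m)
  simp only [← ρ_e, (R.sys.ρ g).le_iff_le]

theorem imp_le {q : Cond} {s t : ℕ → 𝔹} (h : R.e q ≤ ⨅ n, ⨅ _ : 0 < n, s n ⇨ t n) {n : ℕ} (hn : 0 < n)
    (hs : R.e q ≤ s n) : R.e q ≤ t n := by
  have h1 : R.e q ≤ s n ⇨ t n := h.trans (iInf₂_le n hn)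
  exact (le_inf h1 hs).trans himp_inf_le

theorem u_mono (s t : ℕ → 𝔹) : (⨅ n, ⨅ _ : 0 < n, s n ⇨ t n) ⊓ R.u s ≤ R.u t := by
  refine R.le_of _ _ fun q hq => ?_
  obtain ⟨q', h1, h2⟩ := R.of_le_sup R.wit_mono (hq.trans inf_le_right)
  refine ⟨q', h1, R.le_sup fun x hx => ?_⟩
  exact R.imp_le ((R.mono _ _ h1).trans (hq.trans inf_le_left)) (sig_pos (q'.A.FU_nonempty hx)) (h2 x hx)

theorem f_mono (s t : ℕ → 𝔹) : (⨅ n, ⨅ _ : 0 < n, s n ⇨ t n) ⊓ R.f s ≤ R.f t := by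
  refine R.le_of _ _ fun q hq => ?_
  obtain ⟨q', h1, n, h2⟩ := R.of_le_sup R.mid_mono (hq.trans inf_le_right)
  refine ⟨q', h1, R.le_sup ⟨n, fun i j hi m h3 h4 => ?_⟩⟩
  exact R.imp_le ((R.mono _ _ h1).trans (hq.trans inf_le_left))
    (lt_of_lt_of_le (by positivity) h3) (h2 i j hi m h3 h4)

theorem u_inf (s t : ℕ → 𝔹) : R.u s ⊓ R.u t ≤ R.u (fun n => s n ⊓ t n) := by
  refine R.le_of _ _ fun q hq => ?_
  obtain ⟨q', h1, h2⟩ := R.of_le_sup R.wit_mono (hq.trans inf_le_left)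
  obtain ⟨q'', h3, h4⟩ := R.of_le_sup R.wit_mono ((R.mono _ _ h1).trans (hq.trans inf_le_right))
  exact ⟨q'', h3.trans h1, R.le_sup fun x hx => le_inf (R.wit_mono _ _ h3 h2 x hx) (h4 x hx)⟩

theorem f_inf (s t : ℕ → 𝔹) : R.f s ⊓ R.f t ≤ R.f (fun n => s n ⊓ t n) := by
  refine R.le_of _ _ fun q hq => ?_
  obtain ⟨q', h1, h2⟩ := R.of_le_sup R.mid_mono (hq.trans inf_le_left)
  obtain ⟨q'', h3, n, h4⟩ := R.of_le_sup R.mid_mono ((R.mono _ _ h1).trans (hq.trans inf_le_right))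
  obtain ⟨n', h5⟩ := R.mid_mono _ _ h3 h2
  refine ⟨q'', h3.trans h1, R.le_sup ⟨n + n', fun i j hi m h6 h7 => le_inf ?_ ?_⟩⟩
  · exact h5 i j hi m (by omega) (by omega)
  · exact h4 i j hi m (by omega) (by omega)

theorem u_proper (s : ℕ → 𝔹) : R.u s ≤ ⨆ n, ⨆ _ : 0 < n, s n := by
  refine R.le_of _ _ fun q hq => ?_
  obtain ⟨q', h1, h2⟩ := R.of_le_sup R.wit_mono hq
  refine ⟨q', h1, (h2 _ (q'.A.mem_FU_self 0)).trans ?_⟩
  exact le_iSup₂ (f := fun n (_ : 0 < n) => s n) _ (sig_pos (q'.A.ne 0))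

theorem le_mem (A : BlockSeq) (j : ℕ) : ∀ x ∈ A.b j, j ≤ x := by
  induction j with
  | zero => intro x _; exact Nat.zero_le _
  | succ j ih =>
    intro x hx
    obtain ⟨y, hy⟩ := A.ne j
    have h1 := ih y hy
    have h2 := A.lt j (j + 1) (Nat.lt_succ_self j) y hy x hx
    omega

theorem f_proper (s : ℕ → 𝔹) : R.f s ≤ ⨆ n, ⨆ _ : 0 < n, s n := by
  refine R.le_of _ _ fun q hq => ?_
  obtain ⟨q', h1, n, h2⟩ := R.of_le_sup R.mid_mono hq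
  obtain ⟨i, hi⟩ := q'.N.ne (2 * n)
  have h3 : 2 * n ≤ i := le_mem _ _ i hi
  have h4 : i < 2 ^ i := Nat.lt_two_pow_self
  have h5 : 2 ^ (i + 1) = 2 * 2 ^ i := by ring
  refine ⟨q', h1, (h2 i (2 * n) hi (2 ^ i + n) le_rfl (by omega)).trans ?_⟩
  exact le_iSup₂ (f := fun n (_ : 0 < n) => s n) (2 ^ i + n) (by omega)

theorem u_top : R.u (fun _ => ⊤) = ⊤ := by
  rw [eq_top_iff]
  exact R.le_of _ _ fun q _ => ⟨q, le_refl q, R.le_sup fun _ _ => le_top⟩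

theorem f_top : R.f (fun _ => ⊤) = ⊤ := by
  rw [eq_top_iff]
  exact R.le_of _ _ fun q _ => ⟨q, le_refl q, R.le_sup ⟨0, fun _ _ _ _ _ _ => le_top⟩⟩

theorem f_shift (s : ℕ → 𝔹) (k : ℕ) : R.f (fun m => s (m + k)) = R.f s := by
  apply le_antisymm
  · refine R.le_of _ _ fun q hq => ?_
    obtain ⟨q', h1, n, h2⟩ := R.of_le_sup R.mid_mono hq
    refine ⟨q', h1, R.le_sup ⟨n + k, fun i j hi m h3 h4 => ?_⟩⟩
    have h5 := h2 i j hi (m - k) (by omega) (by omega)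
    have h6 : m - k + k = m := by omega
    simpa only [h6] using h5
  · refine R.le_of _ _ fun q hq => ?_
    obtain ⟨q', h1, n, h2⟩ := R.of_le_sup R.mid_mono hq
    exact ⟨q', h1, R.le_sup ⟨n + k, fun i j hi m h3 h4 => h2 i j hi (m + k) (by omega) (by omega)⟩⟩

theorem sig_union {t t' : Finset ℕ} (h : ∀ x ∈ t, ∀ y ∈ t', x < y) : sig (t ∪ t') = sig t' + sig t := by
  rw [sig, sig, sig, Finset.sum_union, add_comm]
  rw [Finset.disjoint_left]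
  intro x hx hx'
  exact lt_irrefl _ (h x hx x hx')

theorem u_idem (s : ℕ → 𝔹) : R.u s ≤ R.u (fun n => R.u (fun m => s (m + n))) := by
  refine R.le_of _ _ fun q hq => ?_
  obtain ⟨q', h1, h2⟩ := R.of_le_sup R.wit_mono hq
  refine ⟨q', h1, R.le_sup fun t ht => R.le_of' _ _ fun r hr => ?_⟩
  -- beyond the maximum of `t`
  set k := t.sup id + 1 with hk
  refine ⟨⟨r.A.tail k, r.N, r.E, r.π⟩, ⟨r.A.tail_le k, le_refl r.N, Finset.Subset.refl _, fun e _ => ?_⟩,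
    R.le_sup fun t' ht' => ?_⟩
  · show r.π e - r.π e ∈ _
    rw [sub_self]; exact r.N.span.zero_mem
  · have h3 : ∀ x ∈ t, ∀ y ∈ t', x < y := by
      intro x hx y hy
      obtain ⟨J, -, rfl⟩ := ht'
      rw [Finset.mem_biUnion] at hy
      obtain ⟨j, _, hj⟩ := hy
      have h4 : j + k ≤ y := le_mem r.A (j + k) y hj
      have h5 : x ≤ t.sup id := Finset.le_sup (f := id) hx
      omega
    have h6 : t' ∈ q'.A.FU := BlockSeq.FU_mono (le_trans (α := BlockSeq) (r.A.tail_le k) hr.1) ht'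
    have h7 := h2 _ (q'.A.FU_union ht h6)
    rw [sig_union h3] at h7
    refine (R.mono _ _ ?_).trans h7
    refine ⟨le_trans (α := BlockSeq) (r.A.tail_le k) hr.1, hr.2.1, hr.2.2.1, hr.2.2.2⟩

/-- adding coordinates -/
theorem add_le (p : Cond) (E : Finset ℕ) : (⟨p.A, p.N, p.E ∪ E, p.π⟩ : Cond) ≤ p := by
  refine ⟨le_refl p.A, le_refl p.N, Finset.subset_union_left, fun e _ => ?_⟩
  show p.π e - p.π e ∈ _
  rw [sub_self]; exact p.N.span.zero_mem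

theorem u_ultra (s : ℕ → 𝔹) (hs : SymR R.sys s) : R.u s ⊔ R.u (fun n => (s n)ᶜ) = ⊤ := by
  obtain ⟨_, ⟨E, rfl⟩, hE⟩ := hs
  rw [eq_top_iff]
  refine R.le_of _ _ fun p0 _ => ?_
  set p : Cond := ⟨p0.A, p0.N, p0.E ∪ E, p0.π⟩ with hp
  have hpp : p ≤ p0 := add_le p0 E
  have hinv : ∀ n, ∀ Z ∈ fixS p.E, R.sys.ρ Z (s n) = s n := fun n Z hZ =>
    hE Z (fun e he => hZ e (Finset.mem_union_right _ he)) n
  let D : Cond → Finset ℕ → Bool → Prop := fun r t c => R.e r ≤ (if c then s (sig t) else (s (sig t))ᶜ)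
  have hinv' : ∀ t c, ∀ Z ∈ fixS p.E, R.sys.ρ Z (if c = true then s (sig t) else (s (sig t))ᶜ) =
      (if c = true then s (sig t) else (s (sig t))ᶜ) := by
    intro t c
    cases c
    · exact R.compl_inv (hinv _)
    · exact hinv _
  obtain ⟨q, hq, hqE, c, hc⟩ := decide_all p.E D
    (fun r q t c h1 h2 => (R.mono _ _ h1).trans h2)
    (fun q hq t => by
      by_cases h : R.e q ≤ s (sig t)
      · exact ⟨q, le_refl q, hq, true, h⟩
      · obtain ⟨q', h1, h2⟩ := R.ext_compl h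
        refine ⟨q'.res p.E, ?_, rfl, false, ?_⟩
        · rw [← hq]; exact res_le h1
        · exact R.homog p.E _ (R.compl_inv (hinv _)) q' h2)
    (fun r hr t c h => by
      refine R.le_of' _ _ fun q hq => ?_
      have h1 : q.res p.E ≤ r := by rw [← hr]; exact res_le hq
      obtain ⟨q', h2, h3, h4⟩ := h _ h1 rfl
      obtain ⟨r', h5, h6⟩ := exists_common (by rw [← hr]; exact hq.2.2.1) h2 h3
      exact ⟨r', h5, (R.mono _ _ h6).trans h4⟩) p rfl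
  refine ⟨q, hq.trans hpp, ?_⟩
  cases c
  · exact (R.le_sup (fun t ht => hc t ht)).trans le_sup_right
  · exact (R.le_sup (fun t ht => hc t ht)).trans le_sup_left

/-- `q` decides that the `i`-th bit of the real at the coordinate `ε` is 1 -/
def Bit (ε i : ℕ) (q : Cond) : Prop := ε ∈ q.E ∧ (∀ j, i ∉ q.N.b j) ∧ q.π ε i = 1

theorem bit_mono (ε i : ℕ) (p q : Cond) (h : q ≤ p) (hp : Bit ε i p) : Bit ε i q := by
  obtain ⟨h1, h2, h3⟩ := hp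
  refine ⟨h.2.2.1 h1, fun j hj => ?_, ?_⟩
  · obtain ⟨k, hk⟩ := mem_of_le h.2.1 hj
    exact h2 k hk
  · have h4 := (h.2.2.2 ε h1).1 i h2
    have h5 : q.π ε i - p.π ε i = 0 := h4
    rw [sub_eq_zero] at h5
    rw [h5, h3]

/-- the name of the real -/
def bit (ε i : ℕ) : 𝔹 := R.sup (Bit ε i)

theorem bit_inv (ε i : ℕ) (Z : Gp) (hZ : Z ε = 0) : R.sys.ρ Z (R.bit ε i) = R.bit ε i := by
  refine R.ρ_sup Z _ _ fun p => ?_
  show (ε ∈ p.E ∧ (∀ j, i ∉ p.N.b j) ∧ p.π ε i = 1) ↔ (ε ∈ p.E ∧ (∀ j, i ∉ p.N.b j) ∧ (p.π ε + Z ε) i = 1)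
  rw [hZ, add_zero]

theorem shift_shift (p : Cond) (Z : Gp) : (p.shift Z).shift Z = p := by
  have h : Z + Z = 0 := by
    funext e k
    show Z e k + Z e k = 0
    exact CharTwo.add_self_eq_zero _
  cases p
  simp [Cond.shift, add_assoc, h]

/-- the translation at the coordinate `ε` by the characteristic function of `∪ N` -/
noncomputable def flip (ε : ℕ) (q : Cond) : Gp := by
  classical
  exact fun e k => if e = ε ∧ ∃ j, k ∈ q.N.b j then 1 else 0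

theorem flip_mem (ε : ℕ) (q : Cond) (e : ℕ) : flip ε q e ∈ q.N.span := by
  classical
  refine ⟨fun n hn => ?_, fun j m hm n hn => ?_⟩
  · show (if e = ε ∧ ∃ j, n ∈ q.N.b j then (1 : ZMod 2) else 0) = 0
    rw [if_neg]
    rintro ⟨-, j, hj⟩
    exact hn j hj
  · show (if e = ε ∧ ∃ j, m ∈ q.N.b j then (1 : ZMod 2) else 0) =
      (if e = ε ∧ ∃ j, n ∈ q.N.b j then (1 : ZMod 2) else 0)
    have h1 : ∃ j, m ∈ q.N.b j := ⟨j, hm⟩
    have h2 : ∃ j, n ∈ q.N.b j := ⟨j, hn⟩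
    simp only [h1, h2]

theorem flip_e (ε : ℕ) (q : Cond) : R.sys.ρ (flip ε q) (R.e q) = R.e q := by
  rw [ρ_e]
  apply le_antisymm
  · refine R.mono _ _ ⟨le_refl q.A, le_refl q.N, Finset.Subset.refl _, fun e _ => ?_⟩
    show q.π e + flip ε q e - q.π e ∈ _
    rw [add_sub_cancel_left]
    exact flip_mem ε q e
  · refine R.mono _ _ ⟨le_refl q.A, le_refl q.N, Finset.Subset.refl _, fun e _ => ?_⟩
    show q.π e - (q.π e + flip ε q e) ∈ _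
    rw [sub_add_cancel_left]
    exact q.N.span.neg_mem (flip_mem ε q e)

theorem flip_apply {ε : ℕ} {q : Cond} {i j : ℕ} (h : i ∈ q.N.b j) : flip ε q ε i = 1 := by
  classical
  show (if ε = ε ∧ ∃ j, i ∈ q.N.b j then (1 : ZMod 2) else 0) = 1
  rw [if_pos ⟨rfl, j, h⟩]

theorem bit_flip_inf {ε : ℕ} {q : Cond} {i j : ℕ} (h : i ∈ q.N.b j) :
    R.bit ε i ⊓ R.sys.ρ (flip ε q) (R.bit ε i) = ⊥ := by
  rw [eq_bot_iff]
  refine R.le_of _ _ fun r hr => ?_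
  exfalso
  obtain ⟨r', h1, h2⟩ := R.of_le_sup (bit_mono ε i) (hr.trans inf_le_left)
  have h3 : R.sys.ρ (flip ε q) (R.bit ε i) = R.sup fun p => Bit ε i (p.shift (flip ε q)) :=
    R.ρ_sup _ _ _ fun p => by rw [shift_shift]
  have h4 : R.e r' ≤ R.sup fun p => Bit ε i (p.shift (flip ε q)) := by
    rw [← h3]
    exact (R.mono _ _ h1).trans (hr.trans inf_le_right)
  obtain ⟨r'', h5, h6⟩ := R.of_le_sup (fun p p' hp' hp =>
    bit_mono ε i _ _ ((shiftIso (flip ε q)).monotone hp') hp) h4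
  have h7 := bit_mono ε i _ _ h5 h2
  have h8 := h7.2.2
  have h9 : (r''.π ε i) + flip ε q ε i = 1 := h6.2.2
  rw [flip_apply h, h8] at h9
  revert h9
  decide

theorem bit_flip_sup {ε : ℕ} {q : Cond} {i j : ℕ} (h : i ∈ q.N.b j) (hε : ε ∈ q.E) :
    R.e q ≤ R.bit ε i ⊔ R.sys.ρ (flip ε q) (R.bit ε i) := by
  refine R.le_of' _ _ fun r hr => ?_
  set r' : Cond := ⟨r.A, r.N.tail (i + 1), r.E, r.π⟩ with hr'
  have h1 : r' ≤ r := by
    refine ⟨le_refl r.A, r.N.tail_le _, Finset.Subset.refl _, fun e _ => ?_⟩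
    show r.π e - r.π e ∈ _
    rw [sub_self]; exact r.N.span.zero_mem
  have h2 : ∀ k, i ∉ r'.N.b k := by
    intro k hk
    have h3 : k + (i + 1) ≤ i := le_mem r.N (k + (i + 1)) i hk
    omega
  have h4 : ε ∈ r'.E := hr.2.2.1 hε
  refine ⟨r', h1, ?_⟩
  have h5 : ∀ x : ZMod 2, x = 1 ∨ x + 1 = 1 := by decide
  rcases h5 (r'.π ε i) with h6 | h6
  · exact (R.le_sup (Q := Bit ε i) ⟨h4, h2, h6⟩).trans le_sup_left
  · have h7 : Bit ε i (r'.shift (flip ε q)) := ⟨h4, h2, by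
      show r'.π ε i + flip ε q ε i = 1
      rw [flip_apply h, h6]⟩
    have h8 := (R.sys.ρ (flip ε q)).monotone (R.le_sup h7)
    rw [ρ_e, shift_shift] at h8
    exact h8.trans le_sup_right

theorem kill (A : AddSubgroup Gp) (hA : A ∈ R.sys.F) (W : (ℕ → 𝔹) → 𝔹)
    (hW : ∀ g ∈ A, ∀ s, SymR R.sys s → R.sys.ρ g (W s) = W (fun n => R.sys.ρ g (s n))) (b : 𝔹)
    (hf : ∀ s, SymR R.sys s → b ≤ R.f s ⇨ W s)
    (hinf : ∀ s t, SymR R.sys s → SymR R.sys t → b ≤ W s ⊓ W t ⇨ W (fun n => s n ⊓ t n))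
    (hprop : ∀ s, SymR R.sys s → b ≤ W s ⇨ ⨆ n, ⨆ _ : 0 < n, s n)
    (hult : ∀ s, SymR R.sys s → b ≤ W s ⊔ W (fun n => (s n)ᶜ)) : b = ⊥ := by
  obtain ⟨E, rfl⟩ := hA
  by_contra hb
  obtain ⟨p, hp⟩ := R.dense b hb
  obtain ⟨ε, hε⟩ := Infinite.exists_notMem_finset E
  -- the set given by the real
  set s : ℕ → 𝔹 := fun m => R.bit ε (Nat.log 2 m) with hs
  have hsS : ∀ Z : Gp, Z ε = 0 → ∀ n, R.sys.ρ Z (s n) = s n := fun Z hZ n => R.bit_inv ε _ Z hZ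
  have hmem : ∀ Z ∈ fixS {ε}, Z ε = 0 := fun Z hZ => hZ ε (Finset.mem_singleton_self _)
  have hsym : SymR R.sys s := ⟨fixS {ε}, ⟨_, rfl⟩, fun g hg n => hsS g (hmem g hg) n⟩
  -- `p` decides
  have h1 : ∃ (q : Cond) (t : ℕ → 𝔹), q ≤ p ∧ ε ∈ q.E ∧ R.e q ≤ W t ∧
      (∀ Z : Gp, Z ε = 0 → ∀ n, R.sys.ρ Z (t n) = t n) ∧
      ∀ m, (∃ j, Nat.log 2 m ∈ q.N.b j) → R.e q ≤ (t m ⊓ R.sys.ρ (flip ε q) (t m))ᶜ := by
    by_cases h : R.e p ≤ W (fun n => (s n)ᶜ)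
    · refine ⟨⟨p.A, p.N, p.E ∪ {ε}, p.π⟩, _, add_le p {ε}, by simp, (R.mono _ _ (add_le p {ε})).trans h,
        fun Z hZ n => by rw [map_cpl, hsS Z hZ], ?_⟩
      rintro m ⟨j, hj⟩
      have h2 := R.bit_flip_sup (ε := ε) (q := ⟨p.A, p.N, p.E ∪ {ε}, p.π⟩) hj (by simp)
      rw [map_cpl, ← compl_sup, compl_compl]
      exact h2
    · obtain ⟨q, h2, h3⟩ := R.ext_compl h
      have h4 : R.e q ≤ W s := by
        have h5 : R.e q ≤ W s ⊔ W (fun n => (s n)ᶜ) := (R.mono _ _ h2).trans (hp.trans (hult s hsym))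
        have h6 := le_inf h5 h3
        rw [inf_sup_right, inf_compl_eq_bot, sup_bot_eq] at h6
        exact h6.trans inf_le_left
      refine ⟨⟨q.A, q.N, q.E ∪ {ε}, q.π⟩, s, (add_le q {ε}).trans h2, by simp,
        (R.mono _ _ (add_le q {ε})).trans h4, hsS, ?_⟩
      rintro m ⟨j, hj⟩
      rw [R.bit_flip_inf (ε := ε) (q := ⟨q.A, q.N, q.E ∪ {ε}, q.π⟩) hj, compl_bot]
      exact le_top
  obtain ⟨q, t, hq, hεq, hqt, htS, hqm⟩ := h1
  set Z := flip ε q with hZ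
  have hZE : Z ∈ fixS E := by
    intro e he
    classical
    funext k
    show (if e = ε ∧ ∃ j, k ∈ q.N.b j then (1 : ZMod 2) else 0) = 0
    rw [if_neg]
    rintro ⟨rfl, -⟩
    exact hε he
  have hqb : R.e q ≤ b := (R.mono _ _ hq).trans hp
  have hcomm : ∀ (g h : Gp) (x : 𝔹), R.sys.ρ g (R.sys.ρ h x) = R.sys.ρ h (R.sys.ρ g x) := by
    intro g h x
    rw [← R.sys.map_add, ← R.sys.map_add, add_comm]
  have htsym : SymR R.sys t := ⟨fixS {ε}, ⟨_, rfl⟩, fun g hg n => htS g (hmem g hg) n⟩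
  have htsym' : SymR R.sys (fun n => R.sys.ρ Z (t n)) := ⟨fixS {ε}, ⟨_, rfl⟩, fun g hg n => by
    show R.sys.ρ g (R.sys.ρ Z (t n)) = R.sys.ρ Z (t n)
    rw [hcomm, htS g (hmem g hg) n]⟩
  have hqt' : R.e q ≤ W (fun n => R.sys.ρ Z (t n)) := by
    rw [← hW Z hZE t htsym, ← R.flip_e ε q]
    exact (R.sys.ρ _).monotone hqt
  have hinfS : ∀ x y : ℕ → 𝔹, (∀ g ∈ fixS {ε}, ∀ n, R.sys.ρ g (x n) = x n) →
      (∀ g ∈ fixS {ε}, ∀ n, R.sys.ρ g (y n) = y n) → SymR R.sys (fun n => x n ⊓ y n) := fun x y hx hy =>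
    ⟨fixS {ε}, ⟨_, rfl⟩, fun g hg n => by
      show R.sys.ρ g (x n ⊓ y n) = x n ⊓ y n
      rw [OrderIso.map_inf, hx g hg n, hy g hg n]⟩
  have ht1 : ∀ g ∈ fixS {ε}, ∀ n, R.sys.ρ g (t n) = t n := fun g hg n => htS g (hmem g hg) n
  have ht2 : ∀ g ∈ fixS {ε}, ∀ n, R.sys.ρ g (R.sys.ρ Z (t n)) = R.sys.ρ Z (t n) := fun g hg n => by
    rw [hcomm, htS g (hmem g hg) n]
  have hI := hinfS _ _ ht1 ht2
  have h3 : R.e q ≤ W (fun n => t n ⊓ R.sys.ρ Z (t n)) :=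
    (le_inf (hqb.trans (hinf _ _ htsym htsym')) (le_inf hqt hqt')).trans himp_inf_le
  set x : ℕ → 𝔹 := fun n => (t n ⊓ R.sys.ρ Z (t n))ᶜ with hx
  have hxS : SymR R.sys x := ⟨fixS {ε}, ⟨_, rfl⟩, fun g hg n => by
    show R.sys.ρ g (t n ⊓ R.sys.ρ Z (t n))ᶜ = (t n ⊓ R.sys.ρ Z (t n))ᶜ
    rw [map_cpl, OrderIso.map_inf, ht1 g hg n, ht2 g hg n]⟩
  have h4 : R.e q ≤ R.f x := by
    refine R.le_sup ⟨0, fun i j hi m h5 h6 => hqm m ⟨j, ?_⟩⟩
    have h7 : Nat.log 2 m = i := by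
      rw [Nat.log_eq_iff (Or.inr ⟨by norm_num, by
        have : 0 < 2 ^ i := by positivity
        omega⟩)]
      exact ⟨by simpa using h5, by simpa using h6⟩
    rw [h7]
    exact hi
  have h5 : R.e q ≤ W x := (le_inf (hqb.trans (hf x hxS)) h4).trans himp_inf_le
  have h6 : R.e q ≤ W (fun n => (t n ⊓ R.sys.ρ Z (t n)) ⊓ x n) :=
    (le_inf (hqb.trans (hinf _ _ hI hxS)) (le_inf h3 h5)).trans himp_inf_le
  have h7 : (fun n => (t n ⊓ R.sys.ρ Z (t n)) ⊓ x n) = fun _ => (⊥ : 𝔹) := by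
    funext n
    rw [hx]
    exact inf_compl_eq_bot
  rw [h7] at h6
  have h8 : SymR R.sys (fun _ => (⊥ : 𝔹)) := ⟨fixS {ε}, ⟨_, rfl⟩, fun g hg n => OrderIso.map_bot _⟩
  have h9 : R.e q ≤ ⨆ n : ℕ, ⨆ _ : 0 < n, (⊥ : 𝔹) :=
    (le_inf (hqb.trans (hprop _ h8)) h6).trans himp_inf_le
  simp only [iSup_bot, le_bot_iff] at h9
  exact R.ne q h9

theorem core : Core R.sys R.u R.f where
  u_inv := R.u_inv
  u_mono := R.u_mono
  u_inf := R.u_inf
  u_proper := R.u_proper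
  u_top := R.u_top
  u_ultra := R.u_ultra
  u_idem := R.u_idem
  f_inv := R.f_inv
  f_mono := R.f_mono
  f_inf := R.f_inf
  f_proper := R.f_proper
  f_top := R.f_top
  f_shift := R.f_shift
  kill := fun A hA W hW b h1 h2 _ h4 h5 => R.kill A hA W hW b h1 h2 h4 h5

end ROA

theorem core_exists : ∃ (𝔹 : Type) (_ : CompleteBooleanAlgebra 𝔹) (_ : Nontrivial 𝔹) (S : Sys Gp 𝔹)
    (u f : (ℕ → 𝔹) → 𝔹), Core S u f := by
  obtain ⟨𝔹, inst, e, r, h1, h2, h3, h4, h5, h6, h7⟩ := exists_RO_aut Cond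
  let R : ROA 𝔹 := ⟨e, r, h1, h2, h3, h4, h5, h6, h7⟩
  have p : Cond := ⟨⟨fun i => {i}, fun i => Finset.singleton_nonempty i, fun i j h x hx y hy => by
    rw [Finset.mem_singleton] at hx hy; omega⟩, ⟨fun i => {i}, fun i => Finset.singleton_nonempty i,
    fun i j h x hx y hy => by rw [Finset.mem_singleton] at hx hy; omega⟩, ∅, 0⟩
  exact ⟨𝔹, inst, ⟨⟨e p, ⊥, h1 p⟩⟩, R.sys, R.u, R.f, R.core⟩

end Pool.Agent.SymZF
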