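import Pool.Agent.SymZF.HReal

/-!
# Idempotent filters in the symmetric model
-/

set_option autoImplicit false

namespace Pool.Agent.SymZF

open Pool.Agent.BVM Pool.Agent.StarHur

section GExtLemmas

variable {𝔹 : Type} [CompleteBooleanAlgebra 𝔹] {H : Type 1} (B : BStr 𝔹 H)

theorem GExt.inf {f g : H → 𝔹} (hf : GExt B f) (hg : GExt B g) : GExt B (fun x => f x ⊓ g x) := by
  intro x y
  refine le_inf (le_trans ?_ (hf x y)) (le_trans ?_ (hg x y))
  · exact inf_le_inf_left _ inf_le_left
  · exact inf_le_inf_left _ inf_le_right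

theorem GExt.himp {f g : H → 𝔹} (hf : GExt B f) (hg : GExt B g) : GExt B (fun x => f x ⇨ g x) := by
  intro x y
  show B.eq x y ⊓ (f x ⇨ g x) ≤ f y ⇨ g y
  rw [le_himp_iff]
  refine le_trans ?_ (hg x y)
  refine le_inf (inf_le_left.trans inf_le_left) ?_
  calc B.eq x y ⊓ (f x ⇨ g x) ⊓ f y ≤ (f x ⇨ g x) ⊓ f x := by
        refine le_inf (inf_le_left.trans inf_le_right) ?_
        refine le_trans ?_ (hf y x)
        rw [B.symm y x]
        exact inf_le_inf_right _ inf_le_left
    _ ≤ g x := himp_inf_le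

theorem GExt.const (b : 𝔹) : GExt B (fun _ : H => b) := fun _ _ => inf_le_right

theorem GExt.iInf {ι : Sort*} {f : ι → H → 𝔹} (hf : ∀ i, GExt B (f i)) :
    GExt B (fun x => ⨅ i, f i x) := by
  intro x y
  refine le_iInf fun i => le_trans ?_ (hf i x y)
  exact inf_le_inf_left _ (iInf_le _ i)

theorem GExt.iSup {ι : Sort*} {f : ι → H → 𝔹} (hf : ∀ i, GExt B (f i)) :
    GExt B (fun x => ⨆ i, f i x) := by
  intro x y
  show B.eq x y ⊓ (⨆ i, f i x) ≤ ⨆ i, f i y
  rw [inf_iSup_eq]
  exact iSup_mono fun i => hf i x y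

theorem GExt.biff {f g : H → 𝔹} (hf : GExt B f) (hg : GExt B g) :
    GExt B (fun x => StarHur.biff (f x) (g x)) :=
  GExt.inf B (GExt.himp B hf hg) (GExt.himp B hg hf)

theorem GExt.eq_right (y : H) : GExt B (fun x => B.eq y x) := by
  intro x z
  show B.eq x z ⊓ B.eq y x ≤ B.eq y z
  rw [inf_comm]
  exact B.trans _ _ _

theorem GExt.eq_left (y : H) : GExt B (fun x => B.eq x y) := by
  intro x z
  show B.eq x z ⊓ B.eq x y ≤ B.eq z y
  rw [B.symm x z]
  exact B.trans _ _ _

theorem GExt.mem_left (y : H) : GExt B (fun x => B.mem x y) := fun x z => B.congr_left x z y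

theorem GExt.mem_right (y : H) : GExt B (fun x => B.mem y x) := fun x z => B.congr_right x z y

end GExtLemmas

variable {𝔹 : Type} [CompleteBooleanAlgebra 𝔹] {G : Type} [AddCommGroup G] (S : Sys G 𝔹)

/-- the addition -/
noncomputable def hadd : HName S := (exists_add S).choose

theorem vTM_hadd (x y z : HName S) : vTM (hstr S) x y z (hadd S) =
    ⨆ m : ℕ, ⨆ n : ℕ, heq x (hnum S m) ⊓ (heq y (hnum S n) ⊓ heq z (hnum S (m + n))) :=
  (exists_add S).choose_spec.1 x y z

namespace HFilAux

theorem mem_eq (x y : HName S) : (hstr S).mem x y = hmem x y := rfl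
theorem eq_eq (x y : HName S) : (hstr S).eq x y = heq x y := rfl
theorem heq_refl' (x : HName S) : heq x x = ⊤ := (hstr S).refl x
theorem heq_symm' (x y : HName S) : heq x y = heq y x := (hstr S).symm x y
theorem hmem_congr_left' (x y z : HName S) : heq x y ⊓ hmem x z ≤ hmem y z := (hstr S).congr_left x y z
theorem hmem_congr_right' (x y z : HName S) : heq x y ⊓ hmem z x ≤ hmem z y := (hstr S).congr_right x y z

/-- a quantifier over names equal to a given name -/
theorem iSup_eq (y : HName S) (f : HName S → 𝔹) (hf : GExt (hstr S) f) :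
    (⨆ x, f x ⊓ heq x y) = f y := by
  apply le_antisymm
  · refine iSup_le fun x => ?_
    rw [inf_comm]
    exact hf x y
  · refine le_trans ?_ (le_iSup _ y)
    rw [heq_refl', inf_top_eq]

theorem symR_inf {S : Sys G 𝔹} {s t : ℕ → 𝔹} (hs : SymR S s) (ht : SymR S t) :
    SymR S fun n => s n ⊓ t n := by
  obtain ⟨A, hA, h⟩ := hs
  obtain ⟨B, hB, h'⟩ := ht
  obtain ⟨C, hC, h1, h2⟩ := S.dir A hA B hB
  refine ⟨C, hC, fun g hg n => ?_⟩
  rw [OrderIso.map_inf, h g (h1 hg), h' g (h2 hg)]

theorem symR_const {S : Sys G 𝔹} (b : 𝔹) (hb : ∀ g, S.ρ g b = b) : SymR S fun _ => b := by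
  obtain ⟨A, hA⟩ := S.nonempty
  exact ⟨A, hA, fun g _ _ => hb g⟩

theorem symR_shift {S : Sys G 𝔹} {s : ℕ → 𝔹} (hs : SymR S s) (k : ℕ) : SymR S fun n => s (n + k) := by
  obtain ⟨A, hA, h⟩ := hs
  exact ⟨A, hA, fun g hg n => h g hg _⟩

theorem symR_D {S : Sys G 𝔹} {s : ℕ → 𝔹} (hs : SymR S s) (u : (ℕ → 𝔹) → 𝔹)
    (h0 : ∀ g s, S.ρ g (u s) = u (fun n => S.ρ g (s n))) :
    SymR S fun n => u (fun m => s (m + n)) := by
  obtain ⟨A, hA, h⟩ := hs
  refine ⟨A, hA, fun g hg n => ?_⟩
  rw [h0]
  simp only [h g hg]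

theorem sub_mem (x t : HName S) : vSubN (hstr S) (homega S) x ⊓ hmem t x ≤
    ⨆ n : ℕ, ⨆ _ : 0 < n, hmem (hnum S n) x ⊓ heq t (hnum S n) := by
  refine (inf_le_inf_right _ (vSubN_le S x)).trans ?_
  refine (hmem_congr_right' S _ _ _).trans ?_
  rw [hmem_real]

theorem mem_of (x t : HName S) (n : ℕ) : hmem (hnum S n) x ⊓ heq t (hnum S n) ≤ hmem t x := by
  rw [inf_comm, heq_symm']
  exact hmem_congr_left' S _ _ _

end HFilAux

open HFilAux

theorem vFilterN_fam (u : (ℕ → 𝔹) → 𝔹)
    (h1 : ∀ s t, (⨅ n, ⨅ _ : 0 < n, s n ⇨ t n) ⊓ u s ≤ u t)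
    (h2 : ∀ s t, u s ⊓ u t ≤ u (fun n => s n ⊓ t n))
    (h3 : ∀ s, u s ≤ ⨆ n, ⨆ _ : 0 < n, s n) (h4 : u (fun _ => ⊤) = ⊤) (U : HName S)
    (hU : ∀ s hs, hmem (hreal S s hs) U = u s)
    (hU' : ∀ x, hmem x U = vSubN (hstr S) (homega S) x ⊓ u (fun n => hmem (hnum S n) x)) :
    vFilterN (hstr S) (homega S) U = ⊤ := by
  rw [eq_top_iff, vFilterN]
  refine le_inf ?_ (le_inf ?_ (le_inf ?_ (le_inf ?_ ?_)))
  · refine le_iInf fun x => ?_
    rw [le_himp_iff, top_inf_eq, mem_eq, hU']
    exact inf_le_left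
  · refine le_trans ?_ (le_iSup _ (hreal S _ (symR_const (S := S) ⊤ fun g => OrderIso.map_top _)))
    rw [mem_eq, hU, h4]
  · refine le_iInf fun x => ?_
    rw [le_himp_iff, top_inf_eq, mem_eq, hU']
    refine inf_le_right.trans ((h3 _).trans ?_)
    exact iSup₂_le fun n _ => le_iSup (fun t : HName S => hmem t x) (hnum S n)
  · refine le_iInf fun x => ?_
    rw [le_himp_iff, top_inf_eq]
    refine le_iInf fun y => ?_
    rw [le_himp_iff, le_himp_iff]
    simp only [mem_eq]
    rw [hU' y]
    refine le_inf (inf_le_left.trans inf_le_right) (le_trans ?_ (h1 (fun n => hmem (hnum S n) x) _))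
    refine le_inf (inf_le_right.trans ?_) (inf_le_left.trans (inf_le_left.trans ?_))
    · exact le_iInf₂ fun n _ => iInf_le _ (hnum S n)
    · rw [hU']
      exact inf_le_right
  · refine le_iInf fun x => ?_
    rw [le_himp_iff, top_inf_eq]
    refine le_iInf fun y => ?_
    rw [le_himp_iff]
    simp only [mem_eq]
    have hs := symR_inf (symR_of_name S x) (symR_of_name S y)
    refine le_trans ?_ (le_iSup _ (hreal S _ hs))
    refine le_inf ?_ ?_
    · rw [hU, hU', hU']
      exact (inf_le_inf inf_le_right inf_le_right).trans (h2 _ _)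
    · have h5 : hmem x U ⊓ hmem y U ≤ vSubN (hstr S) (homega S) x ⊓ vSubN (hstr S) (homega S) y := by
        rw [hU', hU']
        exact inf_le_inf inf_le_left inf_le_left
      refine h5.trans (le_iInf fun t => ?_)
      rw [hmem_real]
      refine le_inf (le_himp_iff.2 ?_) (le_himp_iff.2 ?_)
      · refine inf_le_right.trans (iSup₂_le fun n hn => le_inf ?_ ?_)
        · exact le_trans (le_inf (inf_le_left.trans inf_le_left) inf_le_right) (mem_of S x t n)
        · exact le_trans (le_inf (inf_le_left.trans inf_le_right) inf_le_right) (mem_of S y t n)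
      · have h6 : vSubN (hstr S) (homega S) x ⊓ vSubN (hstr S) (homega S) y ⊓ (hmem t x ⊓ hmem t y) ≤
            hmem t y ⊓ ⨆ n : ℕ, ⨆ _ : 0 < n, hmem (hnum S n) x ⊓ heq t (hnum S n) := by
          refine le_inf (inf_le_right.trans inf_le_right) (le_trans ?_ (sub_mem S x t))
          exact le_inf (inf_le_left.trans inf_le_left) (inf_le_right.trans inf_le_left)
        refine h6.trans ?_
        rw [inf_iSup_eq]
        refine iSup_mono fun n => ?_
        rw [inf_iSup_eq]
        refine iSup_mono fun hn => ?_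
        refine le_inf (le_inf (inf_le_right.trans inf_le_left) ?_) (inf_le_right.trans inf_le_right)
        refine le_trans (le_inf (inf_le_right.trans inf_le_right) inf_le_left) ?_
        exact hmem_congr_left' S _ _ _

/-- the shift of a set by a natural number -/
theorem vShift_num (x : HName S) (k : ℕ) (C : HName S) :
    vShift (hstr S) (homega S) (hadd S) x (hnum S k) C =
      heq C (hreal S _ (symR_shift (symR_of_name S x) k)) := by
  rw [vShift, heq_eq_iInf]
  refine iInf_congr fun m => ?_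
  have h : vPos (hstr S) (homega S) m ⊓ (⨆ j, vTM (hstr S) m (hnum S k) j (hadd S) ⊓ (hstr S).mem j x) =
      hmem m (hreal S _ (symR_shift (symR_of_name S x) k)) := by
    rw [hmem_real]
    have h1 : (⨆ j, vTM (hstr S) m (hnum S k) j (hadd S) ⊓ (hstr S).mem j x) =
        ⨆ p : ℕ, heq m (hnum S p) ⊓ hmem (hnum S (p + k)) x := by
      apply le_antisymm
      · refine iSup_le fun j => ?_
        rw [vTM_hadd, iSup_inf_eq]
        refine iSup_mono fun p => ?_
        rw [iSup_inf_eq]
        refine iSup_le fun q => ?_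
        rw [heq_num]
        split_ifs with hq
        · subst hq
          rw [top_inf_eq]
          refine le_inf (inf_le_left.trans inf_le_left) ?_
          exact le_trans (le_inf (inf_le_left.trans inf_le_right) inf_le_right)
            (hmem_congr_left' S _ _ _)
        · rw [bot_inf_eq, inf_bot_eq, bot_inf_eq]
          exact bot_le
      · refine iSup_le fun p => ?_
        refine le_trans ?_ (le_iSup _ (hnum S (p + k)))
        refine le_inf ?_ inf_le_right
        rw [vTM_hadd]
        refine le_trans ?_ (le_iSup₂ (f := fun m' n => heq m (hnum S m') ⊓ (heq (hnum S k) (hnum S n) ⊓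
          heq (hnum S (p + k)) (hnum S (m' + n)))) p k)
        rw [heq_refl', heq_refl', top_inf_eq, inf_top_eq]
        exact inf_le_left
    rw [h1, vPos_omega]
    apply le_antisymm
    · rw [iSup_inf_eq]
      refine iSup_mono fun n => ?_
      rw [iSup_inf_eq]
      refine iSup_mono fun hn => ?_
      rw [inf_iSup_eq]
      refine iSup_le fun p => ?_
      have h2 : heq m (hnum S n) ⊓ (heq m (hnum S p) ⊓ hmem (hnum S (p + k)) x) ≤
          heq (hnum S n) (hnum S p) := by
        refine le_trans (le_inf inf_le_left (inf_le_right.trans inf_le_left)) ?_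
        rw [heq_symm' S m (hnum S n)]
        exact (hstr S).trans _ _ _
      by_cases hp : n = p
      · subst hp
        exact le_inf (inf_le_right.trans inf_le_right) inf_le_left
      · rw [heq_num, if_neg hp] at h2
        exact h2.trans bot_le
    · refine iSup₂_le fun n hn => le_inf ?_ ?_
      · exact inf_le_right.trans (le_iSup₂ (f := fun n (_ : 0 < n) => heq m (hnum S n)) n hn)
      · refine le_trans ?_ (le_iSup _ n)
        rw [inf_comm]
  rw [h]
  rfl

theorem gext_TM (m k : HName S) : GExt (hstr S) fun n => vTM (hstr S) m n k (hadd S) := by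
  simp only [vTM_hadd]
  refine GExt.iSup _ fun p => GExt.iSup _ fun q => GExt.inf _ (GExt.const _ _) (GExt.inf _ ?_ (GExt.const _ _))
  exact GExt.eq_left (hstr S) _

theorem gext_shift (x C : HName S) : GExt (hstr S) fun n =>
    vShift (hstr S) (homega S) (hadd S) x n C := by
  refine GExt.iInf _ fun m => GExt.biff _ (GExt.const _ _) (GExt.inf _ (GExt.const _ _) ?_)
  exact GExt.iSup _ fun k => GExt.inf _ (gext_TM S m k) (GExt.const _ _)

/-- the value of `X ∈ U ⊕ U` -/
theorem vInSum_fam (u : (ℕ → 𝔹) → 𝔹) (h0 : ∀ g s, S.ρ g (u s) = u (fun n => S.ρ g (s n))) (U : HName S)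
    (hU : ∀ s hs, hmem (hreal S s hs) U = u s) (x : HName S) :
    vInSum (hstr S) (homega S) (hadd S) U x =
      u (fun n => u (fun m => hmem (hnum S (m + n)) x)) := by
  have h1 : ∀ k : ℕ, (⨆ C, (hstr S).mem C U ⊓
      vShift (hstr S) (homega S) (hadd S) x (hnum S k) C) = u (fun m => hmem (hnum S (m + k)) x) := by
    intro k
    simp only [vShift_num]
    rw [iSup_eq S _ (fun C => (hstr S).mem C U) (GExt.mem_left (hstr S) U), mem_eq, hU]
  have h2 : ∀ n : HName S, vPos (hstr S) (homega S) n ⊓ (⨆ C, (hstr S).mem C U ⊓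
      vShift (hstr S) (homega S) (hadd S) x n C) =
      hmem n (hreal S _ (symR_D (symR_of_name S x) u h0)) := by
    intro n
    have h3 : GExt (hstr S) fun n => ⨆ C, (hstr S).mem C U ⊓
        vShift (hstr S) (homega S) (hadd S) x n C :=
      GExt.iSup _ fun C => GExt.inf _ (GExt.const _ _) (gext_shift S x C)
    rw [vPos_omega, hmem_real, iSup_inf_eq]
    refine iSup_congr fun k => ?_
    rw [iSup_inf_eq]
    refine iSup_congr fun hk => ?_
    rw [← h1 k]
    apply le_antisymm
    · exact le_inf (h3 n (hnum S k)) inf_le_left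
    · refine le_inf inf_le_right ?_
      rw [inf_comm, heq_symm']
      exact h3 (hnum S k) n
  rw [vInSum]
  have h4 : ∀ D : HName S, (⨅ n, biff ((hstr S).mem n D) (vPos (hstr S) (homega S) n ⊓
      ⨆ C, (hstr S).mem C U ⊓ vShift (hstr S) (homega S) (hadd S) x n C)) =
      heq D (hreal S _ (symR_D (symR_of_name S x) u h0)) := by
    intro D
    rw [heq_eq_iInf]
    refine iInf_congr fun n => ?_
    rw [h2]
    rfl
  simp only [h4]
  rw [iSup_eq S _ (fun C => (hstr S).mem C U) (GExt.mem_left (hstr S) U), mem_eq, hU]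

theorem vIdem_fam (u : (ℕ → 𝔹) → 𝔹) (h0 : ∀ g s, S.ρ g (u s) = u (fun n => S.ρ g (s n)))
    (_h1 : ∀ s t, (⨅ n, ⨅ _ : 0 < n, s n ⇨ t n) ⊓ u s ≤ u t)
    (h5 : ∀ s, SymR S s → u (fun n => u (fun m => s (m + n))) = u s) (U : HName S)
    (hU : ∀ s hs, hmem (hreal S s hs) U = u s)
    (hU' : ∀ x, hmem x U = vSubN (hstr S) (homega S) x ⊓ u (fun n => hmem (hnum S n) x)) :
    vIdem (hstr S) (homega S) (hadd S) U = ⊤ := by
  rw [eq_top_iff, vIdem]
  refine le_iInf fun x => ?_
  rw [le_himp_iff, top_inf_eq, vInSum_fam S u h0 U hU, h5 _ (symR_of_name S x), mem_eq, hU']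
  refine le_inf (le_himp_iff.2 ?_) (le_himp_iff.2 ?_)
  · exact inf_le_right.trans inf_le_right
  · exact le_rfl

end Pool.Agent.SymZF
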