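import Pool.Agent.SymZF.HNat

/-!
# Sets of positive integers and families of sets of positive integers in the symmetric model
-/

set_option autoImplicit false

namespace Pool.Agent.SymZF

open Pool.Agent.BVM Pool.Agent.StarHur

variable {𝔹 : Type} [CompleteBooleanAlgebra 𝔹] {G : Type} [AddCommGroup G] (S : Sys G 𝔹)

namespace HRealAux

theorem heq_refl' (x : HName S) : heq x x = ⊤ := (hstr S).refl x
theorem heq_symm' (x y : HName S) : heq x y = heq y x := (hstr S).symm x y
theorem heq_trans' (x y z : HName S) : heq x y ⊓ heq y z ≤ heq x z := (hstr S).trans x y z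
theorem hmem_congr_left' (x y z : HName S) : heq x y ⊓ hmem x z ≤ hmem y z := (hstr S).congr_left x y z
theorem hmem_congr_right' (x y z : HName S) : heq x y ⊓ hmem z x ≤ hmem z y := (hstr S).congr_right x y z

theorem mem_eq (x y : HName S) : (hstr S).mem x y = hmem x y := rfl
theorem eq_eq (x y : HName S) : (hstr S).eq x y = heq x y := rfl

theorem hmem_eq_of (x y z : HName S) (h : heq x y = ⊤) : hmem z x = hmem z y := by
  apply le_antisymm
  · have := hmem_congr_right' S x y z
    rwa [h, top_inf_eq] at this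
  · have := hmem_congr_right' S y x z
    rwa [heq_symm', h, top_inf_eq] at this

theorem heq_eq_of (x y z : HName S) (h : heq x y = ⊤) : heq z x = heq z y := by
  apply le_antisymm
  · have := heq_trans' S z x y
    rwa [h, inf_top_eq] at this
  · have := heq_trans' S z y x
    rwa [heq_symm' S y x, h, inf_top_eq] at this

theorem le_biff {a b c : 𝔹} (h1 : c ⊓ a ≤ b) (h2 : c ⊓ b ≤ a) : c ≤ biff a b :=
  le_inf (le_himp_iff.2 h1) (le_himp_iff.2 h2)

theorem biff_mp {a b c : 𝔹} (h : c ≤ biff a b) (ha : c ≤ a) : c ≤ b :=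
  (le_inf (h.trans inf_le_left) ha).trans himp_inf_le

theorem biff_mpr {a b c : 𝔹} (h : c ≤ biff a b) (hb : c ≤ b) : c ≤ a :=
  (le_inf (h.trans inf_le_right) hb).trans himp_inf_le

theorem act_heq (g : G) (z : HName S) (n : ℕ) : S.ρ g (heq z (hnum S n)) = heq (hact g z) (hnum S n) := by
  rw [← heq_act, hact_num]

/-- reals of the symmetric model are closed under the action -/
theorem symR_act {S : Sys G 𝔹} {s : ℕ → 𝔹} (hs : SymR S s) (g : G) : SymR S fun n => S.ρ g (s n) := by
  obtain ⟨A, hA, h⟩ := hs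
  refine ⟨A, hA, fun h' hh n => ?_⟩
  rw [← S.map_add, add_comm, S.map_add, h h' hh]

theorem ρ_neg (g : G) (b : 𝔹) : S.ρ g (S.ρ (-g) b) = b := by
  rw [← S.map_add, add_neg_cancel, S.map_zero]

theorem ρ_neg' (g : G) (b : 𝔹) : S.ρ (-g) (S.ρ g b) = b := by
  rw [← S.map_add, neg_add_cancel, S.map_zero]

end HRealAux

open HRealAux

/-- names of symmetric sets of positive integers -/
theorem exists_real (s : ℕ → 𝔹) (hs : SymR S s) : ∃ x : HName S, ∀ z,
    hmem z x = ⨆ n : ℕ, ⨆ _ : 0 < n, s n ⊓ heq z (hnum S n) := by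
  obtain ⟨A, hA, h⟩ := hs
  obtain ⟨y, hy⟩ := exists_mk (S := S) (ι := {n : ℕ // 0 < n}) (fun n => hnum S n.1) (fun n => s n.1) A hA
    (by
      intro g hg z
      simp only [OrderIso.map_iSup, OrderIso.map_inf, h g hg, act_heq])
  refine ⟨y, fun z => ?_⟩
  rw [hy z, iSup_subtype]

noncomputable def hreal (s : ℕ → 𝔹) (hs : SymR S s) : HName S := (exists_real S s hs).choose

theorem hmem_real (s : ℕ → 𝔹) (hs : SymR S s) (z : HName S) :
    hmem z (hreal S s hs) = ⨆ n : ℕ, ⨆ _ : 0 < n, s n ⊓ heq z (hnum S n) := (exists_real S s hs).choose_spec z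

theorem hmem_num_real (s : ℕ → 𝔹) (hs : SymR S s) (n : ℕ) (hn : 0 < n) :
    hmem (hnum S n) (hreal S s hs) = s n := by
  rw [hmem_real]
  apply le_antisymm
  · refine iSup₂_le fun m _ => ?_
    rw [heq_num]
    split_ifs with h
    · rw [inf_top_eq, h]
    · rw [inf_bot_eq]; exact bot_le
  · refine le_trans ?_ (le_iSup₂ (f := fun m (_ : 0 < m) => s m ⊓ heq (hnum S n) (hnum S m)) n hn)
    rw [heq_num, if_pos rfl, inf_top_eq]

theorem symR_of_name (x : HName S) : SymR S (fun n => hmem (hnum S n) x) := by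
  obtain ⟨A, hA, h⟩ := exists_supp x
  refine ⟨A, hA, fun g hg n => ?_⟩
  rw [← hmem_act, hact_num]
  exact hmem_eq_of S _ _ _ (h g hg)

theorem vSubN_real (s : ℕ → 𝔹) (hs : SymR S s) : vSubN (hstr S) (homega S) (hreal S s hs) = ⊤ := by
  rw [vSubN, eq_top_iff]
  refine le_iInf fun t => ?_
  rw [le_himp_iff, top_inf_eq, vPos_omega, mem_eq, hmem_real]
  exact iSup₂_mono fun n _ => inf_le_right

/-- every set of positive integers is given by a symmetric function -/
theorem vSubN_le (x : HName S) :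
    vSubN (hstr S) (homega S) x ≤ heq x (hreal S _ (symR_of_name S x)) := by
  rw [heq_eq_iInf]
  refine le_iInf fun z => le_biff ?_ ?_
  · have h1 : vSubN (hstr S) (homega S) x ⊓ hmem z x ≤ vPos (hstr S) (homega S) z := by
      rw [← le_himp_iff]
      exact iInf_le _ z
    have h2 := le_inf (inf_le_right : vSubN (hstr S) (homega S) x ⊓ hmem z x ≤ hmem z x) h1
    refine h2.trans ?_
    rw [vPos_omega, hmem_real, inf_iSup_eq]
    refine iSup_mono fun n => ?_
    rw [inf_iSup_eq]
    refine iSup_mono fun hn => le_inf ?_ inf_le_right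
    rw [inf_comm]
    exact hmem_congr_left' S _ _ _
  · refine inf_le_right.trans ?_
    rw [hmem_real]
    refine iSup₂_le fun n hn => ?_
    rw [inf_comm, heq_symm']
    exact hmem_congr_left' S _ _ _

theorem heq_real (s t : ℕ → 𝔹) (hs : SymR S s) (ht : SymR S t) :
    heq (hreal S s hs) (hreal S t ht) = ⨅ n, ⨅ _ : 0 < n, biff (s n) (t n) := by
  rw [heq_eq_iInf]
  apply le_antisymm
  · refine le_iInf₂ fun n hn => (iInf_le _ (hnum S n)).trans ?_
    rw [hmem_num_real S s hs n hn, hmem_num_real S t ht n hn]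
  · refine le_iInf fun z => le_biff ?_ ?_
    · rw [hmem_real, hmem_real, inf_iSup_eq]
      refine iSup_mono fun n => ?_
      rw [inf_iSup_eq]
      refine iSup_mono fun hn => le_inf ?_ (inf_le_right.trans inf_le_right)
      exact biff_mp (inf_le_left.trans (iInf₂_le n hn)) (inf_le_right.trans inf_le_left)
    · rw [hmem_real, hmem_real, inf_iSup_eq]
      refine iSup_mono fun n => ?_
      rw [inf_iSup_eq]
      refine iSup_mono fun hn => le_inf ?_ (inf_le_right.trans inf_le_right)
      exact biff_mpr (inf_le_left.trans (iInf₂_le n hn)) (inf_le_right.trans inf_le_left)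

theorem hact_neg_heq (g : G) (x y : HName S) : heq (hact g (hact (-g) x)) y = heq x y := by
  rw [← heq_act_add, add_neg_cancel, heq_act_zero]

theorem hmem_hact (g : G) (z x : HName S) : hmem z (hact g x) = S.ρ g (hmem (hact (-g) z) x) := by
  rw [← hmem_act]
  have h : heq (hact g (hact (-g) z)) z = ⊤ := by rw [hact_neg_heq, heq_refl']
  apply le_antisymm
  · have := hmem_congr_left' S z (hact g (hact (-g) z)) (hact g x)
    rwa [heq_symm', h, top_inf_eq] at this
  · have := hmem_congr_left' S (hact g (hact (-g) z)) z (hact g x)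
    rwa [h, top_inf_eq] at this

theorem heq_act_real (s : ℕ → 𝔹) (hs : SymR S s) (g : G) (hs' : SymR S fun n => S.ρ g (s n)) :
    heq (hact g (hreal S s hs)) (hreal S _ hs') = ⊤ := by
  rw [heq_eq_iInf, eq_top_iff]
  refine le_iInf fun z => ?_
  have h : hmem z (hact g (hreal S s hs)) = hmem z (hreal S _ hs') := by
    rw [hmem_hact, hmem_real, hmem_real]
    simp only [OrderIso.map_iSup, OrderIso.map_inf, act_heq, hact_neg_heq]
  rw [h]
  exact le_biff inf_le_right inf_le_right

theorem vPos_ext (t t' : HName S) : heq t t' ⊓ vPos (hstr S) (homega S) t ≤ vPos (hstr S) (homega S) t' := by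
  rw [vPos_omega, vPos_omega, inf_iSup_eq]
  refine iSup_mono fun n => ?_
  rw [inf_iSup_eq]
  refine iSup_mono fun hn => ?_
  rw [heq_symm' S t t']
  exact heq_trans' S _ _ _

theorem vSubN_ext (x y : HName S) : heq x y ⊓ vSubN (hstr S) (homega S) x ≤ vSubN (hstr S) (homega S) y := by
  refine le_iInf fun t => ?_
  rw [le_himp_iff]
  have h1 : heq x y ⊓ vSubN (hstr S) (homega S) x ⊓ hmem t y ≤ vSubN (hstr S) (homega S) x ⊓ hmem t x := by
    refine le_inf (inf_le_left.trans inf_le_right) ?_
    refine le_trans ?_ (hmem_congr_right' S y x t)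
    rw [heq_symm' S y x]
    exact inf_le_inf_right _ inf_le_left
  refine h1.trans ?_
  rw [← le_himp_iff]
  exact iInf_le _ t

/-- the name of a family of sets of positive integers -/
theorem exists_fam (u : (ℕ → 𝔹) → 𝔹) (h0 : ∀ g s, S.ρ g (u s) = u (fun n => S.ρ g (s n)))
    (h1 : ∀ s t, (⨅ n, ⨅ _ : 0 < n, s n ⇨ t n) ⊓ u s ≤ u t) :
    ∃ U : HName S, (∀ s hs, hmem (hreal S s hs) U = u s) ∧
      ∀ x, hmem x U = vSubN (hstr S) (homega S) x ⊓ u (fun n => hmem (hnum S n) x) := by
  obtain ⟨A, hA⟩ := S.nonempty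
  obtain ⟨U, hU⟩ := exists_mk (S := S) (ι := {s : ℕ → 𝔹 // SymR S s}) (fun s => hreal S s.1 s.2)
    (fun s => u s.1) A hA
    (by
      intro g _ z
      simp only [OrderIso.map_iSup, OrderIso.map_inf, h0]
      have h2 : ∀ s : {s : ℕ → 𝔹 // SymR S s}, S.ρ g (heq z (hreal S s.1 s.2)) =
          heq (hact g z) (hreal S _ (symR_act s.2 g)) := by
        intro s
        rw [← heq_act]
        exact heq_eq_of S _ _ _ (heq_act_real S s.1 s.2 g _)
      simp only [h2]
      apply le_antisymm
      · refine iSup_le fun s => ?_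
        exact le_iSup (fun s : {s : ℕ → 𝔹 // SymR S s} => u s.1 ⊓ heq (hact g z) (hreal S s.1 s.2))
          ⟨_, symR_act s.2 g⟩
      · refine iSup_le fun s => ?_
        have h3 : (fun n => S.ρ g (S.ρ (-g) (s.1 n))) = s.1 := by
          funext n
          exact ρ_neg S g _
        refine le_trans ?_ (le_iSup (fun s : {s : ℕ → 𝔹 // SymR S s} =>
          u (fun n => S.ρ g (s.1 n)) ⊓ heq (hact g z) (hreal S _ (symR_act s.2 g)))
          ⟨_, symR_act s.2 (-g)⟩)
        simp only [h3]
        exact le_rfl)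
  have hb : ∀ s t : ℕ → 𝔹, (⨅ n, ⨅ _ : 0 < n, biff (s n) (t n)) ⊓ u s ≤ u t := by
    intro s t
    refine le_trans ?_ (h1 s t)
    exact inf_le_inf_right _ (iInf₂_mono fun n _ => inf_le_left)
  refine ⟨U, fun s hs => ?_, fun x => ?_⟩
  · rw [hU]
    apply le_antisymm
    · refine iSup_le fun t => ?_
      rw [heq_symm', heq_real, inf_comm]
      exact hb _ _
    · refine le_trans ?_ (le_iSup (fun t : {s : ℕ → 𝔹 // SymR S s} =>
        u t.1 ⊓ heq (hreal S s hs) (hreal S t.1 t.2)) ⟨s, hs⟩)
      rw [heq_refl', inf_top_eq]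
  · apply le_antisymm
    · rw [hU]
      refine iSup_le fun t => le_inf ?_ ?_
      · have h3 := vSubN_ext S (hreal S t.1 t.2) x
        rw [vSubN_real, inf_top_eq, heq_symm'] at h3
        exact inf_le_right.trans h3
      · refine le_trans (le_inf ?_ inf_le_left) (h1 t.1 _)
        refine inf_le_right.trans (le_iInf₂ fun n hn => ?_)
        rw [le_himp_iff]
        have h4 := hmem_congr_right' S (hreal S t.1 t.2) x (hnum S n)
        rwa [hmem_num_real S t.1 t.2 n hn, heq_symm'] at h4
    · have h5 : vSubN (hstr S) (homega S) x ⊓ u (fun n => hmem (hnum S n) x) ≤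
          heq x (hreal S _ (symR_of_name S x)) ⊓ u (fun n => hmem (hnum S n) x) :=
        inf_le_inf_right _ (vSubN_le S x)
      refine h5.trans ?_
      rw [hU, inf_comm]
      exact le_iSup (fun t : {s : ℕ → 𝔹 // SymR S s} => u t.1 ⊓ heq x (hreal S t.1 t.2))
        ⟨_, symR_of_name S x⟩

end Pool.Agent.SymZF
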