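import Pool.Agent.SymZF.HMk
import Pool.Agent.SymZF.HReal
import Pool.Agent.SymZF.HFil

/-!
# The two families of the core
-/

set_option autoImplicit false

namespace Pool.Agent.SymZF

open Pool.Agent.BVM Pool.Agent.StarHur

namespace HUlt

section Ext

variable {𝔹 : Type} [CompleteBooleanAlgebra 𝔹] {H : Type 1} {B : BStr 𝔹 H}

lemma gext_inf {f g : H → 𝔹} (hf : GExt B f) (hg : GExt B g) : GExt B fun x => f x ⊓ g x := by
  intro x y
  refine le_inf ?_ ?_
  · exact (le_inf inf_le_left (inf_le_right.trans inf_le_left)).trans (hf x y)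
  · exact (le_inf inf_le_left (inf_le_right.trans inf_le_right)).trans (hg x y)

lemma gext_iSup {ι : Sort*} {f : ι → H → 𝔹} (hf : ∀ i, GExt B (f i)) :
    GExt B fun x => ⨆ i, f i x := by
  intro x y
  dsimp only
  rw [inf_iSup_eq]
  exact iSup_le fun i => (hf i x y).trans (le_iSup (fun i => f i y) i)

lemma gext_iInf {ι : Sort*} {f : ι → H → 𝔹} (hf : ∀ i, GExt B (f i)) :
    GExt B fun x => ⨅ i, f i x := by
  intro x y
  dsimp only
  exact le_iInf fun i => (inf_le_inf_left _ (iInf_le _ i)).trans (hf i x y)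

lemma gext_const (b : 𝔹) : GExt B fun _ => b := fun _ _ => inf_le_right

lemma gext_himp {f g : H → 𝔹} (hf : GExt B f) (hg : GExt B g) : GExt B fun x => f x ⇨ g x := by
  intro x y
  dsimp only
  rw [le_himp_iff]
  have h1 : B.eq x y ⊓ f y ≤ f x := by
    rw [B.symm x y]
    exact hf y x
  refine le_trans ?_ (hg x y)
  refine le_inf (inf_le_left.trans inf_le_left) ?_
  calc B.eq x y ⊓ (f x ⇨ g x) ⊓ f y ≤ (f x ⇨ g x) ⊓ f x :=
        le_inf (inf_le_left.trans inf_le_right)
          ((le_inf (inf_le_left.trans inf_le_left) inf_le_right).trans h1)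
    _ ≤ g x := himp_inf_le

lemma gext_compl {f : H → 𝔹} (hf : GExt B f) : GExt B fun x => (f x)ᶜ := by
  have := gext_himp hf (gext_const (B := B) (⊥ : 𝔹))
  intro x y
  have h := this x y
  dsimp only at h
  rwa [himp_bot, himp_bot] at h

lemma gext_biff {f g : H → 𝔹} (hf : GExt B f) (hg : GExt B g) : GExt B fun x => biff (f x) (g x) :=
  gext_inf (gext_himp hf hg) (gext_himp hg hf)

lemma gext_mem_left (z : H) : GExt B fun x => B.mem x z := fun x y => B.congr_left x y z

lemma gext_mem_right (z : H) : GExt B fun x => B.mem z x := fun x y => B.congr_right x y z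

lemma gext_eq (z : H) : GExt B fun x => B.eq x z := by
  intro x y
  dsimp only
  rw [B.symm x y]
  exact B.trans y x z

end Ext

lemma biff_self {𝔹 : Type} [CompleteBooleanAlgebra 𝔹] (a : 𝔹) : biff a a = ⊤ := by
  unfold biff; rw [himp_self, inf_idem]

lemma biff_le_left {𝔹 : Type} [CompleteBooleanAlgebra 𝔹] (a b : 𝔹) : biff a b ≤ a ⇨ b := inf_le_left

lemma biff_le_right {𝔹 : Type} [CompleteBooleanAlgebra 𝔹] (a b : 𝔹) : biff a b ≤ b ⇨ a := inf_le_right

variable {𝔹 : Type} [CompleteBooleanAlgebra 𝔹] {G : Type} [AddCommGroup G] {S : Sys G 𝔹}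

/-- An extensional predicate which holds only of positive integers. -/
lemma ext_eq {P : HName S → 𝔹} (hP : GExt (hstr S) P)
    (h : ∀ z, P z ≤ vPos (hstr S) (homega S) z) (z : HName S) :
    P z = ⨆ n : ℕ, ⨆ _ : 0 < n, P (hnum S n) ⊓ heq z (hnum S n) := by
  apply le_antisymm
  · calc P z ≤ P z ⊓ ⨆ n : ℕ, ⨆ _ : 0 < n, heq z (hnum S n) := by
          rw [← vPos_omega]; exact le_inf le_rfl (h z)
      _ = ⨆ n : ℕ, ⨆ _ : 0 < n, P z ⊓ heq z (hnum S n) := by
          rw [inf_iSup_eq]; simp only [inf_iSup_eq]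
      _ ≤ _ := by
          refine iSup_mono fun n => iSup_mono fun _ => le_inf ?_ inf_le_right
          rw [inf_comm]
          exact hP z (hnum S n)
  · refine iSup_le fun n => iSup_le fun _ => ?_
    rw [inf_comm, heq_symm]
    exact hP (hnum S n) z

lemma biff_num {P Q : HName S → 𝔹} (hP : GExt (hstr S) P) (hQ : GExt (hstr S) Q)
    (h1 : ∀ z, P z ≤ vPos (hstr S) (homega S) z) (h2 : ∀ z, Q z ≤ vPos (hstr S) (homega S) z)
    (h : ∀ n, 0 < n → P (hnum S n) = Q (hnum S n)) : (⨅ z, biff (P z) (Q z)) = ⊤ := by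
  rw [iInf_eq_top]
  intro z
  have : P z = Q z := by
    rw [ext_eq hP h1 z, ext_eq hQ h2 z]
    exact iSup_congr fun n => iSup_congr fun hn => by rw [h n hn]
  rw [this, biff_self]

lemma vPos_num {n : ℕ} (hn : 0 < n) : vPos (hstr S) (homega S) (hnum S n) = ⊤ := by
  rw [vPos_omega, eq_top_iff]
  refine le_trans ?_ (le_iSup _ n)
  refine le_trans ?_ (le_iSup _ hn)
  rw [heq_refl]

lemma gext_vPos : GExt (hstr S) fun z => vPos (hstr S) (homega S) z := by
  have : (fun z => vPos (hstr S) (homega S) z) =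
      fun z => ⨆ n : ℕ, ⨆ _ : 0 < n, (hstr S).eq z (hnum S n) := by
    funext z; exact vPos_omega S z
  rw [this]
  exact gext_iSup fun n => gext_iSup fun _ => gext_eq _

lemma real_le_vPos (s : ℕ → 𝔹) (hs : SymR S s) (z : HName S) :
    hmem z (hreal S s hs) ≤ vPos (hstr S) (homega S) z := by
  rw [hmem_real, vPos_omega]
  exact iSup_mono fun n => iSup_mono fun _ => inf_le_right

lemma sub_le (X z : HName S) : vSubN (hstr S) (homega S) X ⊓ hmem z X ≤
    vPos (hstr S) (homega S) z := by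
  have h : vSubN (hstr S) (homega S) X ≤ hmem z X ⇨ vPos (hstr S) (homega S) z := iInf_le _ z
  exact (inf_le_inf_right _ h).trans himp_inf_le

end HUlt

variable {𝔹 : Type} [CompleteBooleanAlgebra 𝔹] {G : Type} [AddCommGroup G] (S : Sys G 𝔹)

namespace HUlt

variable {S}

lemma symR_compl {s : ℕ → 𝔹} (hs : SymR S s) : SymR S (fun n => (s n)ᶜ) := by
  obtain ⟨A, hA, h⟩ := hs
  exact ⟨A, hA, fun g hg n => by
    show S.ρ g (s n)ᶜ = (s n)ᶜ
    rw [← himp_bot, map_himp, OrderIso.map_bot, h g hg n]⟩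

lemma symR_inf {s t : ℕ → 𝔹} (hs : SymR S s) (ht : SymR S t) : SymR S (fun n => s n ⊓ t n) := by
  obtain ⟨A, hA, h⟩ := hs
  obtain ⟨A', hA', h'⟩ := ht
  obtain ⟨C, hC, hCA, hCA'⟩ := S.dir A hA A' hA'
  exact ⟨C, hC, fun g hg n => by rw [OrderIso.map_inf, h g (hCA hg) n, h' g (hCA' hg) n]⟩

lemma symR_act {s : ℕ → 𝔹} (hs : SymR S s) (g : G) : SymR S (fun n => S.ρ g (s n)) := by
  obtain ⟨A, hA, h⟩ := hs
  refine ⟨A, hA, fun g' hg' n => ?_⟩
  rw [← S.map_add, add_comm, S.map_add, h g' hg' n]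

lemma gext_mem' (X : HName S) : GExt (hstr S) fun z => hmem z X :=
  gext_mem_left (B := hstr S) X

/-- the complement of a set of positive integers -/
lemma compl_real (X : HName S) (s : ℕ → 𝔹) (hs : SymR S s)
    (h : ∀ n, 0 < n → hmem (hnum S n) X = s n) :
    (⨅ t, biff (hmem t (hreal S _ (symR_compl hs))) (vPos (hstr S) (homega S) t ⊓ (hmem t X)ᶜ)) = ⊤ := by
  refine biff_num (gext_mem' _) (gext_inf gext_vPos (gext_compl (gext_mem' X)))
    (real_le_vPos _ _) (fun z => inf_le_left) ?_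
  intro n hn
  rw [hmem_num_real S _ _ n hn, vPos_num hn, top_inf_eq, h n hn]

lemma inf_real (s t : ℕ → 𝔹) (hs : SymR S s) (ht : SymR S t) :
    (⨅ z, biff (hmem z (hreal S _ (symR_inf hs ht))) (hmem z (hreal S s hs) ⊓ hmem z (hreal S t ht)))
      = ⊤ := by
  refine biff_num (gext_mem' _) (gext_inf (gext_mem' _) (gext_mem' _))
    (real_le_vPos _ _) (fun z => inf_le_left.trans (real_le_vPos _ _ z)) ?_
  intro n hn
  rw [hmem_num_real S _ _ n hn, hmem_num_real S _ _ n hn, hmem_num_real S _ _ n hn]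

/-- two names with the same elements as a set given by a predicate -/
lemma eq_of_biff (Y R : HName S) (P : HName S → 𝔹) (hR : (⨅ t, biff (hmem t R) (P t)) = ⊤) :
    (⨅ t, biff (hmem t Y) (P t)) ≤ heq Y R := by
  rw [heq_eq_iInf]
  refine le_iInf fun z => ?_
  have h1 : biff (hmem z R) (P z) = ⊤ := iInf_eq_top.1 hR z
  have h2 : hmem z R = P z := by
    unfold biff at h1
    rw [inf_eq_top_iff, himp_eq_top_iff, himp_eq_top_iff] at h1
    exact le_antisymm h1.1 h1.2
  rw [h2]
  exact iInf_le _ z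

end HUlt

open HUlt

theorem vIdemUltra_fam {u f : (ℕ → 𝔹) → 𝔹} (C : Core S u f) (U : HName S)
    (hU : ∀ s hs, hmem (hreal S s hs) U = u s)
    (hU' : ∀ x, hmem x U = vSubN (hstr S) (homega S) x ⊓ u (fun n => hmem (hnum S n) x)) :
    vIdemUltra (hstr S) (homega S) (hadd S) U = ⊤ := by
  have h5 : ∀ s, SymR S s → u (fun n => u (fun m => s (m + n))) = u s := by
    intro s hs
    apply le_antisymm _ (C.u_idem s)
    have h1 := C.u_ultra s hs
    have hle : u (fun n => u (fun m => s (m + n))) ⊓ u (fun n => (s n)ᶜ) = ⊥ := by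
      rw [eq_bot_iff]
      calc u (fun n => u (fun m => s (m + n))) ⊓ u (fun n => (s n)ᶜ)
          ≤ u (fun n => u (fun m => s (m + n))) ⊓ u (fun n => u (fun m => (s (m + n))ᶜ)) :=
            inf_le_inf_left _ (C.u_idem _)
        _ ≤ u (fun n => u (fun m => s (m + n)) ⊓ u (fun m => (s (m + n))ᶜ)) := C.u_inf _ _
        _ ≤ ⨆ n, ⨆ _ : 0 < n, u (fun m => s (m + n)) ⊓ u (fun m => (s (m + n))ᶜ) := C.u_proper _
        _ ≤ ⊥ := by
            refine iSup_le fun n => iSup_le fun _ => ?_
            refine (C.u_inf _ _).trans ((C.u_proper _).trans ?_)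
            refine iSup_le fun m => iSup_le fun _ => ?_
            rw [inf_compl_eq_bot]
    calc u (fun n => u (fun m => s (m + n)))
        = u (fun n => u (fun m => s (m + n))) ⊓ (u s ⊔ u (fun n => (s n)ᶜ)) := by
          rw [h1, inf_top_eq]
      _ = (u (fun n => u (fun m => s (m + n))) ⊓ u s) ⊔ ⊥ := by rw [inf_sup_left, hle]
      _ ≤ u s := by rw [sup_bot_eq]; exact inf_le_right
  unfold vIdemUltra vIdemFilter
  rw [vFilterN_fam S u C.u_mono C.u_inf C.u_proper C.u_top U hU hU',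
    vIdem_fam S u C.u_inv C.u_mono h5 U hU hU', inf_top_eq, top_inf_eq, iInf_eq_top]
  intro X
  rw [himp_eq_top_iff]
  have hs := symR_of_name S X
  have h1 := C.u_ultra _ hs
  calc vSubN (hstr S) (homega S) X
      = vSubN (hstr S) (homega S) X ⊓
        (u (fun n => hmem (hnum S n) X) ⊔ u (fun n => (hmem (hnum S n) X)ᶜ)) := by
        rw [h1, inf_top_eq]
    _ ≤ _ := by
        rw [inf_sup_left]
        refine sup_le_sup (le_of_eq (hU' X).symm) (inf_le_right.trans ?_)
        refine le_trans ?_ (le_iSup _ (hreal S _ (symR_compl hs)))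
        refine le_inf (le_of_eq (hU _ (symR_compl hs)).symm) ?_
        have := compl_real X _ hs (fun n _ => rfl)
        show _ ≤ (⨅ t, biff (hmem t (hreal S _ (symR_compl hs)))
          (vPos (hstr S) (homega S) t ⊓ (hmem t X)ᶜ))
        rw [this]
        exact le_top

theorem vIdemFilter_fam {u f : (ℕ → 𝔹) → 𝔹} (C : Core S u f) (F : HName S)
    (hF : ∀ s hs, hmem (hreal S s hs) F = f s)
    (hF' : ∀ x, hmem x F = vSubN (hstr S) (homega S) x ⊓ f (fun n => hmem (hnum S n) x)) :
    vIdemFilter (hstr S) (homega S) (hadd S) F = ⊤ := by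
  have hconst : ∀ b : 𝔹, f (fun _ => b) = b := by
    intro b
    apply le_antisymm
    · exact (C.f_proper _).trans (iSup_le fun _ => iSup_le fun _ => le_rfl)
    · refine le_trans ?_ (C.f_mono (fun _ => ⊤) (fun _ => b))
      rw [C.f_top, inf_top_eq]
      exact le_iInf fun _ => le_iInf fun _ => by rw [top_himp]
  have h5 : ∀ s, SymR S s → f (fun n => f (fun m => s (m + n))) = f s := by
    intro s _
    simp only [C.f_shift]
    exact hconst _
  unfold vIdemFilter
  rw [vFilterN_fam S f C.f_mono C.f_inf C.f_proper C.f_top F hF hF',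
    vIdem_fam S f C.f_inv C.f_mono h5 F hF hF', inf_top_eq]

theorem kill_fam {u f : (ℕ → 𝔹) → 𝔹} (C : Core S u f) (F : HName S)
    (hF : ∀ s hs, hmem (hreal S s hs) F = f s) :
    (⨆ U, vIdemUltra (hstr S) (homega S) (hadd S) U ⊓ ⨅ X, hmem X F ⇨ hmem X U) = ⊥ := by
  rw [iSup_eq_bot]
  intro U
  obtain ⟨A, hA, hsupp⟩ := exists_supp U
  set W : (ℕ → 𝔹) → 𝔹 := fun s => ⨆ h : SymR S s, hmem (hreal S s h) U with hW
  have hWs : ∀ s (h : SymR S s), W s = hmem (hreal S s h) U := by
    intro s h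
    rw [hW]
    exact le_antisymm (iSup_le fun _ => le_rfl) (le_iSup (fun h => hmem (hreal S s h) U) h)
  -- the filter clauses
  have hb1 : vIdemUltra (hstr S) (homega S) (hadd S) U ≤ vFilterN (hstr S) (homega S) U :=
    inf_le_left.trans inf_le_left
  have hb2 := (inf_le_right : vIdemUltra (hstr S) (homega S) (hadd S) U ≤ _)
  have hf3 : vFilterN (hstr S) (homega S) U ≤ ⨅ X, hmem X U ⇨ ⨆ t, hmem t X :=
    inf_le_right.trans (inf_le_right.trans inf_le_left)
  have hf4 : vFilterN (hstr S) (homega S) U ≤ ⨅ X, hmem X U ⇨ ⨅ Y,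
      vSubN (hstr S) (homega S) Y ⇨ (⨅ t, hmem t X ⇨ hmem t Y) ⇨ hmem Y U :=
    inf_le_right.trans (inf_le_right.trans (inf_le_right.trans inf_le_left))
  have hf5 : vFilterN (hstr S) (homega S) U ≤ ⨅ X, hmem X U ⇨ ⨅ Y, hmem Y U ⇨
      ⨆ Z, hmem Z U ⊓ ⨅ t, biff (hmem t Z) (hmem t X ⊓ hmem t Y) :=
    inf_le_right.trans (inf_le_right.trans (inf_le_right.trans inf_le_right))
  refine C.kill A hA W ?_ _ ?_ ?_ ?_ ?_ ?_
  · intro g hg s hs
    have hs' := symR_act hs g
    rw [hWs s hs, hWs _ hs', ← hmem_act]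
    have e1 := heq_act_real S s hs g hs'
    have e2 := hsupp g hg
    apply le_antisymm
    · refine le_trans ?_ (hmem_congr_left (hact g (hreal S s hs)) (hreal S _ hs') U)
      rw [e1, top_inf_eq]
      refine le_trans ?_ (hmem_congr_right (hact g (hreal S s hs)) (hact g U) U)
      rw [e2, top_inf_eq]
    · refine le_trans ?_ (hmem_congr_left (hreal S _ hs') (hact g (hreal S s hs)) (hact g U))
      rw [heq_symm, e1, top_inf_eq]
      refine le_trans ?_ (hmem_congr_right (hreal S _ hs') U (hact g U))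
      rw [heq_symm, e2, top_inf_eq]
  · intro s hs
    rw [hWs s hs, ← hF s hs]
    exact inf_le_right.trans (iInf_le _ (hreal S s hs))
  · intro s t hs ht
    rw [hWs s hs, hWs t ht, hWs _ (symR_inf hs ht)]
    refine inf_le_left.trans (hb1.trans (hf5.trans ?_))
    refine (iInf_le _ (hreal S s hs)).trans ?_
    rw [le_himp_iff]
    refine le_trans (le_inf (le_trans (inf_le_inf_left _ inf_le_left) himp_inf_le)
      (inf_le_right.trans inf_le_right)) ?_
    refine le_trans (inf_le_inf_right _ (iInf_le _ (hreal S t ht))) ?_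
    refine himp_inf_le.trans (iSup_le fun Z => ?_)
    refine le_trans (inf_le_inf_left _ (eq_of_biff Z (hreal S _ (symR_inf hs ht)) _
      (inf_real s t hs ht))) ?_
    rw [inf_comm]
    exact hmem_congr_left _ _ _
  · intro s t hs ht
    rw [hWs s hs, hWs t ht]
    refine inf_le_left.trans (hb1.trans (hf4.trans ?_))
    refine (iInf_le _ (hreal S s hs)).trans ?_
    rw [le_himp_iff]
    refine le_trans (le_inf (le_trans (inf_le_inf_left _ inf_le_right) himp_inf_le)
      (inf_le_right.trans inf_le_left)) ?_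
    refine le_trans (inf_le_inf_right _ (iInf_le _ (hreal S t ht))) ?_
    rw [vSubN_real, top_himp]
    refine le_trans (inf_le_inf_left _ ?_) himp_inf_le
    refine le_iInf fun z => ?_
    rw [le_himp_iff, hmem_real, hmem_real, inf_iSup_eq]
    refine iSup_mono fun n => ?_
    rw [inf_iSup_eq]
    refine iSup_mono fun hn => ?_
    rw [← inf_assoc]
    refine inf_le_inf_right _ ?_
    refine le_trans (inf_le_inf_right _ ((iInf_le _ n).trans (iInf_le _ hn))) himp_inf_le
  · intro s hs
    rw [hWs s hs]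
    refine inf_le_left.trans (hb1.trans (hf3.trans ?_))
    refine (iInf_le _ (hreal S s hs)).trans (himp_le_himp_left ?_)
    refine iSup_le fun z => ?_
    rw [hmem_real]
    exact iSup_mono fun n => iSup_mono fun _ => inf_le_left
  · intro s hs
    rw [hWs s hs, hWs _ (symR_compl hs)]
    refine inf_le_left.trans (hb2.trans ?_)
    refine (iInf_le _ (hreal S s hs)).trans ?_
    rw [vSubN_real, top_himp]
    refine sup_le_sup le_rfl (iSup_le fun Y => ?_)
    refine le_trans (inf_le_inf_left _ (eq_of_biff Y (hreal S _ (symR_compl hs)) _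
      (compl_real (hreal S s hs) s hs (fun n hn => hmem_num_real S s hs n hn)))) ?_
    rw [inf_comm]
    exact hmem_congr_left _ _ _

end Pool.Agent.SymZF
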