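import Pool.Agent.SymZF.FmlTools

/-!
# The internal notions as formulas
-/

set_option autoImplicit false

namespace Pool.Agent.SymZF

open Pool.Agent.BVM Pool.Agent.StarHur

namespace IntForm

open Transfer

section Formulas

variable {n : ℕ}

def fSucc (t s : Fin n) : Fml n :=
  .all (fiff (.mem 0 s.succ) (fOr (.mem 0 t.succ) (.eq 0 t.succ)))

def fTM (m k l a : Fin n) : Fml n := fex (fand (fPair m.succ k.succ 0) (fPM 0 l.succ a.succ))

def fAdd (w a : Fin n) : Fml n :=
  fand (.all (.imp (.mem 0 w.succ) (.all (.imp (.mem 0 w.succ.succ) (fex (fand (.mem 0 w.succ.succ.succ)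
    (fand (fTM (Fin.succ (Fin.succ 0)) (Fin.succ 0) 0 a.succ.succ.succ)
      (.all (.imp (fTM (Fin.succ (Fin.succ (Fin.succ 0))) (Fin.succ (Fin.succ 0)) 0
        a.succ.succ.succ.succ) (.eq 0 (Fin.succ 0)))))))))))
  (fand (.all (.imp (.mem 0 w.succ) (.all (.imp (.mem 0 w.succ.succ)
      (.imp (.all (fnot (.mem 0 (Fin.succ 0)))) (fTM (Fin.succ 0) 0 (Fin.succ 0) a.succ.succ))))))
    (.all (.imp (.mem 0 w.succ) (.all (.imp (.mem 0 w.succ.succ)
      (.all (.imp (fTM (Fin.succ (Fin.succ 0)) (Fin.succ 0) 0 a.succ.succ.succ)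
        (.all (.imp (fSucc (Fin.succ (Fin.succ 0)) 0)
          (.all (.imp (fSucc (Fin.succ (Fin.succ 0)) 0)
            (fTM (Fin.succ (Fin.succ (Fin.succ (Fin.succ 0)))) (Fin.succ 0) 0
              a.succ.succ.succ.succ.succ))))))))))))

def fPos (w t : Fin n) : Fml n := fand (.mem t w) (fex (.mem 0 t.succ))

def fSubN (w X : Fin n) : Fml n := .all (.imp (.mem 0 X.succ) (fPos w.succ 0))

def fFilterN (w F : Fin n) : Fml n :=
  fand (.all (.imp (.mem 0 F.succ) (fSubN w.succ 0)))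
  (fand (fex (.mem 0 F.succ))
  (fand (.all (.imp (.mem 0 F.succ) (fex (.mem 0 (Fin.succ 0)))))
  (fand (.all (.imp (.mem 0 F.succ) (.all (.imp (fSubN w.succ.succ 0)
      (.imp (.all (.imp (.mem 0 (Fin.succ (Fin.succ 0))) (.mem 0 (Fin.succ 0)))) (.mem 0 F.succ.succ))))))
    (.all (.imp (.mem 0 F.succ) (.all (.imp (.mem 0 F.succ.succ) (fex (fand (.mem 0 F.succ.succ.succ)
      (.all (fiff (.mem 0 (Fin.succ 0)) (fand (.mem 0 (Fin.succ (Fin.succ (Fin.succ 0))))
        (.mem 0 (Fin.succ (Fin.succ 0)))))))))))))))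

def fShift (w a X k C : Fin n) : Fml n :=
  .all (fiff (.mem 0 C.succ) (fand (fPos w.succ 0)
    (fex (fand (fTM (Fin.succ 0) k.succ.succ 0 a.succ.succ) (.mem 0 X.succ.succ)))))

def fInSum (w a F X : Fin n) : Fml n :=
  fex (fand (.mem 0 F.succ) (.all (fiff (.mem 0 (Fin.succ 0)) (fand (fPos w.succ.succ 0)
    (fex (fand (.mem 0 F.succ.succ.succ) (fShift w.succ.succ.succ a.succ.succ.succ X.succ.succ.succ
      (Fin.succ 0) 0)))))))

def fIdem (w a F : Fin n) : Fml n :=
  .all (.imp (fSubN w.succ 0) (fiff (.mem 0 F.succ) (fInSum w.succ a.succ F.succ 0)))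

def fIdemFilter (w a F : Fin n) : Fml n := fand (fFilterN w F) (fIdem w a F)

def fIdemUltra (w a F : Fin n) : Fml n :=
  fand (fIdemFilter w a F) (.all (.imp (fSubN w.succ 0) (fOr (.mem 0 F.succ)
    (fex (fand (.mem 0 F.succ.succ) (.all (fiff (.mem 0 (Fin.succ 0))
      (fand (fPos w.succ.succ.succ 0) (fnot (.mem 0 (Fin.succ (Fin.succ 0))))))))))))

/-- the whole statement -/
def fSep : Fml 0 :=
  fex (fex (fand (fOmega (Fin.succ 0)) (fand (fAdd (Fin.succ 0) 0)
    (fand (fex (fIdemUltra (Fin.succ (Fin.succ 0)) (Fin.succ 0) 0))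
      (fex (fand (fIdemFilter (Fin.succ (Fin.succ 0)) (Fin.succ 0) 0)
        (fnot (fex (fand (fIdemUltra (Fin.succ (Fin.succ (Fin.succ 0))) (Fin.succ (Fin.succ 0)) 0)
          (.all (.imp (.mem 0 (Fin.succ (Fin.succ 0))) (.mem 0 (Fin.succ 0))))))))))))) 

end Formulas

section SatNotions

variable {M : Type*} (E : M → M → Prop) {n : ℕ} (v : Fin n → M)

lemma sat_Succ (t s : Fin n) : Sat E (fSucc t s) v ↔ IsSucc E (v t) (v s) := by
  simp only [fSucc, IsSucc, sat_all, sat_iff, sat_mem, sat_or, sat_eq, Fin.cons_zero, Fin.cons_succ]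

lemma sat_TM (m k l a : Fin n) : Sat E (fTM m k l a) v ↔ TM E (v m) (v k) (v l) (v a) := by
  simp only [fTM, TM, sat_ex, sat_and, sat_Pair, sat_PM, Fin.cons_zero, Fin.cons_succ]

lemma sat_Add (w a : Fin n) : Sat E (fAdd w a) v ↔ IsAdd E (v w) (v a) := by
  simp only [fAdd, IsAdd, sat_all, sat_ex, sat_and, sat_imp, sat_not, sat_mem, sat_eq, sat_TM,
    sat_Succ, Fin.cons_zero, Fin.cons_succ]

lemma sat_Pos (w t : Fin n) : Sat E (fPos w t) v ↔ IsPos E (v w) (v t) := by
  simp only [fPos, IsPos, sat_ex, sat_and, sat_mem, Fin.cons_zero, Fin.cons_succ]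

lemma sat_SubN (w X : Fin n) : Sat E (fSubN w X) v ↔ IsSubN E (v w) (v X) := by
  simp only [fSubN, IsSubN, sat_all, sat_imp, sat_mem, sat_Pos, Fin.cons_zero, Fin.cons_succ]

lemma sat_FilterN (w F : Fin n) : Sat E (fFilterN w F) v ↔ IsFilterN E (v w) (v F) := by
  simp only [fFilterN, IsFilterN, sat_all, sat_ex, sat_and, sat_imp, sat_iff, sat_mem, sat_SubN,
    Fin.cons_zero, Fin.cons_succ]

lemma sat_Shift (w a X k C : Fin n) :
    Sat E (fShift w a X k C) v ↔ IsShift E (v w) (v a) (v X) (v k) (v C) := by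
  simp only [fShift, IsShift, sat_all, sat_ex, sat_and, sat_iff, sat_mem, sat_Pos, sat_TM,
    Fin.cons_zero, Fin.cons_succ]

lemma sat_InSum (w a F X : Fin n) :
    Sat E (fInSum w a F X) v ↔ InSum E (v w) (v a) (v F) (v X) := by
  simp only [fInSum, InSum, sat_all, sat_ex, sat_and, sat_iff, sat_mem, sat_Pos, sat_Shift,
    Fin.cons_zero, Fin.cons_succ]

lemma sat_Idem (w a F : Fin n) : Sat E (fIdem w a F) v ↔ IsIdem E (v w) (v a) (v F) := by
  simp only [fIdem, IsIdem, sat_all, sat_imp, sat_iff, sat_mem, sat_SubN, sat_InSum,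
    Fin.cons_zero, Fin.cons_succ]

lemma sat_IdemFilter (w a F : Fin n) :
    Sat E (fIdemFilter w a F) v ↔ IsIdemFilter E (v w) (v a) (v F) := by
  simp only [fIdemFilter, IsIdemFilter, sat_and, sat_FilterN, sat_Idem]

lemma sat_IdemUltra (w a F : Fin n) :
    Sat E (fIdemUltra w a F) v ↔ IsIdemUltra E (v w) (v a) (v F) := by
  simp only [fIdemUltra, IsIdemUltra, sat_and, sat_all, sat_imp, sat_or, sat_ex, sat_iff, sat_not,
    sat_mem, sat_IdemFilter, sat_SubN, sat_Pos, Fin.cons_zero, Fin.cons_succ]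

lemma sat_Sep (v : Fin 0 → M) : Sat E fSep v ↔ Separates E := by
  simp only [fSep, Separates, sat_and, sat_all, sat_imp, sat_ex, sat_not, sat_mem, sat_Omega,
    sat_Add, sat_IdemFilter, sat_IdemUltra, Fin.cons_zero, Fin.cons_succ]

end SatNotions

section ValNotions

variable {𝔹 : Type} [CompleteBooleanAlgebra 𝔹] {H : Type 1} (B : BStr 𝔹 H) {n : ℕ} (v : Fin n → H)

lemma gval_mem (i j : Fin n) : gval B (.mem i j) v = B.mem (v i) (v j) := rfl
lemma gval_eq (i j : Fin n) : gval B (.eq i j) v = B.eq (v i) (v j) := rfl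
lemma gval_imp (φ ψ : Fml n) : gval B (.imp φ ψ) v = gval B φ v ⇨ gval B ψ v := rfl
lemma gval_all (φ : Fml (n + 1)) : gval B (.all φ) v =
    ⨅ x : H, gval B φ (Fin.cons x v : Fin (n + 1) → H) := rfl

lemma gval_UPair (a b z : Fin n) : gval B (fUPair a b z) v = vUPair B (v a) (v b) (v z) := by
  simp only [fUPair, vUPair, gval_all, gval_iff, gval_mem, gval_or, gval_eq, Fin.cons_zero,
    Fin.cons_succ]

lemma gval_Pair (a b p : Fin n) : gval B (fPair a b p) v = vPair B (v a) (v b) (v p) := by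
  simp only [fPair, vPair, gval_all, gval_iff, gval_mem, gval_or, gval_UPair, Fin.cons_zero,
    Fin.cons_succ]

lemma gval_PM (a b R : Fin n) : gval B (fPM a b R) v = vPM B (v a) (v b) (v R) := by
  simp only [fPM, vPM, gval_ex, gval_and, gval_mem, gval_Pair, Fin.cons_zero, Fin.cons_succ]

lemma gval_Inductive (x : Fin n) : gval B (fInductive x) v = vInductive B (v x) := by
  simp only [fInductive, vInductive, gval_ex, gval_and, gval_or, gval_iff, gval_all, gval_imp,
    gval_not, gval_eq, gval_mem, Fin.cons_zero, Fin.cons_succ]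

lemma gval_Omega (w : Fin n) : gval B (fOmega w) v = vOmega B (v w) := by
  simp only [fOmega, vOmega, gval_and, gval_all, gval_imp, gval_Inductive, gval_mem, Fin.cons_zero,
    Fin.cons_succ]

lemma gval_Succ (t s : Fin n) : gval B (fSucc t s) v = vSucc B (v t) (v s) := by
  simp only [fSucc, vSucc, gval_all, gval_iff, gval_mem, gval_or, gval_eq, Fin.cons_zero,
    Fin.cons_succ]

lemma gval_TM (m k l a : Fin n) : gval B (fTM m k l a) v = vTM B (v m) (v k) (v l) (v a) := by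
  simp only [fTM, vTM, gval_ex, gval_and, gval_Pair, gval_PM, Fin.cons_zero, Fin.cons_succ]

lemma gval_Add (w a : Fin n) : gval B (fAdd w a) v = vAdd B (v w) (v a) := by
  simp only [fAdd, vAdd, gval_all, gval_ex, gval_and, gval_imp, gval_not, gval_mem, gval_eq, gval_TM,
    gval_Succ, Fin.cons_zero, Fin.cons_succ]

lemma gval_Pos (w t : Fin n) : gval B (fPos w t) v = vPos B (v w) (v t) := by
  simp only [fPos, vPos, gval_ex, gval_and, gval_mem, Fin.cons_zero, Fin.cons_succ]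

lemma gval_SubN (w X : Fin n) : gval B (fSubN w X) v = vSubN B (v w) (v X) := by
  simp only [fSubN, vSubN, gval_all, gval_imp, gval_mem, gval_Pos, Fin.cons_zero, Fin.cons_succ]

lemma gval_FilterN (w F : Fin n) : gval B (fFilterN w F) v = vFilterN B (v w) (v F) := by
  simp only [fFilterN, vFilterN, gval_all, gval_ex, gval_and, gval_imp, gval_iff, gval_mem,
    gval_SubN, Fin.cons_zero, Fin.cons_succ]

lemma gval_Shift (w a X k C : Fin n) :
    gval B (fShift w a X k C) v = vShift B (v w) (v a) (v X) (v k) (v C) := by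
  simp only [fShift, vShift, gval_all, gval_ex, gval_and, gval_iff, gval_mem, gval_Pos, gval_TM,
    Fin.cons_zero, Fin.cons_succ]

lemma gval_InSum (w a F X : Fin n) :
    gval B (fInSum w a F X) v = vInSum B (v w) (v a) (v F) (v X) := by
  simp only [fInSum, vInSum, gval_all, gval_ex, gval_and, gval_iff, gval_mem, gval_Pos, gval_Shift,
    Fin.cons_zero, Fin.cons_succ]

lemma gval_Idem (w a F : Fin n) : gval B (fIdem w a F) v = vIdem B (v w) (v a) (v F) := by
  simp only [fIdem, vIdem, gval_all, gval_imp, gval_iff, gval_mem, gval_SubN, gval_InSum,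
    Fin.cons_zero, Fin.cons_succ]

lemma gval_IdemFilter (w a F : Fin n) :
    gval B (fIdemFilter w a F) v = vIdemFilter B (v w) (v a) (v F) := by
  simp only [fIdemFilter, vIdemFilter, gval_and, gval_FilterN, gval_Idem]

lemma gval_IdemUltra (w a F : Fin n) :
    gval B (fIdemUltra w a F) v = vIdemUltra B (v w) (v a) (v F) := by
  simp only [fIdemUltra, vIdemUltra, gval_and, gval_all, gval_imp, gval_or, gval_ex, gval_iff,
    gval_not, gval_mem, gval_IdemFilter, gval_SubN, gval_Pos, Fin.cons_zero, Fin.cons_succ]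

lemma gval_Sep (v : Fin 0 → H) : gval B fSep v = ⨆ w, ⨆ a, vOmega B w ⊓ (vAdd B w a ⊓
    ((⨆ u, vIdemUltra B w a u) ⊓ ⨆ F, vIdemFilter B w a F ⊓
      (⨆ u, vIdemUltra B w a u ⊓ ⨅ X, B.mem X F ⇨ B.mem X u)ᶜ)) := by
  simp only [fSep, gval_and, gval_all, gval_imp, gval_ex, gval_not, gval_mem, gval_Omega,
    gval_Add, gval_IdemFilter, gval_IdemUltra, Fin.cons_zero, Fin.cons_succ]

end ValNotions

end IntForm

theorem separates {𝔹 : Type} [CompleteBooleanAlgebra 𝔹] {H : Type 1} (B : BStr 𝔹 H)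
    {M : Type} (E : M → M → Prop) (nm : M → H)
    (hT : ∀ (n : ℕ) (φ : Fml n) (v : Fin n → M), gval B φ (fun i => nm (v i)) = ⊤ → Sat E φ v)
    (w a u F : H) (h1 : vOmega B w = ⊤) (h2 : vAdd B w a = ⊤) (h3 : vIdemUltra B w a u = ⊤)
    (h4 : vIdemFilter B w a F = ⊤) (h5 : (⨆ U, vIdemUltra B w a U ⊓ ⨅ X, B.mem X F ⇨ B.mem X U) = ⊥) :
    Separates E := by
  rw [← IntForm.sat_Sep E Fin.elim0]
  refine hT 0 _ _ ?_
  rw [IntForm.gval_Sep, eq_top_iff]
  refine le_trans ?_ (le_iSup _ w)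
  refine le_trans ?_ (le_iSup _ a)
  rw [h1, h2, top_inf_eq, top_inf_eq]
  refine le_inf ?_ ?_
  · rw [← h3]
    exact le_iSup (fun u => vIdemUltra B w a u) u
  · refine le_trans ?_ (le_iSup _ F)
    rw [h4, h5, compl_bot, top_inf_eq]

end Pool.Agent.SymZF
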