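import Pool.Agent.SymZF.HMk

/-!
# Set existence axioms for hereditarily symmetric names
-/

set_option autoImplicit false

namespace Pool.Agent.SymZF

open Pool.Agent.BVM Pool.Agent.StarHur

variable {𝔹 : Type} [CompleteBooleanAlgebra 𝔹] {G : Type} [AddCommGroup G] {S : Sys G 𝔹}

namespace HAx

open HMk

theorem gext_sup {f g : HName S → 𝔹} (hf : GExt (hstr S) f) (hg : GExt (hstr S) g) :
    GExt (hstr S) fun x => f x ⊔ g x := by
  intro x y
  show heq x y ⊓ (f x ⊔ g x) ≤ f y ⊔ g y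
  rw [inf_sup_left]
  exact sup_le_sup (hf x y) (hg x y)

theorem gext_inf {f g : HName S → 𝔹} (hf : GExt (hstr S) f) (hg : GExt (hstr S) g) :
    GExt (hstr S) fun x => f x ⊓ g x := by
  intro x y
  show heq x y ⊓ (f x ⊓ g x) ≤ f y ⊓ g y
  refine le_inf (le_trans ?_ (hf x y)) (le_trans ?_ (hg x y))
  · exact inf_le_inf_left _ inf_le_left
  · exact inf_le_inf_left _ inf_le_right

theorem gext_const (b : 𝔹) : GExt (hstr S) fun _ => b := fun _ _ => inf_le_right

theorem gext_himp {f g : HName S → 𝔹} (hf : GExt (hstr S) f) (hg : GExt (hstr S) g) :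
    GExt (hstr S) fun x => f x ⇨ g x := by
  intro x y
  show heq x y ⊓ (f x ⇨ g x) ≤ f y ⇨ g y
  rw [le_himp_iff]
  refine le_trans ?_ (hg x y)
  refine le_inf (inf_le_left.trans inf_le_left) ?_
  calc heq x y ⊓ (f x ⇨ g x) ⊓ f y ≤ (f x ⇨ g x) ⊓ f x := by
        refine le_inf (inf_le_left.trans inf_le_right) ?_
        refine le_trans ?_ (hf y x)
        show _ ≤ heq y x ⊓ f y
        rw [heq_symm y x]
        exact inf_le_inf_right _ inf_le_left
    _ ≤ g x := himp_inf_le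

theorem gext_iSup {ι : Sort*} {f : ι → HName S → 𝔹} (hf : ∀ i, GExt (hstr S) (f i)) :
    GExt (hstr S) fun x => ⨆ i, f i x := by
  intro x y
  show heq x y ⊓ (⨆ i, f i x) ≤ ⨆ i, f i y
  rw [inf_iSup_eq]
  exact iSup_mono fun i => hf i x y

theorem gext_iInf {ι : Sort*} {f : ι → HName S → 𝔹} (hf : ∀ i, GExt (hstr S) (f i)) :
    GExt (hstr S) fun x => ⨅ i, f i x := by
  intro x y
  refine le_iInf fun i => le_trans ?_ (hf i x y)
  exact inf_le_inf_left _ (iInf_le _ i)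

/-- a common support -/
theorem exists_supp₂ (x y : HName S) : ∃ A ∈ S.F, ∀ g ∈ A, heq (hact g x) x = ⊤ ∧ heq (hact g y) y = ⊤ := by
  obtain ⟨A, hA, hx⟩ := exists_supp x
  obtain ⟨B, hB, hy⟩ := exists_supp y
  obtain ⟨C, hC, hCA, hCB⟩ := S.dir A hA B hB
  exact ⟨C, hC, fun g hg => ⟨hx g (hCA hg), hy g (hCB hg)⟩⟩

end HAx

open HMk HAx

theorem h_pair (x y : HName S) : ∃ z : HName S, ∀ w, hmem w z = heq w x ⊔ heq w y := by
  obtain ⟨A, hA, h⟩ := exists_supp₂ x y
  refine exists_of_cover (ι := Bool) (fun b => cond b x y) (fun w => heq w x ⊔ heq w y)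
    (gext_sup (gext_eq_left x) (gext_eq_left y)) A hA ?_ ?_
  · intro g hg z
    show S.ρ g (heq z x ⊔ heq z y) = heq (hact g z) x ⊔ heq (hact g z) y
    rw [map_sup, act_heq (h g hg).1, act_heq (h g hg).2]
  · intro z
    rw [iSup_bool_eq]
    exact le_rfl

theorem h_union (x : HName S) : ∃ y : HName S, ∀ z, hmem z y = ⨆ w, hmem w x ⊓ hmem z w := by
  obtain ⟨A, hA, h⟩ := exists_supp x
  obtain ⟨I, X, b, hX⟩ := exists_small x
  have hJ : ∀ i, ∃ (J : Type) (Y : J → HName S) (c : J → 𝔹), ∀ z, hmem z (X i) = ⨆ j, c j ⊓ heq z (Y j) :=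
    fun i => exists_small (X i)
  choose J Y c hY using hJ
  refine exists_of_cover (ι := Σ i, J i) (fun p => Y p.1 p.2) (fun z => ⨆ w, hmem w x ⊓ hmem z w)
    (gext_iSup fun w => gext_inf (gext_const _) (gext_mem_left w)) A hA ?_ ?_
  · intro g hg z
    show S.ρ g (⨆ w, hmem w x ⊓ hmem z w) = ⨆ w, hmem w x ⊓ hmem (hact g z) w
    rw [OrderIso.map_iSup, ← iSup_act (f := fun w => hmem w x ⊓ hmem (hact g z) w)
      (gext_inf (gext_mem_left x) (gext_mem_right (hact g z))) g]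
    refine iSup_congr fun w => ?_
    rw [map_inf, act_hmem (h g hg), hmem_act]
  · intro z
    refine iSup_le fun w => ?_
    rw [hX w, iSup_inf_eq]
    refine iSup_le fun i => ?_
    have h1 : b i ⊓ heq w (X i) ⊓ hmem z w ≤ hmem z (X i) := by
      refine le_trans ?_ (hmem_congr_right z w (X i))
      exact inf_le_inf_right _ inf_le_right
    refine h1.trans ?_
    rw [hY i z]
    refine iSup_le fun j => inf_le_right.trans ?_
    exact le_iSup (fun p : Σ i, J i => heq z (Y p.1 p.2)) ⟨i, j⟩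

theorem h_sep (x : HName S) (f : HName S → 𝔹) (hf : GExt (hstr S) f) (A : AddSubgroup G) (hA : A ∈ S.F)
    (hi : ∀ g ∈ A, ∀ z, S.ρ g (f z) = f (hact g z)) : ∃ y : HName S, ∀ z, hmem z y = hmem z x ⊓ f z := by
  obtain ⟨B, hB, hx⟩ := exists_supp x
  obtain ⟨C, hC, hCA, hCB⟩ := S.dir A hA B hB
  obtain ⟨I, X, b, hX⟩ := exists_small x
  refine exists_of_cover X (fun z => hmem z x ⊓ f z) (gext_inf (gext_mem_left x) hf) C hC ?_ ?_
  · intro g hg z
    show S.ρ g (hmem z x ⊓ f z) = hmem (hact g z) x ⊓ f (hact g z)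
    rw [map_inf, act_hmem (hx g (hCB hg)), hi g (hCA hg)]
  · intro z
    rw [hX z]
    exact inf_le_left.trans (iSup_mono fun i => inf_le_right)

theorem h_power (x : HName S) : ∃ y : HName S, ∀ z, hmem z y = ⨅ w, hmem w z ⇨ hmem w x := by
  obtain ⟨A, hA, h⟩ := exists_supp x
  obtain ⟨I, X, b, hX⟩ := exists_small x
  refine exists_of_cover (ι := {c : I → 𝔹 // Sym S ⟨I, fun i => (X i).1, c⟩})
    (fun c => ⟨⟨I, fun i => (X i).1, c.1⟩, HS.mk I _ c.1 c.2 fun i => (X i).2⟩)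
    (fun z => ⨅ w, hmem w z ⇨ hmem w x)
    (gext_iInf fun w => gext_himp (gext_mem_right w) (gext_const _)) A hA ?_ ?_
  · intro g hg z
    show S.ρ g (⨅ w, hmem w z ⇨ hmem w x) = ⨅ w, hmem w (hact g z) ⇨ hmem w x
    rw [OrderIso.map_iInf, ← iInf_act (f := fun w => hmem w (hact g z) ⇨ hmem w x)
      (gext_himp (gext_mem_left _) (gext_mem_left x)) g]
    refine iInf_congr fun w => ?_
    rw [map_himp, act_hmem (h g hg), hmem_act]
  · intro z
    set c : I → 𝔹 := fun i => hmem (X i) z ⊓ hmem (X i) x with hc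
    have h1 : ∀ w, (⨆ i, c i ⊓ heq w (X i)) = hmem w z ⊓ hmem w x := by
      intro w
      apply le_antisymm
      · refine iSup_le fun i => ?_
        have h2 : heq (X i) w ⊓ (hmem (X i) z ⊓ hmem (X i) x) ≤ hmem w z ⊓ hmem w x :=
          gext_inf (gext_mem_left z) (gext_mem_left x) (X i) w
        rw [heq_symm w, inf_comm]
        exact h2
      · have h2 : hmem w z ⊓ hmem w x ≤ ⨆ i, (hmem w z ⊓ hmem w x) ⊓ heq w (X i) := by
          rw [← inf_iSup_eq]
          refine le_inf le_rfl (inf_le_right.trans ?_)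
          rw [hX w]
          exact iSup_mono fun i => inf_le_right
        refine h2.trans (iSup_mono fun i => le_inf ?_ inf_le_right)
        rw [inf_comm]
        exact gext_inf (gext_mem_left z) (gext_mem_left x) w (X i)
    obtain ⟨B, hB, hz⟩ := exists_supp₂ x z
    have h3 : Sym S ⟨I, fun i => (X i).1, c⟩ := by
      refine sym_mk X c B hB fun g hg w => ?_
      rw [h1, h1, map_inf, act_hmem (hz g hg).1, act_hmem (hz g hg).2]
    refine le_trans ?_ (le_iSup (fun c : {c : I → 𝔹 // Sym S ⟨I, fun i => (X i).1, c⟩} =>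
      heq z ⟨⟨I, fun i => (X i).1, c.1⟩, HS.mk I _ c.1 c.2 fun i => (X i).2⟩) ⟨c, h3⟩)
    rw [heq_eq_iInf]
    refine iInf_mono fun w => ?_
    have h4 : hmem w (⟨⟨I, fun i => (X i).1, c⟩, HS.mk I _ c h3 fun i => (X i).2⟩ : HName S) =
        hmem w z ⊓ hmem w x := h1 w
    rw [h4]
    refine le_inf ?_ ?_
    · rw [le_himp_iff]
      exact le_inf inf_le_right himp_inf_le
    · rw [le_himp_iff]
      exact inf_le_right.trans inf_le_left

/-- collection -/
theorem h_coll (x : HName S) (F : HName S → HName S → 𝔹) (h1 : ∀ w, GExt (hstr S) fun z => F z w)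
    (h2 : ∀ z, GExt (hstr S) fun w => F z w) :
    ∃ y : HName S, ∀ z, hmem z x ⊓ (⨆ w, F z w) ≤ ⨆ w, hmem w y ⊓ F z w := by
  obtain ⟨I, X, b, hX⟩ := exists_small x
  obtain ⟨A, hA⟩ := S.nonempty
  have hw : ∀ p : (Σ i : I, {v : 𝔹 // ∃ w, F (X i) w = v}), ∃ w, F (X p.1) w = p.2.1 := fun p => p.2.2
  choose W hW using hw
  obtain ⟨y, hy⟩ := exists_of_cover (ι := (Σ i : I, {v : 𝔹 // ∃ w, F (X i) w = v}) × G)
    (fun p => hact p.2 (W p.1))
    (fun z => ⨆ p : (Σ i : I, {v : 𝔹 // ∃ w, F (X i) w = v}) × G, heq z (hact p.2 (W p.1)))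
    (gext_iSup fun p => gext_eq_left _) A hA (by
      intro h hh z
      show S.ρ h (⨆ p : (Σ i : I, {v : 𝔹 // ∃ w, F (X i) w = v}) × G, heq z (hact p.2 (W p.1))) =
        ⨆ p : (Σ i : I, {v : 𝔹 // ∃ w, F (X i) w = v}) × G, heq (hact h z) (hact p.2 (W p.1))
      rw [OrderIso.map_iSup]
      apply le_antisymm
      · refine iSup_le fun p => ?_
        refine le_trans (le_of_eq ?_) (le_iSup (fun p : (Σ i : I, {v : 𝔹 // ∃ w, F (X i) w = v}) × G =>
          heq (hact h z) (hact p.2 (W p.1))) (p.1, h + p.2))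
        show S.ρ h (heq z (hact p.2 (W p.1))) = heq (hact h z) (hact (h + p.2) (W p.1))
        rw [← heq_act, heq_symm _ (hact (h + p.2) (W p.1)), heq_act_add, heq_symm]
      · refine iSup_le fun p => ?_
        refine le_trans (le_of_eq ?_) (le_iSup (fun p : (Σ i : I, {v : 𝔹 // ∃ w, F (X i) w = v}) × G =>
          S.ρ h (heq z (hact p.2 (W p.1)))) (p.1, -h + p.2))
        show heq (hact h z) (hact p.2 (W p.1)) = S.ρ h (heq z (hact (-h + p.2) (W p.1)))
        rw [← heq_act, heq_symm _ (hact h (hact (-h + p.2) (W p.1))), ← heq_act_add,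
          add_neg_cancel_left, heq_symm]) fun z => le_rfl
  refine ⟨y, fun z => ?_⟩
  rw [hX z, iSup_inf_eq]
  refine iSup_le fun i => ?_
  rw [inf_iSup_eq]
  refine iSup_le fun w => ?_
  set p : (Σ i : I, {v : 𝔹 // ∃ w, F (X i) w = v}) := ⟨i, ⟨F (X i) w, w, rfl⟩⟩ with hp
  have h3 : F (X i) (W p) = F (X i) w := hW p
  have h4 : hmem (W p) y = ⊤ := by
    rw [hy, eq_top_iff]
    refine le_trans (le_of_eq ?_) (le_iSup (fun q : (Σ i : I, {v : 𝔹 // ∃ w, F (X i) w = v}) × G =>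
      heq (W p) (hact q.2 (W q.1))) (p, 0))
    show ⊤ = heq (W p) (hact 0 (W p))
    rw [heq_symm, heq_act_zero, heq_refl]
  refine le_trans ?_ (le_iSup (fun w => hmem w y ⊓ F z w) (W p))
  show _ ≤ hmem (W p) y ⊓ F z (W p)
  rw [h4, top_inf_eq]
  have h5 : b i ⊓ heq z (X i) ⊓ F z w ≤ heq (X i) z ⊓ F (X i) (W p) := by
    rw [h3, heq_symm (X i) z]
    refine le_inf (inf_le_left.trans inf_le_right) ?_
    refine le_trans ?_ (h1 w z (X i))
    exact inf_le_inf_right _ inf_le_right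
  exact h5.trans (h1 (W p) (X i) z)

end Pool.Agent.SymZF
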