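import Pool.Agent.SymZF.HAx
import Pool.Agent.BVM.AxInf

/-!
# Natural numbers, ordered pairs and addition in the symmetric model
-/

set_option autoImplicit false

namespace Pool.Agent.SymZF

open Pool.Agent.BVM Pool.Agent.StarHur

variable {𝔹 : Type} [CompleteBooleanAlgebra 𝔹] {G : Type} [AddCommGroup G]

namespace HNat

variable {S : Sys G 𝔹}

theorem biff_self (a : 𝔹) : biff a a = ⊤ := by rw [biff, himp_self, inf_top_eq]

theorem le_biff_iff {a b c : 𝔹} : c ≤ biff a b ↔ c ⊓ a ≤ b ∧ c ⊓ b ≤ a := by
  rw [biff, le_inf_iff, le_himp_iff, le_himp_iff]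

theorem num_eq (n : ℕ) : (num n : BSet 𝔹) = ⟨Fin n, fun i => num i.1, fun _ => ⊤⟩ := by
  rw [num]

theorem act_num (r : 𝔹 ≃o 𝔹) (n : ℕ) : act r (num n : BSet 𝔹) = num n := by
  induction n using Nat.strong_induction_on with
  | _ n ih =>
    rw [num_eq, act_mk]
    congr 1
    · funext i
      exact ih i.1 i.2
    · funext i
      exact OrderIso.map_top r

theorem act_omega (r : 𝔹 ≃o 𝔹) : act r (omegaN : BSet 𝔹) = omegaN := by
  rw [omegaN, act_mk]
  congr 1
  · funext i
    exact act_num r i
  · funext i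
    exact OrderIso.map_top r

theorem sym_of_fixed {x : BSet 𝔹} (h : ∀ g, act (S.ρ g) x = x) : Sym S x := by
  obtain ⟨A, hA⟩ := S.nonempty
  exact ⟨A, hA, fun g _ => by rw [h g]; exact beq_refl x⟩

end HNat

open HNat

variable (S : Sys G 𝔹)

theorem hs_num (n : ℕ) : HS S (num n : BSet 𝔹) := by
  induction n using Nat.strong_induction_on with
  | _ n ih =>
    have h : Sym S (num n : BSet 𝔹) := sym_of_fixed fun g => act_num (S.ρ g) n
    rw [num_eq] at h ⊢
    exact HS.mk _ _ _ h fun i => ih i.1 i.2

/-- the name of a natural number -/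
def hnum (n : ℕ) : HName S := ⟨num n, hs_num S n⟩

theorem hact_num (g : G) (n : ℕ) : hact g (hnum S n) = hnum S n :=
  Subtype.ext (act_num (S.ρ g) n)

theorem hs_omega : HS S (omegaN : BSet 𝔹) := by
  have h : Sym S (omegaN : BSet 𝔹) := sym_of_fixed fun g => act_omega (S.ρ g)
  exact HS.mk _ _ _ h fun i => hs_num S i

/-- the name of the set of natural numbers -/
def homega : HName S := ⟨omegaN, hs_omega S⟩

theorem hact_omega (g : G) : hact g (homega S) = homega S :=
  Subtype.ext (act_omega (S.ρ g))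

theorem hmem_omega (z : HName S) : hmem z (homega S) = ⨆ n : ℕ, heq z (hnum S n) := bmem_omegaN z.1

theorem hmem_num (z : HName S) (n : ℕ) : hmem z (hnum S n) = ⨆ k : ℕ, ⨆ _ : k < n, heq z (hnum S k) :=
  bmem_num z.1 n

theorem heq_num (m n : ℕ) : heq (hnum S m) (hnum S n) = if m = n then ⊤ else ⊥ := beq_num m n

namespace HNat

variable {S}

theorem hmem_num_zero (z : HName S) : hmem z (hnum S 0) = ⊥ := by
  rw [hmem_num, eq_bot_iff]
  exact iSup₂_le fun k hk => absurd hk (Nat.not_lt_zero k)

theorem hmem_num_succ (z : HName S) (n : ℕ) :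
    hmem z (hnum S (n + 1)) = hmem z (hnum S n) ⊔ heq z (hnum S n) := by
  rw [hmem_num S z (n + 1), hmem_num S z n]
  apply le_antisymm
  · refine iSup₂_le fun k hk => ?_
    rcases Nat.lt_succ_iff_lt_or_eq.1 hk with h | h
    · exact le_sup_of_le_left (le_iSup₂_of_le k h le_rfl)
    · subst h
      exact le_sup_right
  · refine sup_le (iSup₂_le fun k hk => le_iSup₂_of_le k (hk.trans (Nat.lt_succ_self n)) le_rfl) ?_
    exact le_iSup₂_of_le n (Nat.lt_succ_self n) le_rfl

theorem hmem_num_omega (n : ℕ) : hmem (hnum S n) (homega S) = ⊤ := by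
  rw [hmem_omega, eq_top_iff]
  exact le_iSup_of_le n (heq_refl _).ge

theorem hmem_zero_num {n : ℕ} (h : 0 < n) : hmem (hnum S 0) (hnum S n) = ⊤ := by
  rw [hmem_num, eq_top_iff]
  exact le_iSup₂_of_le 0 h (heq_refl _).ge

/-- two numbers which are both equal to `x` are equal -/
theorem heq_num_inf (x : HName S) {m n : ℕ} (h : m ≠ n) :
    heq x (hnum S m) ⊓ heq x (hnum S n) = ⊥ := by
  rw [eq_bot_iff]
  have h1 := heq_trans (hnum S m) x (hnum S n)
  rw [heq_num, if_neg h, heq_symm (hnum S m) x] at h1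
  exact h1

/-- the successor name -/
theorem exists_succ (x : HName S) : ∃ y : HName S, ∀ z, hmem z y = hmem z x ⊔ heq z x := by
  obtain ⟨p, hp⟩ := h_pair x x
  obtain ⟨q, hq⟩ := h_pair x p
  obtain ⟨y, hy⟩ := h_union q
  refine ⟨y, fun z => ?_⟩
  rw [hy]
  apply le_antisymm
  · refine iSup_le fun w => ?_
    rw [hq, inf_sup_right]
    refine sup_le_sup (hmem_congr_right z w x) ((hmem_congr_right z w p).trans ?_)
    rw [hp, sup_idem]
  · refine sup_le (le_iSup_of_le x ?_) (le_iSup_of_le p ?_)
    · rw [hq, heq_refl, top_sup_eq, top_inf_eq]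
    · rw [hq, heq_refl, sup_top_eq, top_inf_eq, hp, sup_idem]

theorem vSucc_num (t s : HName S) (n : ℕ) :
    heq t (hnum S n) ⊓ vSucc (hstr S) t s ≤ heq s (hnum S (n + 1)) := by
  rw [heq_eq_iInf s]
  refine le_iInf fun z => ?_
  have h0 : vSucc (hstr S) t s ≤ biff (hmem z s) (hmem z t ⊔ heq z t) := iInf_le _ z
  rw [le_biff_iff, hmem_num_succ]
  have h1 : vSucc (hstr S) t s ⊓ hmem z s ≤ hmem z t ⊔ heq z t := (le_biff_iff.1 h0).1
  have h2 : vSucc (hstr S) t s ⊓ (hmem z t ⊔ heq z t) ≤ hmem z s := (le_biff_iff.1 h0).2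
  have h3 : heq t (hnum S n) ⊓ (hmem z t ⊔ heq z t) ≤ hmem z (hnum S n) ⊔ heq z (hnum S n) := by
    rw [inf_sup_left]
    refine sup_le_sup (hmem_congr_right z t (hnum S n)) ?_
    rw [inf_comm]
    exact heq_trans z t (hnum S n)
  have h4 : heq t (hnum S n) ⊓ (hmem z (hnum S n) ⊔ heq z (hnum S n)) ≤ hmem z t ⊔ heq z t := by
    rw [inf_sup_left, heq_symm t]
    refine sup_le_sup (hmem_congr_right z (hnum S n) t) ?_
    rw [inf_comm]
    exact heq_trans z (hnum S n) t
  constructor
  · refine le_trans (le_inf (inf_le_left.trans inf_le_left) ?_) h3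
    exact (inf_le_inf_right _ inf_le_right).trans h1
  · refine le_trans (le_inf (inf_le_left.trans inf_le_right) ?_) h2
    exact (inf_le_inf_right _ inf_le_left).trans h4

theorem vInductive_omega : vInductive (hstr S) (homega S) = ⊤ := by
  rw [vInductive, eq_top_iff]
  refine le_inf ?_ (le_iInf fun t => ?_)
  · refine le_iSup_of_le (hnum S 0) (le_inf (hmem_num_omega 0).ge (le_iInf fun z => ?_))
    show ⊤ ≤ (hmem z (hnum S 0))ᶜ
    rw [hmem_num_zero, compl_bot]
  · rw [le_himp_iff, top_inf_eq]
    obtain ⟨y, hy⟩ := exists_succ t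
    refine le_iSup_of_le y (le_inf ?_ (le_iInf fun z => ?_))
    · show hmem t (homega S) ≤ hmem y (homega S)
      rw [hmem_omega, hmem_omega]
      refine iSup_le fun n => le_iSup_of_le (n + 1) ?_
      have h1 : vSucc (hstr S) t y = ⊤ := by
        rw [vSucc, eq_top_iff]
        refine le_iInf fun z => ?_
        show ⊤ ≤ biff (hmem z y) (hmem z t ⊔ heq z t)
        rw [hy, biff_self]
      have h2 := vSucc_num t y n
      rwa [h1, inf_top_eq] at h2
    · show hmem t (homega S) ≤ biff (hmem z y) (hmem z t ⊔ heq z t)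
      rw [hy, biff_self]
      exact le_top

theorem vInductive_le_num (x : HName S) (n : ℕ) : vInductive (hstr S) x ≤ hmem (hnum S n) x := by
  induction n with
  | zero =>
    rw [vInductive]
    refine inf_le_left.trans (iSup_le fun e => ?_)
    refine le_trans ?_ (hmem_congr_left e (hnum S 0) x)
    rw [inf_comm]
    refine inf_le_inf_right _ ?_
    rw [heq_eq_iInf]
    refine le_iInf fun z => (iInf_le _ z).trans ?_
    rw [hmem_num_zero, biff, himp_bot, bot_himp, inf_top_eq]
    exact le_rfl
  | succ n ih =>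
    have h1 : vInductive (hstr S) x ≤ ⨆ s, hmem s x ⊓ vSucc (hstr S) (hnum S n) s := by
      have h2 : vInductive (hstr S) x ≤ hmem (hnum S n) x ⇨ ⨆ s, hmem s x ⊓
          vSucc (hstr S) (hnum S n) s :=
        inf_le_right.trans (iInf_le _ (hnum S n))
      rw [le_himp_iff] at h2
      exact (le_inf le_rfl ih).trans h2
    refine h1.trans (iSup_le fun s => ?_)
    refine le_trans ?_ (hmem_congr_left s (hnum S (n + 1)) x)
    rw [inf_comm]
    refine inf_le_inf_right _ ?_
    have h2 := vSucc_num (hnum S n) s n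
    rwa [heq_refl, top_inf_eq] at h2

end HNat

theorem vOmega_omega : vOmega (hstr S) (homega S) = ⊤ := by
  rw [vOmega, vInductive_omega, top_inf_eq, eq_top_iff]
  refine le_iInf fun x => ?_
  rw [le_himp_iff, top_inf_eq]
  refine le_iInf fun t => ?_
  rw [le_himp_iff]
  show vInductive (hstr S) x ⊓ hmem t (homega S) ≤ hmem t x
  rw [hmem_omega, inf_iSup_eq]
  refine iSup_le fun n => ?_
  refine le_trans ?_ (hmem_congr_left (hnum S n) t x)
  rw [inf_comm, heq_symm]
  exact inf_le_inf_left _ (vInductive_le_num x n)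

/-! ### Ordered pairs -/

namespace HNat

variable {S}

/-- name of the unordered pair -/
noncomputable def hpair (x y : HName S) : HName S := (h_pair x y).choose

theorem hmem_pair (x y w : HName S) : hmem w (hpair x y) = heq w x ⊔ heq w y :=
  (h_pair x y).choose_spec w

/-- name of the ordered pair -/
noncomputable def hopair (x y : HName S) : HName S := hpair (hpair x x) (hpair x y)

theorem heq_pair_le_left (a b c d : HName S) :
    heq (hpair a b) (hpair c d) ≤ heq a c ⊔ heq a d := by
  have h := hmem_congr_right a (hpair a b) (hpair c d)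
  rw [hmem_pair, hmem_pair, heq_refl, top_sup_eq, inf_top_eq] at h
  exact h

theorem heq_pair_le_right (a b c d : HName S) :
    heq (hpair a b) (hpair c d) ≤ heq b c ⊔ heq b d := by
  have h := hmem_congr_right b (hpair a b) (hpair c d)
  rw [hmem_pair, hmem_pair, heq_refl, sup_top_eq, inf_top_eq] at h
  exact h

theorem heq_trans' (t x x' : HName S) : heq x x' ⊓ heq t x ≤ heq t x' := by
  rw [inf_comm]
  exact heq_trans t x x'

theorem le_heq_pair (a b c d : HName S) :
    heq a c ⊓ heq b d ≤ heq (hpair a b) (hpair c d) := by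
  rw [heq_eq_iInf (hpair a b) (hpair c d)]
  refine le_iInf fun t => ?_
  rw [hmem_pair, hmem_pair, le_biff_iff]
  refine ⟨?_, ?_⟩
  · rw [inf_sup_left]
    refine sup_le_sup ?_ ?_
    · exact (inf_le_inf_right _ inf_le_left).trans (heq_trans' t a c)
    · exact (inf_le_inf_right _ inf_le_right).trans (heq_trans' t b d)
  · rw [inf_sup_left, heq_symm a c, heq_symm b d]
    refine sup_le_sup ?_ ?_
    · exact (inf_le_inf_right _ inf_le_left).trans (heq_trans' t c a)
    · exact (inf_le_inf_right _ inf_le_right).trans (heq_trans' t d b)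

theorem heq_opair_le_fst (x y x' y' : HName S) : heq (hopair x y) (hopair x' y') ≤ heq x x' := by
  refine (heq_pair_le_left (hpair x x) (hpair x y) (hpair x' x') (hpair x' y')).trans ?_
  refine sup_le ?_ ?_
  · exact (heq_pair_le_left x x x' x').trans (le_of_eq (sup_idem _))
  · rw [heq_symm (hpair x x)]
    refine (heq_pair_le_left x' y' x x).trans ?_
    rw [sup_idem, heq_symm]

theorem heq_opair_le_aux (x y x' y' : HName S) :
    heq (hopair x y) (hopair x' y') ≤ heq y x' ⊔ heq y y' := by
  refine (heq_pair_le_right (hpair x x) (hpair x y) (hpair x' x') (hpair x' y')).trans ?_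
  refine sup_le ?_ ?_
  · refine (heq_pair_le_right x y x' x').trans ?_
    rw [sup_idem]
    exact le_sup_left
  · exact heq_pair_le_right x y x' y'

theorem heq_opair_le_snd (x y x' y' : HName S) : heq (hopair x y) (hopair x' y') ≤ heq y y' := by
  have h1 := heq_opair_le_fst x y x' y'
  have h2 := heq_opair_le_aux x y x' y'
  have h3 := heq_opair_le_aux x' y' x y
  rw [heq_symm (hopair x' y')] at h3
  refine (le_inf h1 (le_inf h2 h3)).trans ?_
  rw [inf_sup_right, inf_sup_left]
  refine sup_le ?_ ?_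
  · rw [inf_sup_left, inf_sup_left]
    refine sup_le ?_ ?_
    · have e1 : heq x x' ⊓ (heq y x' ⊓ heq y' x) ≤ heq y x := by
        refine le_trans ?_ (heq_trans y x' x)
        rw [heq_symm x' x]
        exact le_inf (inf_le_right.trans inf_le_left) inf_le_left
      have e2 : heq x x' ⊓ (heq y x' ⊓ heq y' x) ≤ heq x y' := by
        rw [heq_symm y' x]
        exact inf_le_right.trans inf_le_right
      exact (le_inf e1 e2).trans (heq_trans y x y')
    · rw [heq_symm y' y]
      exact inf_le_right.trans inf_le_right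
  · exact inf_le_right.trans inf_le_left

theorem heq_opair (x y x' y' : HName S) : heq (hopair x y) (hopair x' y') = heq x x' ⊓ heq y y' := by
  refine le_antisymm (le_inf (heq_opair_le_fst x y x' y') (heq_opair_le_snd x y x' y')) ?_
  refine le_trans ?_ (le_heq_pair (hpair x x) (hpair x y) (hpair x' x') (hpair x' y'))
  refine le_inf ?_ (le_heq_pair x y x' y')
  exact le_trans (le_inf inf_le_left inf_le_left) (le_heq_pair x x x' x')

theorem vUPair_eq (x y z : HName S) : vUPair (hstr S) x y z = heq z (hpair x y) := by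
  rw [heq_eq_iInf, vUPair]
  refine iInf_congr fun t => ?_
  rw [hmem_pair]
  rfl

theorem vPair_eq (x y p : HName S) : vPair (hstr S) x y p = heq p (hopair x y) := by
  rw [hopair, ← vUPair_eq, vPair, vUPair]
  refine iInf_congr fun z => ?_
  rw [vUPair_eq, vUPair_eq]
  rfl

theorem vPM_eq (x y R : HName S) : vPM (hstr S) x y R = hmem (hopair x y) R := by
  rw [vPM]
  apply le_antisymm
  · refine iSup_le fun p => ?_
    rw [vPair_eq]
    exact hmem_congr_left p (hopair x y) R
  · refine le_trans ?_ (le_iSup _ (hopair x y))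
    rw [vPair_eq, heq_refl, top_inf_eq]
    exact le_rfl

theorem vTM_eq (x y z a : HName S) :
    vTM (hstr S) x y z a = hmem (hopair (hopair x y) z) a := by
  rw [vTM]
  apply le_antisymm
  · refine iSup_le fun p => ?_
    rw [vPair_eq, vPM_eq]
    refine le_trans (inf_le_inf_right _ ?_) (hmem_congr_left (hopair p z) (hopair (hopair x y) z) a)
    rw [heq_opair, heq_refl, inf_top_eq]
  · refine le_trans ?_ (le_iSup _ (hopair x y))
    rw [vPair_eq, vPM_eq, heq_refl, top_inf_eq]

theorem fixed_pair {g : G} {x y : HName S} (hx : heq (hact g x) x = ⊤) (hy : heq (hact g y) y = ⊤) :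
    heq (hact g (hpair x y)) (hpair x y) = ⊤ := by
  have h1 : heq (hact g (hpair x y)) (hpair (hact g x) (hact g y)) = ⊤ := by
    rw [heq_eq_iInf, eq_top_iff]
    refine le_iInf fun z => ?_
    have h2 : hmem z (hact g (hpair x y)) = hmem z (hpair (hact g x) (hact g y)) := by
      have e1 : hmem z (hact g (hpair x y)) = S.ρ g (hmem (hact (-g) z) (hpair x y)) := by
        rw [← hmem_act, hact_neg]
      rw [e1, hmem_pair, hmem_pair, map_sup, ← heq_act, ← heq_act, hact_neg]
    rw [h2, biff_self]
  have h3 := le_heq_pair (hact g x) (hact g y) x y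
  rw [hx, hy, inf_top_eq, top_le_iff] at h3
  have h4 := heq_trans (hact g (hpair x y)) (hpair (hact g x) (hact g y)) (hpair x y)
  rw [h1, h3, inf_top_eq, top_le_iff] at h4
  exact h4

theorem fixed_opair {g : G} {x y : HName S} (hx : heq (hact g x) x = ⊤) (hy : heq (hact g y) y = ⊤) :
    heq (hact g (hopair x y)) (hopair x y) = ⊤ :=
  fixed_pair (fixed_pair hx hx) (fixed_pair hx hy)

theorem fixed_num (g : G) (n : ℕ) : heq (hact g (hnum S n)) (hnum S n) = ⊤ := by
  rw [hact_num, heq_refl]

end HNat

/-- there is a name of the addition -/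
theorem exists_add : ∃ a : HName S, (∀ x y z : HName S, vTM (hstr S) x y z a =
    ⨆ m : ℕ, ⨆ n : ℕ, heq x (hnum S m) ⊓ (heq y (hnum S n) ⊓ heq z (hnum S (m + n)))) ∧
    vAdd (hstr S) (homega S) a = ⊤ := by
  obtain ⟨A, hA⟩ := S.nonempty
  obtain ⟨a, ha⟩ := exists_mk (S := S)
    (fun i : ℕ × ℕ => hopair (hopair (hnum S i.1) (hnum S i.2)) (hnum S (i.1 + i.2)))
    (fun _ => ⊤) A hA (by
      intro g _ z
      rw [OrderIso.map_iSup]
      refine iSup_congr fun i => ?_
      rw [top_inf_eq, top_inf_eq, ← heq_act]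
      exact HMk.heq_congr_right
        (fixed_opair (fixed_opair (fixed_num g i.1) (fixed_num g i.2)) (fixed_num g _)) _)
  have hTM : ∀ x y z : HName S, vTM (hstr S) x y z a =
      ⨆ m : ℕ, ⨆ n : ℕ, heq x (hnum S m) ⊓ (heq y (hnum S n) ⊓ heq z (hnum S (m + n))) := by
    intro x y z
    rw [vTM_eq, ha, iSup_prod]
    refine iSup_congr fun m => iSup_congr fun n => ?_
    rw [top_inf_eq, heq_opair, heq_opair, inf_assoc]
  refine ⟨a, hTM, ?_⟩
  rw [vAdd, eq_top_iff]
  refine le_inf (le_iInf fun m => ?_) (le_inf (le_iInf fun m => ?_) (le_iInf fun m => ?_))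
  · rw [le_himp_iff, top_inf_eq]
    refine le_iInf fun n => ?_
    rw [le_himp_iff]
    show hmem m (homega S) ⊓ hmem n (homega S) ≤ _
    rw [hmem_omega, hmem_omega, iSup_inf_iSup]
    refine iSup_le fun ij => ?_
    obtain ⟨i, j⟩ := ij
    refine le_iSup_of_le (hnum S (i + j)) (le_inf ?_ (le_inf ?_ (le_iInf fun k' => ?_)))
    · exact le_top.trans (hmem_num_omega (i + j)).ge
    · rw [hTM]
      refine le_iSup_of_le i (le_iSup_of_le j ?_)
      rw [heq_refl, inf_top_eq]
    · rw [le_himp_iff, hTM, inf_iSup_eq]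
      refine iSup_le fun i' => ?_
      rw [inf_iSup_eq]
      refine iSup_le fun j' => ?_
      show heq m (hnum S i) ⊓ heq n (hnum S j) ⊓
        (heq m (hnum S i') ⊓ (heq n (hnum S j') ⊓ heq k' (hnum S (i' + j')))) ≤
          heq k' (hnum S (i + j))
      by_cases hi : i = i'
      · by_cases hj : j = j'
        · subst hi hj
          exact inf_le_right.trans (inf_le_right.trans inf_le_right)
        · have h1 := heq_num_inf n hj
          refine le_trans (le_trans (le_inf (inf_le_left.trans inf_le_right)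
            (inf_le_right.trans (inf_le_right.trans inf_le_left))) h1.le) bot_le
      · have h1 := heq_num_inf m hi
        refine le_trans (le_trans (le_inf (inf_le_left.trans inf_le_left)
          (inf_le_right.trans inf_le_left)) h1.le) bot_le
  · rw [le_himp_iff, top_inf_eq]
    refine le_iInf fun z => ?_
    rw [le_himp_iff, le_himp_iff]
    show hmem m (homega S) ⊓ hmem z (homega S) ⊓ (⨅ t, (hmem t z)ᶜ) ≤ _
    rw [hmem_omega, hmem_omega, iSup_inf_iSup, iSup_inf_eq]
    refine iSup_le fun ij => ?_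
    obtain ⟨i, j⟩ := ij
    show heq m (hnum S i) ⊓ heq z (hnum S j) ⊓ (⨅ t, (hmem t z)ᶜ) ≤ _
    rcases Nat.eq_zero_or_pos j with hj | hj
    · subst hj
      rw [hTM]
      refine le_iSup_of_le i (le_iSup_of_le 0 ?_)
      rw [Nat.add_zero]
      exact le_inf (inf_le_left.trans inf_le_left) (le_inf (inf_le_left.trans inf_le_right)
        (inf_le_left.trans inf_le_left))
    · have h1 : heq z (hnum S j) ≤ hmem (hnum S 0) z := by
        have := hmem_congr_right (hnum S 0) (hnum S j) z
        rwa [hmem_zero_num hj, inf_top_eq, heq_symm] at this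
      have h2 : (⨅ t, (hmem t z)ᶜ) ≤ (hmem (hnum S 0) z)ᶜ := iInf_le _ _
      refine le_trans (le_inf ((inf_le_left.trans inf_le_right).trans h1)
        (inf_le_right.trans h2)) ?_
      rw [inf_compl_self]
      exact bot_le
  · rw [le_himp_iff, top_inf_eq]
    refine le_iInf fun n => ?_
    rw [le_himp_iff]
    refine le_iInf fun k => ?_
    rw [le_himp_iff]
    refine le_iInf fun n' => ?_
    rw [le_himp_iff]
    refine le_iInf fun k' => ?_
    rw [le_himp_iff, hTM, hTM]
    refine le_trans (b := (⨆ i : ℕ, ⨆ j : ℕ, heq m (hnum S i) ⊓ (heq n (hnum S j) ⊓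
      heq k (hnum S (i + j)))) ⊓ (vSucc (hstr S) n n' ⊓ vSucc (hstr S) k k')) ?_ ?_
    · refine le_inf (inf_le_left.trans (inf_le_left.trans inf_le_right)) (le_inf ?_ inf_le_right)
      exact inf_le_left.trans inf_le_right
    · rw [iSup_inf_eq]
      refine iSup_le fun i => ?_
      rw [iSup_inf_eq]
      refine iSup_le fun j => le_iSup_of_le i (le_iSup_of_le (j + 1) ?_)
      refine le_inf (inf_le_left.trans inf_le_left) (le_inf ?_ ?_)
      · refine le_trans (le_inf ?_ ?_) (vSucc_num n n' j)
        · exact inf_le_left.trans (inf_le_right.trans inf_le_left)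
        · exact inf_le_right.trans inf_le_left
      · refine le_trans (le_inf ?_ ?_) (vSucc_num k k' (i + j))
        · exact inf_le_left.trans (inf_le_right.trans inf_le_right)
        · exact inf_le_right.trans inf_le_right

theorem vPos_omega (z : HName S) :
    vPos (hstr S) (homega S) z = ⨆ n : ℕ, ⨆ _ : 0 < n, heq z (hnum S n) := by
  rw [vPos]
  show hmem z (homega S) ⊓ (⨆ s, hmem s z) = _
  apply le_antisymm
  · rw [hmem_omega, iSup_inf_iSup]
    refine iSup_le fun ns => ?_
    obtain ⟨n, s⟩ := ns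
    show heq z (hnum S n) ⊓ hmem s z ≤ _
    rcases Nat.eq_zero_or_pos n with hn | hn
    · subst hn
      refine (hmem_congr_right s z (hnum S 0)).trans ?_
      rw [hmem_num_zero]
      exact bot_le
    · exact inf_le_left.trans (le_iSup₂_of_le n hn le_rfl)
  · refine iSup₂_le fun n hn => le_inf ?_ ?_
    · rw [hmem_omega]
      exact le_iSup (fun n => heq z (hnum S n)) n
    · refine le_iSup_of_le (hnum S 0) ?_
      have := hmem_congr_right (hnum S 0) (hnum S n) z
      rwa [hmem_zero_num hn, inf_top_eq, heq_symm] at this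

end Pool.Agent.SymZF
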