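import Pool.Agent.SymZF.IntForm
import Pool.Agent.SymZF.HAx
import Pool.Agent.SymZF.HNat

/-!
# The structure given by a Henkin interpretation is a model of ZF
-/

set_option autoImplicit false

namespace Pool.Agent.SymZF

open Pool.Agent.BVM Pool.Agent.StarHur

namespace ZF

open Transfer IntForm

variable {𝔹 : Type} [CompleteBooleanAlgebra 𝔹] {G : Type} [AddCommGroup G] (S : Sys G 𝔹)

theorem biff_eq_top {a b : 𝔹} (h : a = b) : biff a b = ⊤ := by
  rw [h]
  unfold biff
  rw [himp_self, inf_idem]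

theorem iSup_eq_top_of {ι : Sort*} {f : ι → 𝔹} (i : ι) (h : f i = ⊤) : (⨆ i, f i) = ⊤ := by
  rw [eq_top_iff, ← h]
  exact le_iSup f i

theorem nm_cons {M : Type} {H : Type 1} (nm : M → H) {n : ℕ} (z : M) (p : Fin n → M) :
    (fun i => nm ((Fin.cons z p : Fin (n + 1) → M) i)) =
      (Fin.cons (nm z) (fun i => nm (p i)) : Fin (n + 1) → H) := by
  funext i
  refine Fin.cases ?_ (fun k => ?_) i
  · simp only [Fin.cons_zero]
  · simp only [Fin.cons_succ]

theorem hact_cons {n : ℕ} (g : G) (z : HName S) (p : Fin n → HName S) :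
    (fun i => hact g ((Fin.cons z p : Fin (n + 1) → HName S) i)) =
      (Fin.cons (hact g z) (fun i => hact g (p i)) : Fin (n + 1) → HName S) :=  by
  funext i
  refine Fin.cases ?_ (fun k => ?_) i
  · simp only [Fin.cons_zero]
  · simp only [Fin.cons_succ]

/-- a common support of finitely many names -/
theorem exists_supp_fin {n : ℕ} (p : Fin n → HName S) :
    ∃ A ∈ S.F, ∀ g ∈ A, ∀ i, heq (hact g (p i)) (p i) = ⊤ := by
  induction n with
  | zero =>
    obtain ⟨A, hA⟩ := S.nonempty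
    exact ⟨A, hA, fun g _ i => i.elim0⟩
  | succ n ih =>
    obtain ⟨A, hA, hA'⟩ := ih fun i => p i.succ
    obtain ⟨B, hB, hB'⟩ := exists_supp (p 0)
    obtain ⟨C, hC, hCA, hCB⟩ := S.dir A hA B hB
    refine ⟨C, hC, fun g hg i => ?_⟩
    refine Fin.cases ?_ (fun k => ?_) i
    · exact hB' g (hCB hg)
    · exact hA' g (hCA hg) k

theorem gext_fst {n : ℕ} (φ : Fml (n + 1)) (p : Fin n → HName S) :
    GExt (hstr S) fun z => gval (hstr S) φ (Fin.cons z p : Fin (n + 1) → HName S) := by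
  intro x y
  refine le_trans ?_ (gval_ext (hstr S) φ (Fin.cons x p) (Fin.cons y p))
  refine inf_le_inf_right _ (le_iInf fun i => ?_)
  refine Fin.cases ?_ (fun k => ?_) i
  · simp only [Fin.cons_zero]
    exact le_rfl
  · simp only [Fin.cons_succ, (hstr S).refl]
    exact le_top

theorem gext_snd {n : ℕ} (φ : Fml (n + 2)) (z : HName S) (p : Fin n → HName S) :
    GExt (hstr S) fun w => gval (hstr S) φ
      (Fin.cons z (Fin.cons w p : Fin (n + 1) → HName S) : Fin (n + 2) → HName S) := by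
  intro x y
  refine le_trans ?_ (gval_ext (hstr S) φ (Fin.cons z (Fin.cons x p)) (Fin.cons z (Fin.cons y p)))
  refine inf_le_inf_right _ (le_iInf fun i => ?_)
  refine Fin.cases ?_ (fun k => ?_) i
  · simp only [Fin.cons_zero, (hstr S).refl]
    exact le_top
  · simp only [Fin.cons_succ]
    refine Fin.cases ?_ (fun l => ?_) k
    · simp only [Fin.cons_zero]
      exact le_rfl
    · simp only [Fin.cons_succ, (hstr S).refl]
      exact le_top

/-- the action on the value of a formula with fixed parameters -/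
theorem act_gval {n : ℕ} (φ : Fml (n + 1)) (p : Fin n → HName S) (g : G)
    (hp : ∀ i, heq (hact g (p i)) (p i) = ⊤) (z : HName S) :
    S.ρ g (gval (hstr S) φ (Fin.cons z p : Fin (n + 1) → HName S)) =
      gval (hstr S) φ (Fin.cons (hact g z) p : Fin (n + 1) → HName S) := by
  rw [← gval_act, hact_cons]
  have key : ∀ q r : Fin n → HName S, (∀ i, heq (q i) (r i) = ⊤) →
      gval (hstr S) φ (Fin.cons (hact g z) q : Fin (n + 1) → HName S) ≤
        gval (hstr S) φ (Fin.cons (hact g z) r : Fin (n + 1) → HName S) := by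
    intro q r h
    refine le_trans ?_ (gval_ext (hstr S) φ (Fin.cons (hact g z) q) (Fin.cons (hact g z) r))
    refine le_inf (le_iInf fun i => ?_) le_rfl
    refine Fin.cases ?_ (fun k => ?_) i
    · simp only [Fin.cons_zero, (hstr S).refl]
      exact le_top
    · simp only [Fin.cons_succ]
      refine le_trans le_top (le_of_eq ?_)
      exact (h k).symm
  apply le_antisymm
  · exact key _ _ hp
  · refine key _ _ fun i => ?_
    rw [heq_symm]
    exact hp i

section Axioms

variable {M : Type} (E : M → M → Prop) (nm : M → HName S)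
    (hT : ∀ (n : ℕ) (φ : Fml n) (v : Fin n → M), gval (hstr S) φ (fun i => nm (v i)) = ⊤ → Sat E φ v)

include hT

theorem ax_ext (x y : M) (h : ∀ z, E z x ↔ E z y) : x = y := by
  have h1 := hT 2 (.imp (.all (fiff (.mem 0 (Fin.succ 0)) (.mem 0 (Fin.succ (Fin.succ 0)))))
    (.eq 0 (Fin.succ 0))) (Fin.cons x (Fin.cons y Fin.elim0 : Fin 1 → M) : Fin 2 → M) (by
      rw [nm_cons, nm_cons]
      simp only [gval_imp, gval_all, gval_iff, gval_mem, gval_eq, Fin.cons_zero, Fin.cons_succ]
      rw [himp_eq_top_iff]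
      exact (heq_eq_iInf (nm x) (nm y)).ge)
  simp only [sat_imp, sat_all, sat_iff, sat_mem, sat_eq, Fin.cons_zero, Fin.cons_succ] at h1
  exact h1 h

theorem ax_found (x : M) (h : ∃ y, E y x) : ∃ y, E y x ∧ ∀ z, E z x → ¬ E z y := by
  have h1 := hT 1 (.imp (fex (.mem 0 (Fin.succ 0))) (fex (fand (.mem 0 (Fin.succ 0))
    (.all (.imp (.mem 0 (Fin.succ (Fin.succ 0))) (fnot (.mem 0 (Fin.succ 0))))))))
    (Fin.cons x Fin.elim0 : Fin 1 → M) (by
      rw [nm_cons]
      simp only [gval_imp, gval_all, gval_ex, gval_and, gval_not, gval_mem, Fin.cons_zero,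
        Fin.cons_succ]
      rw [himp_eq_top_iff]
      exact iSup_le fun y => h_found (nm x) y)
  simp only [sat_imp, sat_all, sat_ex, sat_and, sat_not, sat_mem, Fin.cons_zero, Fin.cons_succ] at h1
  exact h1 h

theorem ax_pair (x y : M) : ∃ z, ∀ w, E w z ↔ w = x ∨ w = y := by
  have h1 := hT 2 (fex (.all (fiff (.mem 0 (Fin.succ 0)) (fOr (.eq 0 (Fin.succ (Fin.succ 0)))
    (.eq 0 (Fin.succ (Fin.succ (Fin.succ 0))))))))
    (Fin.cons x (Fin.cons y Fin.elim0 : Fin 1 → M) : Fin 2 → M) (by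
      rw [nm_cons, nm_cons]
      simp only [gval_all, gval_ex, gval_iff, gval_or, gval_eq, gval_mem, Fin.cons_zero,
        Fin.cons_succ]
      obtain ⟨z, hz⟩ := h_pair (nm x) (nm y)
      refine iSup_eq_top_of z ?_
      rw [iInf_eq_top]
      exact fun w => biff_eq_top (hz w))
  simp only [sat_all, sat_ex, sat_iff, sat_or, sat_eq, sat_mem, Fin.cons_zero, Fin.cons_succ] at h1
  exact h1

theorem ax_union (x : M) : ∃ y, ∀ z, E z y ↔ ∃ w, E w x ∧ E z w := by
  have h1 := hT 1 (fex (.all (fiff (.mem 0 (Fin.succ 0)) (fex (fand (.mem 0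
    (Fin.succ (Fin.succ (Fin.succ 0)))) (.mem (Fin.succ 0) 0))))))
    (Fin.cons x Fin.elim0 : Fin 1 → M) (by
      rw [nm_cons]
      simp only [gval_all, gval_ex, gval_iff, gval_and, gval_mem, Fin.cons_zero,
        Fin.cons_succ]
      obtain ⟨y, hy⟩ := h_union (nm x)
      refine iSup_eq_top_of y ?_
      rw [iInf_eq_top]
      exact fun z => biff_eq_top (hy z))
  simp only [sat_all, sat_ex, sat_iff, sat_and, sat_mem, Fin.cons_zero, Fin.cons_succ] at h1
  exact h1

theorem ax_power (x : M) : ∃ y, ∀ z, E z y ↔ ∀ w, E w z → E w x := by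
  have h1 := hT 1 (fex (.all (fiff (.mem 0 (Fin.succ 0)) (.all (.imp (.mem 0 (Fin.succ 0))
    (.mem 0 (Fin.succ (Fin.succ (Fin.succ 0)))))))))
    (Fin.cons x Fin.elim0 : Fin 1 → M) (by
      rw [nm_cons]
      simp only [gval_all, gval_ex, gval_iff, gval_imp, gval_mem, Fin.cons_zero,
        Fin.cons_succ]
      obtain ⟨y, hy⟩ := h_power (nm x)
      refine iSup_eq_top_of y ?_
      rw [iInf_eq_top]
      exact fun z => biff_eq_top (hy z))
  simp only [sat_all, sat_ex, sat_iff, sat_imp, sat_mem, Fin.cons_zero, Fin.cons_succ] at h1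
  exact h1

theorem ax_inf : ∃ w, (∃ e, E e w ∧ ∀ z, ¬ E z e) ∧
    ∀ x, E x w → ∃ y, E y w ∧ ∀ z, E z y ↔ E z x ∨ z = x := by
  have h1 := hT 0 (fex (fInductive 0)) Fin.elim0 (by
    simp only [gval_ex, gval_Inductive, Fin.cons_zero]
    refine iSup_eq_top_of (homega S) ?_
    rw [eq_top_iff, ← vOmega_omega S]
    exact inf_le_left)
  simp only [sat_ex, sat_Inductive, Fin.cons_zero] at h1
  exact h1

theorem ax_sep (n : ℕ) (φ : Fml (n + 1)) (p : Fin n → M) (x : M) : ∃ y, ∀ z, E z y ↔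
    E z x ∧ Sat E φ (Fin.cons z p : Fin (n + 1) → M) := by
  let f : Fin (n + 1) → Fin (n + 3) := fun i => Fin.cases 0 (fun j => j.succ.succ.succ) i
  have hf : ∀ {N : Type 1} (z y x : N) (q : Fin n → N),
      (fun i => (Fin.cons z (Fin.cons y (Fin.cons x q : Fin (n + 1) → N) : Fin (n + 2) → N) :
        Fin (n + 3) → N) (f i)) = (Fin.cons z q : Fin (n + 1) → N) := by
    intro N z y x q
    funext i
    refine Fin.cases rfl (fun k => rfl) i
  have hf' : ∀ (z y x : M) (q : Fin n → M),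
      (fun i => (Fin.cons z (Fin.cons y (Fin.cons x q : Fin (n + 1) → M) : Fin (n + 2) → M) :
        Fin (n + 3) → M) (f i)) = (Fin.cons z q : Fin (n + 1) → M) := by
    intro z y x q
    funext i
    refine Fin.cases rfl (fun k => rfl) i
  have h1 := hT (n + 1) (fex (.all (fiff (.mem 0 (Fin.succ 0)) (fand (.mem 0
    (Fin.succ (Fin.succ 0))) (ren φ f))))) (Fin.cons x p : Fin (n + 1) → M) (by
      rw [nm_cons]
      simp only [gval_all, gval_ex, gval_iff, gval_and, gval_mem, gval_ren, hf, Fin.cons_zero,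
        Fin.cons_succ]
      obtain ⟨A, hA, hA'⟩ := exists_supp_fin S fun i => nm (p i)
      obtain ⟨y, hy⟩ := h_sep (nm x) (fun z => gval (hstr S) φ (Fin.cons z fun i => nm (p i)))
        (gext_fst S φ _) A hA fun g hg z => act_gval S φ _ g (hA' g hg) z
      refine iSup_eq_top_of y ?_
      rw [iInf_eq_top]
      exact fun z => biff_eq_top (hy z))
  simp only [sat_all, sat_ex, sat_iff, sat_and, sat_mem, sat_ren, hf', Fin.cons_zero,
    Fin.cons_succ] at h1
  exact h1

theorem ax_coll (n : ℕ) (φ : Fml (n + 2)) (p : Fin n → M) (x : M) : ∃ y, ∀ z, E z x →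
    (∃ w, Sat E φ (Fin.cons z (Fin.cons w p : Fin (n + 1) → M) : Fin (n + 2) → M)) →
    ∃ w, E w y ∧ Sat E φ (Fin.cons z (Fin.cons w p : Fin (n + 1) → M) : Fin (n + 2) → M) := by
  let f : Fin (n + 2) → Fin (n + 4) := fun i =>
    Fin.cases (Fin.succ 0) (fun j => Fin.cases 0 (fun k => k.succ.succ.succ.succ) j) i
  have hf : ∀ {N : Type 1} (w z y x : N) (q : Fin n → N),
      (fun i => (Fin.cons w (Fin.cons z (Fin.cons y (Fin.cons x q : Fin (n + 1) → N) :
        Fin (n + 2) → N) : Fin (n + 3) → N) : Fin (n + 4) → N) (f i)) =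
        (Fin.cons z (Fin.cons w q : Fin (n + 1) → N) : Fin (n + 2) → N) := by
    intro N w z y x q
    funext i
    refine Fin.cases rfl (fun k => ?_) i
    refine Fin.cases rfl (fun l => rfl) k
  have hf' : ∀ (w z y x : M) (q : Fin n → M),
      (fun i => (Fin.cons w (Fin.cons z (Fin.cons y (Fin.cons x q : Fin (n + 1) → M) :
        Fin (n + 2) → M) : Fin (n + 3) → M) : Fin (n + 4) → M) (f i)) =
        (Fin.cons z (Fin.cons w q : Fin (n + 1) → M) : Fin (n + 2) → M) := by
    intro w z y x q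
    funext i
    refine Fin.cases rfl (fun k => ?_) i
    refine Fin.cases rfl (fun l => rfl) k
  have h1 := hT (n + 1) (fex (.all (.imp (.mem 0 (Fin.succ (Fin.succ 0))) (.imp (fex (ren φ f))
    (fex (fand (.mem 0 (Fin.succ (Fin.succ 0))) (ren φ f))))))) (Fin.cons x p : Fin (n + 1) → M) (by
      rw [nm_cons]
      simp only [gval_all, gval_ex, gval_imp, gval_and, gval_mem, gval_ren, hf, Fin.cons_zero,
        Fin.cons_succ]
      obtain ⟨y, hy⟩ := h_coll (nm x) (fun z w => gval (hstr S) φ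
        (Fin.cons z (Fin.cons w (fun i => nm (p i)) : Fin (n + 1) → HName S) : Fin (n + 2) → HName S))
        (fun w => gext_fst S φ _) (fun z => gext_snd S φ z _)
      refine iSup_eq_top_of y ?_
      rw [iInf_eq_top]
      intro z
      rw [himp_eq_top_iff, le_himp_iff]
      exact hy z)
  simp only [sat_all, sat_ex, sat_imp, sat_and, sat_mem, sat_ren, hf', Fin.cons_zero,
    Fin.cons_succ] at h1
  exact h1

theorem ax_repl (n : ℕ) (φ : Fml (n + 2)) (p : Fin n → M) (x : M)
    (h : ∀ z, E z x → ∃! w, Sat E φ (Fin.cons z (Fin.cons w p : Fin (n + 1) → M) : Fin (n + 2) → M)) :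
    ∃ y, ∀ w, E w y ↔
      ∃ z, E z x ∧ Sat E φ (Fin.cons z (Fin.cons w p : Fin (n + 1) → M) : Fin (n + 2) → M) := by
  obtain ⟨y0, h0⟩ := ax_coll S E nm hT n φ p x
  let f : Fin (n + 2) → Fin (n + 3) := fun i =>
    Fin.cases 0 (fun j => Fin.cases (Fin.succ 0) (fun k => k.succ.succ.succ) j) i
  have hf' : ∀ (z w x : M) (q : Fin n → M),
      (fun i => (Fin.cons z (Fin.cons w (Fin.cons x q : Fin (n + 1) → M) :
        Fin (n + 2) → M) : Fin (n + 3) → M) (f i)) =
        (Fin.cons z (Fin.cons w q : Fin (n + 1) → M) : Fin (n + 2) → M) := by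
    intro z w x q
    funext i
    refine Fin.cases rfl (fun k => ?_) i
    refine Fin.cases rfl (fun l => rfl) k
  obtain ⟨y, hy⟩ := ax_sep S E nm hT (n + 1) (fex (fand (.mem 0 (Fin.succ (Fin.succ 0))) (ren φ f)))
    (Fin.cons x p : Fin (n + 1) → M) y0
  simp only [sat_ex, sat_and, sat_mem, sat_ren, hf', Fin.cons_zero, Fin.cons_succ] at hy
  refine ⟨y, fun w => ?_⟩
  rw [hy w]
  constructor
  · exact fun h => h.2
  · rintro ⟨z, hz, hzw⟩
    refine ⟨?_, z, hz, hzw⟩
    obtain ⟨w', hw', hzw'⟩ := h0 z hz ⟨w, hzw⟩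
    rwa [(h z hz).unique hzw hzw']

end Axioms

end ZF

variable {𝔹 : Type} [CompleteBooleanAlgebra 𝔹] {G : Type} [AddCommGroup G] (S : Sys G 𝔹)

theorem isModelZF {M : Type} (E : M → M → Prop) (nm : M → HName S)
    (hT : ∀ (n : ℕ) (φ : Fml n) (v : Fin n → M), gval (hstr S) φ (fun i => nm (v i)) = ⊤ → Sat E φ v) :
    IsModelZF E where
  ext := ZF.ax_ext S E nm hT
  found := ZF.ax_found S E nm hT
  pair := ZF.ax_pair S E nm hT
  union := ZF.ax_union S E nm hT
  power := ZF.ax_power S E nm hT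
  infinity := ZF.ax_inf S E nm hT
  sep := ZF.ax_sep S E nm hT
  repl := ZF.ax_repl S E nm hT

end Pool.Agent.SymZF
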