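import Pool.Agent.SymZF.Henkin
import Pool.Agent.SymZF.HUlt
import Pool.Agent.SymZF.ZF
import Pool.Agent.SymZF.IntForm

/-!
# The model from the core
-/

set_option autoImplicit false

namespace Pool.Agent.SymZF

open Pool.Agent.BVM Pool.Agent.StarHur

theorem model_of_core {𝔹 : Type} [CompleteBooleanAlgebra 𝔹] [Nontrivial 𝔹] {G : Type} [AddCommGroup G]
    {S : Sys G 𝔹} {u f : (ℕ → 𝔹) → 𝔹} (C : Core S u f) :
    ∃ (M : Type) (E : M → M → Prop), IsModelZF E ∧ Separates E := by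
  have : Nonempty (HName S) := ⟨hnum S 0⟩
  obtain ⟨M, E, nm, hT⟩ := henkin (hstr S)
  obtain ⟨U, hU, hU'⟩ := exists_fam S u C.u_inv C.u_mono
  obtain ⟨F, hF, hF'⟩ := exists_fam S f C.f_inv C.f_mono
  refine ⟨M, E, isModelZF S E nm hT, separates (hstr S) E nm hT (homega S) (hadd S) U F
    (vOmega_omega S) ((exists_add S).choose_spec.2) (vIdemUltra_fam S C U hU hU')
    (vIdemFilter_fam S C F hF hF') ?_⟩
  exact kill_fam S C F hF

end Pool.Agent.SymZF
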