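import Pool.Agent.SymZF.PDefs

/-!
# The word Ramsey theorem with marks

Ultrafilter proof (Hindman, Hales-Jewett).
-/

set_option autoImplicit false

namespace Pool.Agent.SymZF

namespace WR

open Filter

attribute [local instance] Ultrafilter.mul Ultrafilter.semigroup

variable {L : Type}

/-- words -/
abbrev W (L : Type) : Type := FreeMonoid (L × Bool)

/-- a list as a word -/
abbrev wd (l : List (L × Bool)) : W L := FreeMonoid.ofList l

theorem wd_append (a b : List (L × Bool)) : wd (a ++ b) = wd a * wd b := rfl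

/-- nonempty words without marks -/
def S0 : Set (W L) := {w | (∃ x, x ∈ w.toList) ∧ ∀ x ∈ w.toList, x.2 = false}

/-- words with a mark -/
def S1 : Set (W L) := {w | ∃ x ∈ w.toList, x.2 = true}

theorem S0_mul {a b : W L} (ha : a ∈ S0) (hb : b ∈ S0) : a * b ∈ S0 := by
  obtain ⟨⟨x, hx⟩, h1⟩ := ha
  obtain ⟨_, h2⟩ := hb
  refine ⟨⟨x, ?_⟩, ?_⟩
  · rw [FreeMonoid.toList_mul]
    exact List.mem_append_left _ hx
  · intro y hy
    rw [FreeMonoid.toList_mul, List.mem_append] at hy
    rcases hy with hy | hy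
    · exact h1 y hy
    · exact h2 y hy

theorem S1_mul_left {a b : W L} (ha : a ∈ S1) : a * b ∈ S1 := by
  obtain ⟨x, hx, h1⟩ := ha
  refine ⟨x, ?_, h1⟩
  rw [FreeMonoid.toList_mul]
  exact List.mem_append_left _ hx

theorem S1_mul_right {a b : W L} (hb : b ∈ S1) : a * b ∈ S1 := by
  obtain ⟨x, hx, h1⟩ := hb
  refine ⟨x, ?_, h1⟩
  rw [FreeMonoid.toList_mul]
  exact List.mem_append_right _ hx

/-- erase all marks -/
def eps : W L →* W L := FreeMonoid.map fun x => (x.1, false)

/-- mark all letters -/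
def mu : W L →* W L := FreeMonoid.map fun x => (x.1, true)

theorem eps_wd (l : List (L × Bool)) : eps (wd l) = wd (l.map fun x => (x.1, false)) := rfl

theorem eps_sub (u : List (Option L × Bool)) (l : L) : eps (wd (sub u l true)) = wd (sub u l false) := by
  rw [eps_wd]
  simp only [sub, List.map_map]
  congr 1
  apply List.map_congr_left
  intro x _
  simp

theorem eps_of_S0 {w : W L} (h : w ∈ S0) : eps w = w := by
  obtain ⟨_, h2⟩ := h
  show wd (w.toList.map fun x => (x.1, false)) = w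
  have : (w.toList.map fun x => (x.1, false)) = w.toList := by
    conv_rhs => rw [← List.map_id w.toList]
    apply List.map_congr_left
    intro x hx
    rw [id, ← h2 x hx]
  rw [this]
  rfl

theorem eps_mu_of_S0 {w : W L} (h : w ∈ S0) : eps (mu w) = w := by
  have h1 := eps_of_S0 h
  have : eps (mu w) = eps w := by
    show wd ((w.toList.map fun x => (x.1, true)).map fun x => (x.1, false)) =
      wd (w.toList.map fun x => (x.1, false))
    rw [List.map_map]
    rfl
  rw [this, h1]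

theorem mu_mem_S1 {w : W L} (h : w ∈ S0) : mu w ∈ S1 := by
  obtain ⟨⟨x, hx⟩, _⟩ := h
  refine ⟨(x.1, true), ?_, rfl⟩
  show (x.1, true) ∈ w.toList.map fun x => (x.1, true)
  exact List.mem_map.2 ⟨x, hx, rfl⟩

/-- a constant word as a variable word -/
def cst (w : List (L × Bool)) : List (Option L × Bool) := w.map fun x => (some x.1, x.2)

theorem sub_cst (w : List (L × Bool)) (l : L) : sub (cst w) l true = w := by
  simp only [sub, cst, List.map_map]
  conv_rhs => rw [← List.map_id w]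
  apply List.map_congr_left
  intro x _
  simp

theorem sub_append (u v : List (Option L × Bool)) (l : L) (e : Bool) :
    sub (u ++ v) l e = sub u l e ++ sub v l e := by
  simp [sub]

/-- `Y` contains all values of an unmarked variable word -/
def HasLine (Y : Set (W L)) : Prop :=
  ∃ u : List (Option L × Bool), (∃ x ∈ u, x.1 = none) ∧ (∀ x ∈ u, x.2 = false) ∧
    ∀ l, wd (sub u l true) ∈ Y

/-- `Y` contains all values of a marked variable word -/
def HasLine1 (Y : Set (W L)) : Prop :=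
  ∃ u : List (Option L × Bool), (∃ x ∈ u, x.1 = none) ∧ (∃ x ∈ u, x.2 = true) ∧
    ∀ l, wd (sub u l true) ∈ Y

theorem HasLine.mono {Y Z : Set (W L)} (hY : HasLine Y) (h : Y ⊆ Z) : HasLine Z := by
  obtain ⟨u, h1, h2, h3⟩ := hY
  exact ⟨u, h1, h2, fun l => h (h3 l)⟩

/-- the semigroup of ultrafilters all whose elements contain lines -/
def V0 : Set (Ultrafilter (W L)) := {v | S0 ∈ v ∧ ∀ Y ∈ v, HasLine Y}

theorem mem_mul_iff (U V : Ultrafilter (W L)) (Y : Set (W L)) :
    Y ∈ U * V ↔ {a | {b | a * b ∈ Y} ∈ V} ∈ U := Iff.rfl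

theorem V0_mul [Finite L] {U V : Ultrafilter (W L)} (hU : U ∈ V0) (hV : V ∈ V0) : U * V ∈ V0 := by
  refine ⟨?_, fun Y hY => ?_⟩
  · rw [mem_mul_iff]
    filter_upwards [hU.1] with a ha
    filter_upwards [hV.1] with b hb
    exact S0_mul ha hb
  · rw [mem_mul_iff] at hY
    obtain ⟨u, hu1, hu2, hu3⟩ := hU.2 _ hY
    have h2 : (⋂ l : L, {b | wd (sub u l true) * b ∈ Y}) ∩ S0 ∈ V :=
      inter_mem (iInter_mem.2 fun l => hu3 l) hV.1
    obtain ⟨b, hb1, hb2⟩ := V.nonempty_of_mem h2
    refine ⟨u ++ cst b.toList, ?_, ?_, ?_⟩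
    · obtain ⟨x, hx, hx'⟩ := hu1
      exact ⟨x, List.mem_append_left _ hx, hx'⟩
    · intro x hx
      rw [List.mem_append] at hx
      rcases hx with hx | hx
      · exact hu2 x hx
      · obtain ⟨y, hy, rfl⟩ := List.mem_map.1 hx
        exact hb2.2 y hy
    · intro l
      rw [sub_append, sub_cst, wd_append]
      exact Set.mem_iInter.1 hb1 l

theorem V0_compact : IsCompact (V0 : Set (Ultrafilter (W L))) := by
  have h : (V0 : Set (Ultrafilter (W L))) =
      {v | S0 ∈ v} ∩ ⋂ Y : {Y : Set (W L) // ¬ HasLine Y}, {v | (Y : Set (W L))ᶜ ∈ v} := by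
    ext v
    simp only [V0, Set.mem_setOf_eq, Set.mem_inter_iff, Set.mem_iInter]
    refine and_congr_right fun _ => ⟨fun h Y => ?_, fun h Y hY => ?_⟩
    · rw [Ultrafilter.compl_mem_iff_notMem]
      exact fun h' => Y.2 (h _ h')
    · by_contra hn
      exact Ultrafilter.compl_mem_iff_notMem.1 (h ⟨Y, hn⟩) hY
  rw [h]
  apply IsClosed.isCompact
  refine IsClosed.inter (ultrafilter_isClosed_basic _) (isClosed_iInter fun Y =>
    ultrafilter_isClosed_basic _)

theorem V0_nonempty [Finite L] [Nonempty L] : (V0 : Set (Ultrafilter (W L))).Nonempty := by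
  classical
  obtain ⟨v, hv⟩ := Ultrafilter.exists_ultrafilter_of_finite_inter_nonempty
    {Z : Set (W L) | ¬ HasLine (Zᶜ ∩ S0)} (by
    intro T hT
    by_contra hne
    rw [Set.not_nonempty_iff_eq_empty] at hne
    have hcov : ∀ w : W L, ∃ Z ∈ T, w ∉ Z := by
      intro w
      by_contra h
      have hw : w ∈ ⋂₀ (↑T : Set (Set (W L))) := by
        intro Z hZ
        by_contra hwZ
        exact h ⟨Z, hZ, hwZ⟩
      rw [hne] at hw
      exact hw
    choose c hc1 hc2 using hcov
    obtain ⟨ι, hι0, hι⟩ := Combinatorics.Line.exists_mono_in_high_dimension L T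
    let word : (ι → L) → W L := fun x => wd ((Finset.univ : Finset ι).toList.map fun i => (x i, false))
    obtain ⟨l, c0, hl⟩ := hι (fun x => ⟨c (word x), hc1 _⟩)
    refine hT c0.2 ?_
    have hsub : ∀ x : L, wd (sub ((Finset.univ : Finset ι).toList.map fun i =>
        (l.idxFun i, false)) x true) = word (l x) := by
      intro x
      show wd _ = wd _
      simp only [sub, List.map_map]
      congr 1
    obtain ⟨i0, hi0⟩ := l.proper
    refine ⟨(Finset.univ : Finset ι).toList.map fun i => (l.idxFun i, false), ?_, ?_, ?_⟩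
    · exact ⟨(l.idxFun i0, false), List.mem_map.2 ⟨i0, by simp, rfl⟩, hi0⟩
    · intro x hx
      obtain ⟨i, _, rfl⟩ := List.mem_map.1 hx
      rfl
    · intro x
      rw [hsub x]
      refine ⟨?_, ?_, ?_⟩
      · have h1 := congrArg Subtype.val (hl x)
        show word (l x) ∉ (c0 : Set (W L))
        rw [← h1]
        exact hc2 _
      · exact ⟨(l x i0, false), List.mem_map.2 ⟨i0, by simp, rfl⟩⟩
      · intro y hy
        obtain ⟨i, _, rfl⟩ := List.mem_map.1 (show y ∈ ((Finset.univ : Finset ι).toList.map fun i =>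
          (l x i, false)) from hy)
        rfl)
  refine ⟨v, ?_, fun Y hY => ?_⟩
  · apply hv
    rintro ⟨u, _, _, h3⟩
    obtain ⟨l⟩ := ‹Nonempty L›
    exact (h3 l).1 (h3 l).2
  · by_contra hn
    have : Yᶜ ∈ v := hv (by
      intro h
      refine hn (h.mono ?_)
      rintro x ⟨hx, _⟩
      rwa [compl_compl] at hx)
    exact Ultrafilter.compl_mem_iff_notMem.1 this hY

theorem map_mul' (f : W L →* W L) (U V : Ultrafilter (W L)) :
    Ultrafilter.map f (U * V) = Ultrafilter.map f U * Ultrafilter.map f V := by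
  apply Ultrafilter.coe_inj.mp
  ext Y
  show f ⁻¹' Y ∈ U * V ↔ Y ∈ Ultrafilter.map f U * Ultrafilter.map f V
  rw [mem_mul_iff, mem_mul_iff]
  show _ ↔ {a | f ⁻¹' {b | f a * b ∈ Y} ∈ V} ∈ U
  simp only [Set.mem_preimage, Set.preimage_setOf_eq, map_mul]

theorem map_congr_of_mem {f g : W L → W L} {U : Ultrafilter (W L)} {S : Set (W L)} (hS : S ∈ U)
    (h : ∀ w ∈ S, f w = g w) : Ultrafilter.map f U = Ultrafilter.map g U := by
  apply Ultrafilter.coe_inj.mp
  ext Y
  show f ⁻¹' Y ∈ U ↔ g ⁻¹' Y ∈ U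
  constructor
  · intro h1
    filter_upwards [h1, hS] with w hw hw'
    rw [Set.mem_preimage, ← h w hw']
    exact hw
  · intro h1
    filter_upwards [h1, hS] with w hw hw'
    rw [Set.mem_preimage, h w hw']
    exact hw

theorem exists_m [Finite L] [Nonempty L] : ∃ v m : Ultrafilter (W L), m * m = m ∧ v * m = m ∧
    Ultrafilter.map eps m = v ∧ ∀ Y ∈ m, HasLine1 Y := by
  obtain ⟨v, hv0, hvv⟩ := exists_idempotent_in_compact_subsemigroup
    (fun r : Ultrafilter (W L) => Ultrafilter.continuous_mul_left r) V0 V0_nonempty V0_compact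
    (fun x hx y hy => V0_mul hx hy)
  have hev : Ultrafilter.map eps v = v := by
    rw [map_congr_of_mem (f := eps) (g := id) hv0.1 (fun w hw => eps_of_S0 hw), Ultrafilter.map_id]
  -- the fibre
  let T : Set (Ultrafilter (W L)) := {m | S1 ∈ m ∧ Ultrafilter.map eps m = v}
  have hTc : IsCompact T := by
    have h : T = {m | S1 ∈ m} ∩ ⋂ Y : {Y : Set (W L) // Y ∈ v}, {m | eps ⁻¹' (Y : Set (W L)) ∈ m} := by
      ext m
      simp only [T, Set.mem_setOf_eq, Set.mem_inter_iff, Set.mem_iInter]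
      refine and_congr_right fun _ => ⟨fun h Y => ?_, fun h => ?_⟩
      · have h5 : (Y : Set (W L)) ∈ Ultrafilter.map eps m := by
          rw [h]
          exact Y.2
        exact h5
      · apply Ultrafilter.eq_of_le
        intro Y hY
        exact h ⟨Y, hY⟩
    rw [h]
    apply IsClosed.isCompact
    exact IsClosed.inter (ultrafilter_isClosed_basic _) (isClosed_iInter fun Y =>
      ultrafilter_isClosed_basic _)
  have hTne : Ultrafilter.map mu v ∈ T := by
    refine ⟨?_, ?_⟩
    · show mu ⁻¹' S1 ∈ v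
      filter_upwards [hv0.1] with w hw
      exact mu_mem_S1 hw
    · rw [Ultrafilter.map_map, map_congr_of_mem (f := eps ∘ mu) (g := id) hv0.1 (fun w hw => eps_mu_of_S0 hw),
        Ultrafilter.map_id]
  have hTmul : ∀ t ∈ T, ∀ t' ∈ T, t * v * t' ∈ T := by
    rintro t ⟨ht1, ht2⟩ t' ⟨_, ht2'⟩
    refine ⟨?_, ?_⟩
    · rw [mem_mul_iff, mem_mul_iff]
      filter_upwards [ht1] with a ha
      show {b | {c | a * b * c ∈ S1} ∈ t'} ∈ v
      have : {b | {c | a * b * c ∈ S1} ∈ t'} = Set.univ := by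
        ext b
        simp only [Set.mem_setOf_eq, Set.mem_univ, iff_true]
        have : {c | a * b * c ∈ S1} = Set.univ := by
          ext c
          simp only [Set.mem_setOf_eq, Set.mem_univ, iff_true]
          exact S1_mul_left (S1_mul_left ha)
        rw [this]
        exact Filter.univ_mem
      rw [this]
      exact Filter.univ_mem
    · rw [map_mul', map_mul', ht2, ht2', hev, hvv, hvv]
  obtain ⟨m1, ⟨t, ht, rfl⟩, hm1⟩ := exists_idempotent_in_compact_subsemigroup
    (fun r : Ultrafilter (W L) => Ultrafilter.continuous_mul_left r) ((fun t => t * v) '' T)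
    ⟨_, ⟨_, hTne, rfl⟩⟩ (hTc.image (Ultrafilter.continuous_mul_left v)) (by
      rintro _ ⟨t, ht, rfl⟩ _ ⟨t', ht', rfl⟩
      exact ⟨t * v * t', hTmul t ht t' ht', by simp only [mul_assoc]⟩)
  simp only at hm1
  have hS1 : S1 ∈ t * v := by
    rw [mem_mul_iff]
    filter_upwards [ht.1] with a ha
    have : {b | a * b ∈ S1} = Set.univ := by
      ext c
      simp only [Set.mem_setOf_eq, Set.mem_univ, iff_true]
      exact S1_mul_left ha
    rw [this]
    exact Filter.univ_mem
  refine ⟨v, v * (t * v), ?_, ?_, ?_, ?_⟩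
  · have e1 : t * v * v = t * v := by rw [mul_assoc, hvv]
    calc v * (t * v) * (v * (t * v)) = v * ((t * v * v) * (t * v)) := by simp only [mul_assoc]
      _ = v * (t * v) := by rw [e1, hm1]
  · rw [← mul_assoc, hvv]
  · rw [map_mul', map_mul', hev, ht.2, hvv, hvv]
  · intro Y hY
    rw [mem_mul_iff] at hY
    obtain ⟨u, hu1, hu2, hu3⟩ := hv0.2 _ hY
    have h2 : (⋂ l : L, {b | wd (sub u l true) * b ∈ Y}) ∩ S1 ∈ t * v :=
      inter_mem (iInter_mem.2 fun l => hu3 l) hS1
    obtain ⟨b, hb1, hb2⟩ := (t * v).nonempty_of_mem h2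
    refine ⟨u ++ cst b.toList, ?_, ?_, ?_⟩
    · obtain ⟨x, hx, hx'⟩ := hu1
      exact ⟨x, List.mem_append_left _ hx, hx'⟩
    · obtain ⟨x, hx, hx'⟩ := hb2
      exact ⟨(some x.1, x.2), List.mem_append_right _ (List.mem_map.2 ⟨x, hx, rfl⟩), hx'⟩
    · intro l
      rw [sub_append, sub_cst, wd_append]
      exact Set.mem_iInter.1 hb1 l

theorem step [Finite L] {v m : Ultrafilter (W L)} (h1 : m * m = m) (h2 : v * m = m)
    (h3 : Ultrafilter.map eps m = v) (h4 : ∀ Y ∈ m, HasLine1 Y) (Y : Set (W L)) (A : Set (W L))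
    (hA : A.Finite) (hAY : ∀ a ∈ A, {b | a * b ∈ Y} ∈ m) :
    ∃ u : List (Option L × Bool), ((∃ x ∈ u, x.1 = none) ∧ ∃ x ∈ u, x.2 = true) ∧
      ∀ a ∈ A, ∀ l, a * wd (sub u l true) ∈ Y ∧ ∀ e, {b | a * wd (sub u l e) * b ∈ Y} ∈ m := by
  have hZ : (⋂ a ∈ A, {b | a * b ∈ Y ∧ {c | a * b * c ∈ Y} ∈ m ∧ {c | a * eps b * c ∈ Y} ∈ m}) ∈ m := by
    refine (Filter.biInter_mem hA).2 fun a ha => ?_
    have e1 := hAY a ha
    have e2 : {b | {c | a * b * c ∈ Y} ∈ m} ∈ m := by
      have := e1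
      rw [← h1, mem_mul_iff] at this
      simpa only [Set.mem_setOf_eq, mul_assoc] using this
    have e3 : {b | {c | a * eps b * c ∈ Y} ∈ m} ∈ m := by
      have := e1
      rw [← h2, mem_mul_iff, ← h3] at this
      have this1 : {b | {c | a * b * c ∈ Y} ∈ m} ∈ Ultrafilter.map eps m := by
        simpa only [Set.mem_setOf_eq, mul_assoc] using this
      exact this1
    filter_upwards [e1, e2, e3] with b hb1 hb2 hb3
    exact ⟨hb1, hb2, hb3⟩
  obtain ⟨u, hu1, hu2, hu3⟩ := h4 _ hZ
  refine ⟨u, ⟨hu1, hu2⟩, fun a ha l => ?_⟩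
  have h5 := Set.mem_iInter₂.1 (hu3 l) a ha
  refine ⟨h5.1, fun e => ?_⟩
  cases e
  · have := h5.2.2
    rwa [eps_sub] at this
  · exact h5.2.1

end WR

open WR in
theorem word_ramsey {L : Type} [Finite L] [Nonempty L] (f : List (L × Bool) → Bool) :
    ∃ (u : ℕ → List (Option L × Bool)) (c : Bool),
      (∀ k, (∃ x ∈ u k, x.1 = none) ∧ ∃ x ∈ u k, x.2 = true) ∧
      ∀ (K : ℕ) (l : ℕ → L) (e : ℕ → Bool), e K = true →
        f ((List.range (K + 1)).flatMap fun k => sub (u k) (l k) (e k)) = c := by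
  obtain ⟨v, m, h1, h2, h3, h4⟩ := exists_m (L := L)
  obtain ⟨c, hc⟩ : ∃ c : Bool, {w : W L | f w.toList = c} ∈ m := by
    by_contra hn
    have e1 : {w : W L | f w.toList = true} ∉ m := fun h => hn ⟨_, h⟩
    have e2 : {w : W L | f w.toList = false} ∉ m := fun h => hn ⟨_, h⟩
    rw [← Ultrafilter.compl_mem_iff_notMem] at e1 e2
    obtain ⟨w, hw1, hw2⟩ := m.nonempty_of_mem (Filter.inter_mem e1 e2)
    simp only [Set.mem_compl_iff, Set.mem_setOf_eq] at hw1 hw2
    cases h : f w.toList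
    · exact hw2 h
    · exact hw1 h
  set Y : Set (W L) := {w : W L | f w.toList = c} with hY
  let St : Type := {A : Set (W L) // A.Finite ∧ ∀ a ∈ A, {b | a * b ∈ Y} ∈ m}
  have hstep : ∀ s : St, ∃ u : List (Option L × Bool), ((∃ x ∈ u, x.1 = none) ∧ ∃ x ∈ u, x.2 = true) ∧
      ∀ a ∈ s.1, ∀ l, a * wd (sub u l true) ∈ Y ∧ ∀ e, {b | a * wd (sub u l e) * b ∈ Y} ∈ m :=
    fun s => step h1 h2 h3 h4 Y s.1 s.2.1 s.2.2
  choose g hg1 hg2 using hstep
  let nxt : St → St := fun s => ⟨{w | ∃ a ∈ s.1, ∃ l e, w = a * wd (sub (g s) l e)}, by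
    refine ⟨?_, ?_⟩
    · have : {w | ∃ a ∈ s.1, ∃ l e, w = a * wd (sub (g s) l e)} =
          (fun x : W L × (L × Bool) => x.1 * wd (sub (g s) x.2.1 x.2.2)) ''
            (s.1 ×ˢ (Set.univ : Set (L × Bool))) := by
        ext w
        simp only [Set.mem_setOf_eq, Set.mem_image, Set.mem_prod, Set.mem_univ, and_true, Prod.exists]
        constructor
        · rintro ⟨a, ha, l, e, rfl⟩
          exact ⟨a, l, e, ha, rfl⟩
        · rintro ⟨a, l, e, ha, rfl⟩
          exact ⟨a, ha, l, e, rfl⟩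
      rw [this]
      exact (s.2.1.prod Set.finite_univ).image _
    · rintro _ ⟨a, ha, l, e, rfl⟩
      exact (hg2 s a ha l).2 e⟩
  let s0 : St := ⟨{1}, Set.finite_singleton 1, by
    rintro a rfl
    simpa using hc⟩
  let st : ℕ → St := fun n => Nat.rec s0 (fun _ s => nxt s) n
  have hst : ∀ n, st (n + 1) = nxt (st n) := fun n => rfl
  refine ⟨fun n => g (st n), c, fun k => hg1 _, ?_⟩
  intro K l e he
  have hpre : ∀ n, wd ((List.range n).flatMap fun k => sub (g (st k)) (l k) (e k)) ∈ (st n).1 := by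
    intro n
    induction n with
    | zero => exact rfl
    | succ n ih =>
      rw [List.range_succ, List.flatMap_append, hst]
      refine ⟨_, ih, l n, e n, ?_⟩
      rw [wd_append]
      simp
  rw [List.range_succ, List.flatMap_append]
  have h6 := (hg2 (st K) _ (hpre K) (l K)).1
  have h7 : f (((List.range K).flatMap fun k => sub (g (st k)) (l k) (e k)) ++
      sub (g (st K)) (l K) true) = c := h6
  simpa [he] using h7

end Pool.Agent.SymZF
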