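import Pool.Agent.SymZF.Fusion
import Pool.Agent.SymZF.WordRamsey

/-!
# Deciding all finite unions (module II4 of `MP_257b8b_lc`)
-/

set_option autoImplicit false

namespace Pool.Agent.SymZF

namespace DA

open PB Fus

section word

variable {L : Type} (u : ℕ → List (Option L × Bool))

/-- the offsets -/
def off : ℕ → ℕ
  | 0 => 0
  | k + 1 => off k + (u k).length

variable {u}

theorem off_lt (hu : ∀ k, (u k).length ≠ 0) {k k' : ℕ} (h : k < k') : off u k < off u k' := by
  induction k' with
  | zero => omega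
  | succ k' ih =>
    have h1 : off u k' < off u (k' + 1) := by
      show off u k' < off u k' + (u k').length
      have := hu k'
      omega
    rcases Nat.lt_or_ge k k' with h2 | h2
    · exact (ih h2).trans h1
    · obtain rfl : k = k' := by omega
      exact h1

theorem off_mono (hu : ∀ k, (u k).length ≠ 0) {k k' : ℕ} (h : k ≤ k') : off u k ≤ off u k' := by
  rcases Nat.lt_or_ge k k' with h2 | h2
  · exact (off_lt hu h2).le
  · obtain rfl : k = k' := by omega
    exact le_rfl

theorem le_off (hu : ∀ k, (u k).length ≠ 0) (k : ℕ) : k ≤ off u k := by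
  induction k with
  | zero => exact Nat.zero_le _
  | succ k ih =>
    have := off_lt hu (Nat.lt_succ_self k)
    simp only [Nat.succ_eq_add_one] at this
    omega

variable (u) in
/-- the number of the word to which position `j` belongs -/
def kap (j : ℕ) : ℕ := Nat.findGreatest (fun k => off u k ≤ j) j

theorem off_kap_le (j : ℕ) : off u (kap u j) ≤ j :=
  Nat.findGreatest_spec (P := fun k => off u k ≤ j) (m := 0) (Nat.zero_le j) (Nat.zero_le j)

theorem lt_off_kap (hu : ∀ k, (u k).length ≠ 0) (j : ℕ) : j < off u (kap u j + 1) := by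
  by_contra hcon
  have h1 : kap u j + 1 ≤ j := (le_off hu _).trans (not_lt.1 hcon)
  have h2 := Nat.le_findGreatest (P := fun k => off u k ≤ j) h1 (not_lt.1 hcon)
  exact absurd h2 (by unfold kap; omega)

theorem kap_eq (hu : ∀ k, (u k).length ≠ 0) {j k : ℕ} (h1 : off u k ≤ j) (h2 : j < off u (k + 1)) :
    kap u j = k := by
  have h3 := off_kap_le (u := u) j
  have h4 := lt_off_kap hu j
  by_contra hne
  rcases lt_or_gt_of_ne hne with h | h
  · have := off_mono hu (show kap u j + 1 ≤ k by omega)
    omega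
  · have := off_mono hu (show k + 1 ≤ kap u j by omega)
    omega

theorem kap_off_add (hu : ∀ k, (u k).length ≠ 0) {k i : ℕ} (hi : i < (u k).length) :
    kap u (off u k + i) = k := by
  apply kap_eq hu (Nat.le_add_right _ _)
  show off u k + i < off u k + (u k).length
  omega

theorem kap_lt_iff (hu : ∀ k, (u k).length ≠ 0) {j K : ℕ} : kap u j < K ↔ j < off u K := by
  constructor
  · intro h
    exact (lt_off_kap hu j).trans_le (off_mono hu (by omega))
  · intro h
    by_contra hcon
    have := off_mono hu (not_lt.1 hcon)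
    have h3 := off_kap_le (u := u) j
    omega

variable (u) in
/-- the infinite word -/
def W (j : ℕ) : Option L × Bool := (u (kap u j)).getD (j - off u (kap u j)) (none, false)

theorem W_off_add (hu : ∀ k, (u k).length ≠ 0) {k i : ℕ} (hi : i < (u k).length) :
    W u (off u k + i) = (u k)[i] := by
  unfold W
  rw [kap_off_add hu hi, Nat.add_sub_cancel_left]
  simp [List.getD_eq_getElem?_getD, List.getElem?_eq_getElem hi]

variable (u) in
/-- the letters after substitution -/
def sb (l : ℕ → L) (e : ℕ → Bool) (j : ℕ) : L × Bool :=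
  ((W u j).1.getD (l (kap u j)), (W u j).2 && e (kap u j))

theorem flat_eq (hu : ∀ k, (u k).length ≠ 0) (l : ℕ → L) (e : ℕ → Bool) (K : ℕ) :
    ((List.range K).flatMap fun k => sub (u k) (l k) (e k)) =
      (List.range (off u K)).map (sb u l e) := by
  induction K with
  | zero => rfl
  | succ K ih =>
    rw [List.range_succ, List.flatMap_append, ih]
    show _ = (List.range (off u K + (u K).length)).map (sb u l e)
    rw [List.range_add, List.map_append]
    congr 1
    rw [List.map_map, List.flatMap_singleton]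
    apply List.ext_getElem
    · simp [sub]
    · intro i h1 h2
      have hi : i < (u K).length := by simpa [sub] using h1
      simp only [sub, List.getElem_map, List.getElem_range, Function.comp, sb, W_off_add hu hi,
        kap_off_add hu hi]

end word

section main

variable (E : Finset ℕ)

/-- letters -/
abbrev Let : Type := {e // e ∈ E} → ZMod 2

variable {E}

/-- the value of a letter -/
def val (x : Let E) (e : ℕ) : ZMod 2 := if h : e ∈ E then x ⟨e, h⟩ else 0

/-- the marked positions of a word -/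
def Jw (w : List (Let E × Bool)) : Finset ℕ :=
  (Finset.range w.length).filter fun j => (w.getD j (0, false)).2 = true

/-- the letters of a word -/
def ξw (w : List (Let E × Bool)) (j e : ℕ) : ZMod 2 := val (w.getD j (0, false)).1 e

theorem getD_map_range {α : Type} (g : ℕ → α) (d : α) (N j : ℕ) (hj : j < N) :
    ((List.range N).map g).getD j d = g j := by
  simp [List.getD_eq_getElem?_getD, hj]

end main

end DA

open PB Fus DA

theorem decide_all (E : Finset ℕ) (D : Cond → Finset ℕ → Bool → Prop)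
    (mono : ∀ r q t c, r ≤ q → D q t c → D r t c)
    (dens : ∀ q : Cond, q.E = E → ∀ t, ∃ r ≤ q, r.E = E ∧ ∃ c, D r t c)
    (sheaf : ∀ r : Cond, r.E = E → ∀ t c, (∀ q ≤ r, q.E = E → ∃ q' ≤ q, q'.E = E ∧ D q' t c) → D r t c)
    (p : Cond) (hp : p.E = E) : ∃ q ≤ p, q.E = E ∧ ∃ c, ∀ t ∈ q.A.FU, D q t c := by
  classical
  obtain ⟨P, hPp, hPE, hF⟩ := fusion E D mono dens p hp
  let f : List (Let E × Bool) → Bool := fun w =>
    if h : (Jw w).Nonempty then (hF (Jw w) h (ξw w)).choose else true
  have hf : ∀ w (h : (Jw w).Nonempty),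
      D (P.trunk ((Jw w).max' h + 1) ((Jw w).max' h) (ξw w)) ((Jw w).biUnion P.A.b) (f w) := by
    intro w h
    have : f w = (hF (Jw w) h (ξw w)).choose := dif_pos h
    rw [this]
    exact (hF (Jw w) h (ξw w)).choose_spec
  obtain ⟨u, c, hu1, hu2⟩ := word_ramsey f
  have hu : ∀ k, (u k).length ≠ 0 := by
    intro k h
    obtain ⟨x, hx, _⟩ := (hu1 k).1
    rw [List.length_eq_zero_iff.1 h] at hx
    exact absurd hx List.not_mem_nil
  -- the index sets of the new blocks
  let SA : ℕ → Finset ℕ := fun k =>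
    (Finset.range (off u (k + 1))).filter fun j => kap u j = k ∧ (W u j).2 = true
  let SN : ℕ → Finset ℕ := fun k =>
    (Finset.range (off u (k + 1))).filter fun j => kap u j = k ∧ (W u j).1 = none
  have hSA : ∀ k j, j ∈ SA k ↔ kap u j = k ∧ (W u j).2 = true := by
    intro k j
    show j ∈ Finset.filter _ _ ↔ _
    rw [Finset.mem_filter, Finset.mem_range, ← kap_lt_iff hu]
    constructor
    · exact fun h => h.2
    · exact fun h => ⟨by omega, h⟩
  have hSN : ∀ k j, j ∈ SN k ↔ kap u j = k ∧ (W u j).1 = none := by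
    intro k j
    show j ∈ Finset.filter _ _ ↔ _
    rw [Finset.mem_filter, Finset.mem_range, ← kap_lt_iff hu]
    constructor
    · exact fun h => h.2
    · exact fun h => ⟨by omega, h⟩
  have hSAne : ∀ k, (SA k).Nonempty := by
    intro k
    obtain ⟨x, hx, hx'⟩ := (hu1 k).2
    obtain ⟨i, hi, rfl⟩ := List.getElem_of_mem hx
    refine ⟨off u k + i, (hSA k _).2 ⟨kap_off_add hu hi, ?_⟩⟩
    rw [W_off_add hu hi]
    exact hx'
  have hSNne : ∀ k, (SN k).Nonempty := by
    intro k
    obtain ⟨x, hx, hx'⟩ := (hu1 k).1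
    obtain ⟨i, hi, rfl⟩ := List.getElem_of_mem hx
    refine ⟨off u k + i, (hSN k _).2 ⟨kap_off_add hu hi, ?_⟩⟩
    rw [W_off_add hu hi]
    exact hx'
  have hkap : ∀ j j', kap u j < kap u j' → j < j' := by
    intro j j' h
    have h1 := lt_off_kap hu j
    have h2 := off_kap_le (u := u) j'
    have h3 := off_mono hu (show kap u j + 1 ≤ kap u j' by omega)
    omega
  let qA : BlockSeq := ⟨fun k => (SA k).biUnion P.A.b, fun k => by
      obtain ⟨j, hj⟩ := hSAne k
      obtain ⟨x, hx⟩ := P.A.ne j
      exact ⟨x, Finset.mem_biUnion.2 ⟨j, hj, hx⟩⟩, by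
      intro k k' hk x hx y hy
      rw [Finset.mem_biUnion] at hx hy
      obtain ⟨j, hj, hx⟩ := hx
      obtain ⟨j', hj', hy⟩ := hy
      refine P.A.lt j j' (hkap j j' ?_) x hx y hy
      rw [((hSA k j).1 hj).1, ((hSA k' j').1 hj').1]
      exact hk⟩
  let qN : BlockSeq := ⟨fun k => (SN k).biUnion P.N.b, fun k => by
      obtain ⟨j, hj⟩ := hSNne k
      obtain ⟨x, hx⟩ := P.N.ne j
      exact ⟨x, Finset.mem_biUnion.2 ⟨j, hj, hx⟩⟩, by
      intro k k' hk x hx y hy
      rw [Finset.mem_biUnion] at hx hy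
      obtain ⟨j, hj, hx⟩ := hx
      obtain ⟨j', hj', hy⟩ := hy
      refine P.N.lt j j' (hkap j j' ?_) x hx y hy
      rw [((hSN k j).1 hj).1, ((hSN k' j').1 hj').1]
      exact hk⟩
  -- the constant letters
  let cst : ℕ → ℕ → ZMod 2 := fun j e => val ((W u j).1.getD 0) e
  let q : Cond := ⟨qA, qN, E, fun e k => P.π e k + ts P.N (k + 1) (fun j => cst j e) k⟩
  have hqπ : ∀ e j x, x ∈ P.N.b j → q.π e x = P.π e x + cst j e := by
    intro e j x hx
    show P.π e x + ts P.N (x + 1) (fun j => cst j e) x = _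
    rw [ts_of_mem P.N _ hx (by have := le_of_mem_blk P.N hx; omega)]
  have hqP : q ≤ P := by
    refine ⟨fun k => ⟨SA k, hSAne k, rfl⟩, fun k => ⟨SN k, hSNne k, rfl⟩, ?_, fun e _ => ?_⟩
    · rw [hPE]
    · refine ⟨fun k hk => ?_, fun j k hk k' hk' => ?_⟩
      · rw [Pi.sub_apply]
        show P.π e k + ts P.N (k + 1) (fun j => cst j e) k - P.π e k = 0
        rw [ts_of_not_mem P.N _ (fun j _ => hk j)]
        ring
      · rw [Pi.sub_apply, Pi.sub_apply, hqπ e j k hk, hqπ e j k' hk']
        ring
  refine ⟨q, hqP.trans hPp, rfl, c, ?_⟩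
  rintro t ⟨J', hJ', rfl⟩
  apply sheaf q rfl
  intro r hr hrE
  set K := J'.max' hJ' with hK
  -- the word of `r`
  let lam : ℕ → Let E := fun k e =>
    r.π e.1 (qN.ne k).choose - q.π e.1 (qN.ne k).choose
  have hlam : ∀ k, ∀ x ∈ qN.b k, ∀ e ∈ E, val (lam k) e = r.π e x - q.π e x := by
    intro k x hx e he
    have h1 := (hr.2.2.2 e he).2 k _ (qN.ne k).choose_spec x hx
    rw [Pi.sub_apply, Pi.sub_apply] at h1
    show (if h : e ∈ E then lam k ⟨e, h⟩ else 0) = _
    rw [dif_pos he]
    exact h1
  let ee : ℕ → Bool := fun k => decide (k ∈ J')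
  have heK : ee K = true := by
    show decide (K ∈ J') = true
    rw [decide_eq_true_eq]
    exact J'.max'_mem hJ'
  have hw := hu2 K lam ee heK
  rw [flat_eq hu] at hw
  set w : List (Let E × Bool) := (List.range (off u (K + 1))).map (sb u lam ee) with hwdef
  have hwl : w.length = off u (K + 1) := by simp [hwdef]
  have hwj : ∀ j < off u (K + 1), w.getD j (0, false) = sb u lam ee j := by
    intro j hj
    exact getD_map_range _ _ _ _ hj
  have hmem : ∀ j, j ∈ Jw w ↔ kap u j ∈ J' ∧ (W u j).2 = true := by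
    intro j
    unfold Jw
    rw [Finset.mem_filter, Finset.mem_range, hwl]
    constructor
    · rintro ⟨h1, h2⟩
      rw [hwj j h1] at h2
      have h3 : ((W u j).2 && ee (kap u j)) = true := h2
      rw [Bool.and_eq_true] at h3
      exact ⟨of_decide_eq_true h3.2, h3.1⟩
    · rintro ⟨h1, h2⟩
      have h3 : j < off u (K + 1) := by
        rw [← kap_lt_iff hu]
        have := J'.le_max' _ h1
        omega
      refine ⟨h3, ?_⟩
      rw [hwj j h3]
      show ((W u j).2 && ee (kap u j)) = true
      rw [Bool.and_eq_true]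
      exact ⟨h2, decide_eq_true h1⟩
  have hJw : (Jw w).biUnion P.A.b = J'.biUnion q.A.b := by
    ext x
    rw [Finset.mem_biUnion, Finset.mem_biUnion]
    constructor
    · rintro ⟨j, hj, hx⟩
      rw [hmem] at hj
      exact ⟨kap u j, hj.1, Finset.mem_biUnion.2 ⟨j, (hSA _ _).2 ⟨rfl, hj.2⟩, hx⟩⟩
    · rintro ⟨k, hk, hx⟩
      have hx' : x ∈ (SA k).biUnion P.A.b := hx
      rw [Finset.mem_biUnion] at hx'
      obtain ⟨j, hj, hx'⟩ := hx'
      rw [hSA] at hj
      exact ⟨j, (hmem j).2 ⟨by rw [hj.1]; exact hk, hj.2⟩, hx'⟩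
  have hJne : (Jw w).Nonempty := by
    obtain ⟨j, hj⟩ := hSAne K
    rw [hSA] at hj
    exact ⟨j, (hmem j).2 ⟨by rw [hj.1]; exact J'.max'_mem hJ', hj.2⟩⟩
  have hD := hf w hJne
  rw [hw, hJw] at hD
  set n := (Jw w).max' hJne with hn
  have hnlt : n < off u (K + 1) := by
    have h1 := (Jw w).max'_mem hJne
    rw [← hn] at h1
    rw [← kap_lt_iff hu]
    have h2 := J'.le_max' _ ((hmem n).1 h1).1
    omega
  obtain ⟨r', ξ, hr', hr'E, hr't, hξ⟩ := exists_trunk P r (hr.trans hqP) (n + 1) n
  refine ⟨r', hr', hr'E.trans hrE, ?_⟩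
  refine mono _ _ _ _ (hr't.trans (trunk_congr P (n + 1) n ξ (ξw w) ?_)) hD
  intro j hj e he
  rw [hPE] at he
  obtain ⟨x, hx⟩ := P.N.ne j
  rw [hξ j hj x hx e (by rw [hPE]; exact he)]
  have h1 : ξw w j e = val ((W u j).1.getD (lam (kap u j))) e := by
    unfold ξw
    rw [hwj j (by omega)]
    rfl
  rw [h1]
  have h2 := hqπ e j x hx
  cases hWj : (W u j).1 with
  | none =>
    have h3 : x ∈ qN.b (kap u j) := Finset.mem_biUnion.2 ⟨j, (hSN _ _).2 ⟨rfl, hWj⟩, hx⟩
    have h4 := hlam (kap u j) x h3 e he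
    have h5 : cst j e = 0 := by
      show val ((W u j).1.getD 0) e = 0
      rw [hWj]
      simp [val]
    rw [h5] at h2
    simp only [Option.getD_none]
    rw [h4, h2]
    ring
  | some a =>
    have h3 : (r.π e - q.π e) x = 0 := by
      apply (hr.2.2.2 e he).1 x
      intro k hk
      have hk' : x ∈ (SN k).biUnion P.N.b := hk
      rw [Finset.mem_biUnion] at hk'
      obtain ⟨j', hj', hx'⟩ := hk'
      have := blk_unique P.N hx hx'
      subst this
      rw [hSN] at hj'
      rw [hj'.2] at hWj
      exact absurd hWj (by simp)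
    rw [Pi.sub_apply] at h3
    have h5 : cst j e = val a e := by
      show val ((W u j).1.getD 0) e = _
      rw [hWj]
      rfl
    rw [h5] at h2
    simp only [Option.getD_some]
    have h6 : r.π e x = q.π e x := sub_eq_zero.1 h3
    rw [h6, h2]
    ring

end Pool.Agent.SymZF
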