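import Mathlib
import Pool.Agent.BVM.Defs
import Pool.Agent.MP_b1d3ea_lc.Internal

/-!
# Symmetric models of ZF and the internal statement about idempotent filters (definitions)

`IsModelZF E` says that the structure `(M, E)` for the language of set theory is a model of ZF.
`Separates E` is the statement, internal to `(M, E)`, that some idempotent ultrafilter on the positive
integers exists, yet some idempotent filter is not contained in any idempotent ultrafilter.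

`Sys G 𝔹` is an action of a commutative group on a complete Boolean algebra with a filter base of
subgroups, `HName S` is the class of hereditarily symmetric names.
-/

set_option autoImplicit false

namespace Pool.Agent.SymZF

open Pool.Agent.BVM Pool.Agent.StarHur

/-- `(M, E)` is a model of ZF. -/
structure IsModelZF {M : Type*} (E : M → M → Prop) : Prop where
  ext : ∀ x y, (∀ z, E z x ↔ E z y) → x = y
  found : ∀ x, (∃ y, E y x) → ∃ y, E y x ∧ ∀ z, E z x → ¬ E z y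
  pair : ∀ x y, ∃ z, ∀ w, E w z ↔ w = x ∨ w = y
  union : ∀ x, ∃ y, ∀ z, E z y ↔ ∃ w, E w x ∧ E z w
  power : ∀ x, ∃ y, ∀ z, E z y ↔ ∀ w, E w z → E w x
  infinity : ∃ w, (∃ e, E e w ∧ ∀ z, ¬ E z e) ∧ ∀ x, E x w → ∃ y, E y w ∧ ∀ z, E z y ↔ E z x ∨ z = x
  sep : ∀ (n : ℕ) (φ : Fml (n + 1)) (p : Fin n → M) (x : M), ∃ y, ∀ z, E z y ↔
    E z x ∧ Sat E φ (Fin.cons z p : Fin (n + 1) → M)
  repl : ∀ (n : ℕ) (φ : Fml (n + 2)) (p : Fin n → M) (x : M),
    (∀ z, E z x → ∃! w, Sat E φ (Fin.cons z (Fin.cons w p : Fin (n + 1) → M) : Fin (n + 2) → M)) →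
    ∃ y, ∀ w, E w y ↔
      ∃ z, E z x ∧ Sat E φ (Fin.cons z (Fin.cons w p : Fin (n + 1) → M) : Fin (n + 2) → M)

section Internal

variable {M : Type*} (E : M → M → Prop)

/-- `s = t ∪ {t}` -/
def IsSucc (t s : M) : Prop := ∀ z, E z s ↔ E z t ∨ z = t

/-- `((m, n), k) ∈ a` -/
def TM (m n k a : M) : Prop := ∃ p, IsPair E m n p ∧ PairMem E p k a

/-- `a` is the addition of the set `w` of natural numbers, as a set of triples `((m, n), m + n)`. -/
def IsAdd (w a : M) : Prop :=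
  (∀ m, E m w → ∀ n, E n w → ∃ k, E k w ∧ TM E m n k a ∧ ∀ k', TM E m n k' a → k' = k) ∧
  (∀ m, E m w → ∀ z, E z w → (∀ t, ¬ E t z) → TM E m z m a) ∧
  (∀ m, E m w → ∀ n, E n w → ∀ k, TM E m n k a → ∀ n', IsSucc E n n' → ∀ k', IsSucc E k k' →
    TM E m n' k' a)

/-- `t` is a positive integer: an element of `w` which is not the empty set. -/
def IsPos (w t : M) : Prop := E t w ∧ ∃ s, E s t

/-- `X` is a set of positive integers. -/
def IsSubN (w X : M) : Prop := ∀ t, E t X → IsPos E w t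

/-- `F` is a (proper) filter of subsets of the set of positive integers. -/
def IsFilterN (w F : M) : Prop :=
  (∀ X, E X F → IsSubN E w X) ∧ (∃ X, E X F) ∧ (∀ X, E X F → ∃ t, E t X) ∧
  (∀ X, E X F → ∀ Y, IsSubN E w Y → (∀ t, E t X → E t Y) → E Y F) ∧
  (∀ X, E X F → ∀ Y, E Y F → ∃ Z, E Z F ∧ ∀ t, E t Z ↔ E t X ∧ E t Y)

/-- `B = X - n = {m : m + n ∈ X}` (positive integers). -/
def IsShift (w a X n B : M) : Prop :=
  ∀ m, E m B ↔ IsPos E w m ∧ ∃ k, TM E m n k a ∧ E k X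

/-- `{n : X - n ∈ F} ∈ F`, that is `X ∈ F ⊕ F`. -/
def InSum (w a F X : M) : Prop :=
  ∃ D, E D F ∧ ∀ n, E n D ↔ IsPos E w n ∧ ∃ B, E B F ∧ IsShift E w a X n B

/-- `F ⊕ F = F` -/
def IsIdem (w a F : M) : Prop := ∀ X, IsSubN E w X → (E X F ↔ InSum E w a F X)

/-- `F` is an idempotent filter. -/
def IsIdemFilter (w a F : M) : Prop := IsFilterN E w F ∧ IsIdem E w a F

/-- `F` is an idempotent ultrafilter: an idempotent filter which contains `X` or its complement, for every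
set `X` of positive integers. -/
def IsIdemUltra (w a F : M) : Prop :=
  IsIdemFilter E w a F ∧ ∀ X, IsSubN E w X → E X F ∨ ∃ Y, E Y F ∧ ∀ t, E t Y ↔ IsPos E w t ∧ ¬ E t X

/-- In `(M, E)` some idempotent ultrafilter on the positive integers exists, yet some idempotent filter on
the positive integers is not contained in any idempotent ultrafilter. -/
def Separates : Prop :=
  ∃ w a, IsOmega E w ∧ IsAdd E w a ∧ (∃ u, IsIdemUltra E w a u) ∧
    ∃ F, IsIdemFilter E w a F ∧ ¬ ∃ u, IsIdemUltra E w a u ∧ ∀ X, E X F → E X u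

end Internal

section Names

variable {𝔹 : Type} [CompleteBooleanAlgebra 𝔹]

/-- Action of a map of the Boolean algebra on names. -/
def act (r : 𝔹 → 𝔹) : BSet 𝔹 → BSet 𝔹
  | ⟨ι, A, B⟩ => ⟨ι, fun i => act r (A i), fun i => r (B i)⟩

/-- A commutative group acting on a complete Boolean algebra, with a filter base of subgroups. -/
structure Sys (G : Type) [AddCommGroup G] (𝔹 : Type) [CompleteBooleanAlgebra 𝔹] where
  ρ : G → (𝔹 ≃o 𝔹)
  map_zero : ∀ b, ρ 0 b = b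
  map_add : ∀ g h b, ρ (g + h) b = ρ g (ρ h b)
  F : Set (AddSubgroup G)
  nonempty : F.Nonempty
  dir : ∀ A ∈ F, ∀ B ∈ F, ∃ C ∈ F, C ≤ A ∧ C ≤ B

variable {G : Type} [AddCommGroup G] (S : Sys G 𝔹)

/-- `x` is a symmetric name. -/
def Sym (x : BSet 𝔹) : Prop := ∃ A ∈ S.F, ∀ g ∈ A, beq (act (S.ρ g) x) x = ⊤

/-- `x` is a hereditarily symmetric name. -/
inductive HS : BSet 𝔹 → Prop
  | mk (ι : Type) (A : ι → BSet 𝔹) (B : ι → 𝔹) (h : Sym S ⟨ι, A, B⟩) (hA : ∀ i, HS (A i)) : HS ⟨ι, A, B⟩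

/-- The class of hereditarily symmetric names. -/
def HName : Type 1 := {x : BSet 𝔹 // HS S x}

variable {S}

/-- Boolean value of equality. -/
def heq (x y : HName S) : 𝔹 := beq x.1 y.1

/-- Boolean value of membership. -/
def hmem (x y : HName S) : 𝔹 := bmem x.1 y.1

/-- A real of the symmetric model: a symmetric function from `ℕ` to the Boolean algebra. -/
def SymR (S : Sys G 𝔹) (s : ℕ → 𝔹) : Prop := ∃ A ∈ S.F, ∀ g ∈ A, ∀ n, S.ρ g (s n) = s n

/-- The Boolean core of the construction: `u s` and `f s` are the Boolean values of `s ∈ u` and of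
`s ∈ F`, where `u` is the idempotent ultrafilter, `F` is the translation invariant filter, and `s n` is the
Boolean value of `n ∈ s`; only the values at positive integers count. -/
structure Core (S : Sys G 𝔹) (u f : (ℕ → 𝔹) → 𝔹) : Prop where
  u_inv : ∀ g s, S.ρ g (u s) = u (fun n => S.ρ g (s n))
  u_mono : ∀ s t, (⨅ n, ⨅ _ : 0 < n, s n ⇨ t n) ⊓ u s ≤ u t
  u_inf : ∀ s t, u s ⊓ u t ≤ u (fun n => s n ⊓ t n)
  u_proper : ∀ s, u s ≤ ⨆ n, ⨆ _ : 0 < n, s n
  u_top : u (fun _ => ⊤) = ⊤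
  u_ultra : ∀ s, SymR S s → u s ⊔ u (fun n => (s n)ᶜ) = ⊤
  u_idem : ∀ s, u s ≤ u (fun n => u (fun m => s (m + n)))
  f_inv : ∀ g s, S.ρ g (f s) = f (fun n => S.ρ g (s n))
  f_mono : ∀ s t, (⨅ n, ⨅ _ : 0 < n, s n ⇨ t n) ⊓ f s ≤ f t
  f_inf : ∀ s t, f s ⊓ f t ≤ f (fun n => s n ⊓ t n)
  f_proper : ∀ s, f s ≤ ⨆ n, ⨆ _ : 0 < n, s n
  f_top : f (fun _ => ⊤) = ⊤
  f_shift : ∀ s k, f (fun m => s (m + k)) = f s
  kill : ∀ A ∈ S.F, ∀ W : (ℕ → 𝔹) → 𝔹,
    (∀ g ∈ A, ∀ s, SymR S s → S.ρ g (W s) = W (fun n => S.ρ g (s n))) →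
    ∀ b : 𝔹, (∀ s, SymR S s → b ≤ f s ⇨ W s) →
      (∀ s t, SymR S s → SymR S t → b ≤ W s ⊓ W t ⇨ W (fun n => s n ⊓ t n)) →
      (∀ s t, SymR S s → SymR S t → b ≤ (⨅ n, ⨅ _ : 0 < n, s n ⇨ t n) ⊓ W s ⇨ W t) →
      (∀ s, SymR S s → b ≤ W s ⇨ ⨆ n, ⨆ _ : 0 < n, s n) →
      (∀ s, SymR S s → b ≤ W s ⊔ W (fun n => (s n)ᶜ)) → b = ⊥

end Names

end Pool.Agent.SymZF
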