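import Pool.Agent.SymZF.PBasic

/-!
# Fusion (module II3 of `MP_257b8b_lc`)
-/

set_option autoImplicit false

namespace Pool.Agent.SymZF

namespace Fus

open PB

/-- `Q` agrees with `P` on the first `a` blocks of `A` and the first `b` blocks of `N`, and extends it
beyond. -/
structure R (a b : ℕ) (Q P : Cond) : Prop where
  hA : ∀ i < a, Q.A.b i = P.A.b i
  hN : ∀ j < b, Q.N.b j = P.N.b j
  tA : ∀ i, a ≤ i → Q.A.b i ∈ (P.A.tail a).FU
  tN : ∀ j, b ≤ j → Q.N.b j ∈ (P.N.tail b).FU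
  hE : Q.E = P.E
  hπ : ∀ e ∈ P.E, Q.π e - P.π e ∈ (P.N.tail b).span

theorem tail_tail_le (A : BlockSeq) {a a' : ℕ} (h : a ≤ a') : A.tail a' ≤ A.tail a := by
  intro i
  have h1 := BlockSeq.mem_FU_self (A.tail a) (i + a' - a)
  have h2 : (A.tail a).b (i + a' - a) = A.b (i + a') := by
    show A.b (i + a' - a + a) = A.b (i + a')
    rw [Nat.sub_add_cancel (by omega)]
  rw [h2] at h1
  exact h1

theorem mem_tail (A : BlockSeq) {a i : ℕ} (h : a ≤ i) : A.b i ∈ (A.tail a).FU := by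
  have h1 := BlockSeq.mem_FU_self (A.tail a) (i - a)
  have h2 : (A.tail a).b (i - a) = A.b i := by
    show A.b (i - a + a) = A.b i
    rw [Nat.sub_add_cancel h]
  rw [h2] at h1
  exact h1

theorem R.refl (a b : ℕ) (P : Cond) : R a b P P where
  hA _ _ := rfl
  hN _ _ := rfl
  tA _ h := mem_tail _ h
  tN _ h := mem_tail _ h
  hE := rfl
  hπ e _ := by rw [sub_self]; exact AddSubgroup.zero_mem _

theorem R.tailA {a b : ℕ} {Q P : Cond} (h : R a b Q P) : Q.A.tail a ≤ P.A.tail a :=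
  fun i => h.tA (i + a) (by omega)

theorem R.tailN {a b : ℕ} {Q P : Cond} (h : R a b Q P) : Q.N.tail b ≤ P.N.tail b :=
  fun i => h.tN (i + b) (by omega)

theorem R.weaken {a b a' b' : ℕ} {Q P : Cond} (ha : a ≤ a') (hb : b ≤ b') (h : R a' b' Q P) :
    R a b Q P where
  hA i hi := h.hA i (by omega)
  hN i hi := h.hN i (by omega)
  tA i hi := by
    by_cases h1 : i < a'
    · rw [h.hA i h1]
      exact mem_tail _ hi
    · exact BlockSeq.FU_mono (tail_tail_le _ ha) (h.tA i (by omega))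
  tN i hi := by
    by_cases h1 : i < b'
    · rw [h.hN i h1]
      exact mem_tail _ hi
    · exact BlockSeq.FU_mono (tail_tail_le _ hb) (h.tN i (by omega))
  hE := h.hE
  hπ e he := BlockSeq.span_mono (tail_tail_le _ hb) (h.hπ e he)

theorem R.trans {a b : ℕ} {Q' Q P : Cond} (h' : R a b Q' Q) (h : R a b Q P) : R a b Q' P where
  hA i hi := (h'.hA i hi).trans (h.hA i hi)
  hN i hi := (h'.hN i hi).trans (h.hN i hi)
  tA i hi := BlockSeq.FU_mono h.tailA (h'.tA i hi)
  tN i hi := BlockSeq.FU_mono h.tailN (h'.tN i hi)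
  hE := h'.hE.trans h.hE
  hπ e he := by
    have h1 := BlockSeq.span_mono h.tailN (h'.hπ e (by rw [h.hE]; exact he))
    have h2 := (P.N.tail b).span.add_mem h1 (h.hπ e he)
    rwa [sub_add_sub_cancel] at h2

theorem R.le {Q P : Cond} (h : R 0 0 Q P) : Q ≤ P := by
  refine ⟨fun i => h.tA i (Nat.zero_le _), fun i => h.tN i (Nat.zero_le _), ?_, fun e he => h.hπ e he⟩
  rw [h.hE]

theorem R.trunk_le {a b : ℕ} {Q P : Cond} (h : R a b Q P) (ξ : ℕ → ℕ → ZMod 2) :
    Q.trunk a b ξ ≤ P.trunk a b ξ := by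
  refine ⟨h.tailA, h.tailN, ?_, fun e he => ?_⟩
  · show P.E ⊆ Q.E
    rw [h.hE]
  · have h1 : (Q.trunk a b ξ).π e - (P.trunk a b ξ).π e = Q.π e - P.π e := by
      funext k
      rw [Pi.sub_apply, trunk_pi, trunk_pi, Pi.sub_apply]
      have h2 : ts Q.N b (fun j => ξ j e) k = ts P.N b (fun j => ξ j e) k := by
        unfold ts
        apply Finset.sum_congr rfl
        intro j hj
        rw [h.hN j (Finset.mem_range.1 hj)]
      rw [h2]
      ring
    rw [h1]
    exact h.hπ e he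

/-- the first `a` blocks of `A` followed by the blocks of `B` -/
def glue (A : BlockSeq) (a : ℕ) (B : BlockSeq) (h : B ≤ A.tail a) : BlockSeq where
  b i := if i < a then A.b i else B.b (i - a)
  ne i := by
    by_cases hi : i < a
    · rw [if_pos hi]; exact A.ne i
    · rw [if_neg hi]; exact B.ne _
  lt i j hij x hx y hy := by
    by_cases hj : j < a
    · rw [if_pos (by omega)] at hx
      rw [if_pos hj] at hy
      exact A.lt i j hij x hx y hy
    · rw [if_neg hj] at hy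
      by_cases hi : i < a
      · rw [if_pos hi] at hx
        obtain ⟨J, _, hJ⟩ := h (j - a)
        rw [hJ, Finset.mem_biUnion] at hy
        obtain ⟨k, _, hk⟩ := hy
        exact A.lt i (k + a) (by omega) x hx y hk
      · rw [if_neg hi] at hx
        exact B.lt _ _ (by omega) x hx y hy

theorem glue_lt (A : BlockSeq) (a : ℕ) (B : BlockSeq) (h : B ≤ A.tail a) {i : ℕ} (hi : i < a) :
    (glue A a B h).b i = A.b i := if_pos hi

theorem glue_ge (A : BlockSeq) (a : ℕ) (B : BlockSeq) (h : B ≤ A.tail a) {i : ℕ} (hi : a ≤ i) :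
    (glue A a B h).b i = B.b (i - a) := if_neg (not_lt.2 hi)

section

variable (E : Finset ℕ) (D : Cond → Finset ℕ → Bool → Prop)

/-- one task -/
theorem task (mono : ∀ r q t c, r ≤ q → D q t c → D r t c)
    (dens : ∀ q : Cond, q.E = E → ∀ t, ∃ r ≤ q, r.E = E ∧ ∃ c, D r t c) (n : ℕ)
    (P : Cond) (hP : P.E = E) (J : Finset ℕ) (hJ : J ⊆ Finset.range (n + 1))
    (ξ : ℕ → ℕ → ZMod 2) :
    ∃ Q, R (n + 1) n Q P ∧ ∃ c, D (Q.trunk (n + 1) n ξ) (J.biUnion Q.A.b) c := by
  obtain ⟨r, hr, hrE, c, hD⟩ := dens (P.trunk (n + 1) n ξ) hP (J.biUnion P.A.b)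
  obtain ⟨h1, h2, h3, h4⟩ := hr
  let Q : Cond := ⟨glue P.A (n + 1) r.A h1, glue P.N n r.N h2, E,
    fun e k => r.π e k - ts P.N n (fun j => ξ j e) k⟩
  have hR : R (n + 1) n Q P := by
    refine ⟨fun i hi => glue_lt _ _ _ h1 hi, fun i hi => glue_lt _ _ _ h2 hi, fun i hi => ?_,
      fun i hi => ?_, hP.symm, fun e he => ?_⟩
    · show (glue P.A (n + 1) r.A h1).b i ∈ _
      rw [glue_ge _ _ _ _ hi]
      exact h1 _
    · show (glue P.N n r.N h2).b i ∈ _
      rw [glue_ge _ _ _ _ hi]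
      exact h2 _
    · have h5 : Q.π e - P.π e = r.π e - (P.trunk (n + 1) n ξ).π e := by
        funext k
        show r.π e k - ts P.N n (fun j => ξ j e) k - P.π e k =
          r.π e k - (P.π e k + ts P.N n (fun j => ξ j e) k)
        ring
      rw [h5]
      exact h4 e he
  refine ⟨Q, hR, c, ?_⟩
  have h6 : J.biUnion Q.A.b = J.biUnion P.A.b := by
    apply Finset.biUnion_congr rfl
    intro j hj
    exact hR.hA j (Finset.mem_range.1 (hJ hj))
  rw [h6]
  refine mono _ _ _ _ ?_ hD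
  refine ⟨fun i => ?_, fun i => ?_, ?_, fun e _ => ?_⟩
  · show (glue P.A (n + 1) r.A h1).b (i + (n + 1)) ∈ _
    rw [glue_ge _ _ _ _ (by omega), Nat.add_sub_cancel]
    exact r.A.mem_FU_self i
  · show (glue P.N n r.N h2).b (i + n) ∈ _
    rw [glue_ge _ _ _ _ (by omega), Nat.add_sub_cancel]
    exact r.N.mem_FU_self i
  · rw [hrE]
    exact Finset.Subset.refl _
  · have h7 : (Q.trunk (n + 1) n ξ).π e - r.π e = 0 := by
      funext k
      rw [Pi.sub_apply, trunk_pi]
      have h8 : ts Q.N n (fun j => ξ j e) k = ts P.N n (fun j => ξ j e) k := by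
        unfold ts
        apply Finset.sum_congr rfl
        intro j hj
        rw [hR.hN j (Finset.mem_range.1 hj)]
      rw [h8]
      show r.π e k - ts P.N n (fun j => ξ j e) k + ts P.N n (fun j => ξ j e) k - r.π e k = 0
      ring
    rw [h7]
    exact AddSubgroup.zero_mem _

/-- finitely many tasks -/
theorem tasks (mono : ∀ r q t c, r ≤ q → D q t c → D r t c)
    (dens : ∀ q : Cond, q.E = E → ∀ t, ∃ r ≤ q, r.E = E ∧ ∃ c, D r t c) (n : ℕ)
    {ι : Type} (T : Finset ι) (J : ι → Finset ℕ) (ξ : ι → ℕ → ℕ → ZMod 2)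
    (hJ : ∀ i ∈ T, J i ⊆ Finset.range (n + 1)) (P : Cond) (hP : P.E = E) :
    ∃ Q, R (n + 1) n Q P ∧
      ∀ i ∈ T, ∃ c, D (Q.trunk (n + 1) n (ξ i)) ((J i).biUnion Q.A.b) c := by
  classical
  induction T using Finset.induction_on with
  | empty => exact ⟨P, R.refl _ _ _, fun i hi => absurd hi (Finset.notMem_empty i)⟩
  | insert a T _ ih =>
    obtain ⟨Q, hQ, hQD⟩ := ih fun i hi => hJ i (Finset.mem_insert_of_mem hi)
    obtain ⟨Q', hQ', hD⟩ := task E D mono dens n Q (hQ.hE.trans hP) (J a)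
      (hJ a (Finset.mem_insert_self a T)) (ξ a)
    refine ⟨Q', hQ'.trans hQ, fun i hi => ?_⟩
    rcases Finset.mem_insert.1 hi with rfl | hi
    · exact hD
    · obtain ⟨c, hc⟩ := hQD i hi
      refine ⟨c, ?_⟩
      have h6 : (J i).biUnion Q'.A.b = (J i).biUnion Q.A.b := by
        apply Finset.biUnion_congr rfl
        intro j hj
        exact hQ'.hA j (Finset.mem_range.1 (hJ i (Finset.mem_insert_of_mem hi) hj))
      rw [h6]
      exact mono _ _ _ _ (hQ'.trunk_le _) hc

/-- all tasks of stage `n` -/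
theorem stage (mono : ∀ r q t c, r ≤ q → D q t c → D r t c)
    (dens : ∀ q : Cond, q.E = E → ∀ t, ∃ r ≤ q, r.E = E ∧ ∃ c, D r t c) (n : ℕ)
    (P : Cond) (hP : P.E = E) :
    ∃ Q, R (n + 1) n Q P ∧ ∀ J : Finset ℕ, J ⊆ Finset.range (n + 1) → ∀ ξ : ℕ → ℕ → ZMod 2,
      ∃ c, D (Q.trunk (n + 1) n ξ) (J.biUnion Q.A.b) c := by
  classical
  let ext : (Fin n → {e // e ∈ E} → ZMod 2) → ℕ → ℕ → ZMod 2 := fun g j e =>
    if h : j < n ∧ e ∈ E then g ⟨j, h.1⟩ ⟨e, h.2⟩ else 0
  obtain ⟨Q, hQ, hD⟩ := tasks E D mono dens n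
    (ι := Finset ℕ × (Fin n → {e // e ∈ E} → ZMod 2))
    ((Finset.range (n + 1)).powerset ×ˢ Finset.univ) (fun i => i.1) (fun i => ext i.2)
    (fun i hi => by
      rw [Finset.mem_product, Finset.mem_powerset] at hi
      exact hi.1) P hP
  refine ⟨Q, hQ, fun J hJ ξ => ?_⟩
  obtain ⟨c, hc⟩ := hD (J, fun j e => ξ j e) (by
    rw [Finset.mem_product, Finset.mem_powerset]
    exact ⟨hJ, Finset.mem_univ _⟩)
  refine ⟨c, mono _ _ _ _ (trunk_congr Q (n + 1) n _ _ ?_) hc⟩
  intro j hj e he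
  rw [hQ.hE, hP] at he
  show ξ j e = if h : j < n ∧ e ∈ E then _ else 0
  rw [dif_pos ⟨hj, he⟩]

end

/-- The limit of a fusion sequence. -/
theorem limit (s : ℕ → Cond) (hs : ∀ n, R (n + 1) n (s (n + 1)) (s n)) :
    ∃ q : Cond, R 0 0 q (s 0) ∧ ∀ n, R (n + 1) n q (s (n + 1)) := by
  have hE : ∀ n, (s n).E = (s 0).E := by
    intro n
    induction n with
    | zero => rfl
    | succ n ih => exact (hs n).hE.trans ih
  -- composition
  have comp : ∀ a b n, a ≤ n + 1 → b ≤ n → ∀ d, R a b (s (n + d)) (s n) := by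
    intro a b n ha hb d
    induction d with
    | zero => exact R.refl _ _ _
    | succ d ih => exact ((hs (n + d)).weaken (by omega) (by omega)).trans ih
  have comp' : ∀ a b n m, a ≤ n + 1 → b ≤ n → n ≤ m → R a b (s m) (s n) := by
    intro a b n m ha hb hm
    have := comp a b n ha hb (m - n)
    rwa [Nat.add_sub_cancel' hm] at this
  -- stabilisation
  have cA : ∀ i m, i < m → (s m).A.b i = (s (i + 1)).A.b i := by
    intro i m hm
    exact (comp' (i + 1) 0 (i + 1) m (by omega) (by omega) (by omega)).hA i (by omega)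
  have cN : ∀ i m, i < m → (s m).N.b i = (s (i + 1)).N.b i := by
    intro i m hm
    exact (comp' 0 (i + 1) (i + 1) m (by omega) (by omega) (by omega)).hN i (by omega)
  have cπ : ∀ e ∈ (s 0).E, ∀ k m, k < m → (s m).π e k = (s (k + 1)).π e k := by
    intro e he k m hm
    have h1 := (comp' 0 (k + 1) (k + 1) m (by omega) (by omega) (by omega)).hπ e
      (by rw [hE]; exact he)
    have h2 := h1.1 k (by
      intro j hj
      have h3 : k ∈ (s (k + 1)).N.b (j + (k + 1)) := hj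
      have := le_of_mem_blk _ h3
      omega)
    rw [Pi.sub_apply] at h2
    exact sub_eq_zero.1 h2
  let qA : BlockSeq := ⟨fun i => (s (i + 1)).A.b i, fun i => (s (i + 1)).A.ne i, by
    intro i j hij x hx y hy
    rw [← cA i (j + 1) (by omega)] at hx
    exact (s (j + 1)).A.lt i j hij x hx y hy⟩
  let qN : BlockSeq := ⟨fun i => (s (i + 1)).N.b i, fun i => (s (i + 1)).N.ne i, by
    intro i j hij x hx y hy
    rw [← cN i (j + 1) (by omega)] at hx
    exact (s (j + 1)).N.lt i j hij x hx y hy⟩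
  let q : Cond := ⟨qA, qN, (s 0).E, fun e k => (s (k + 1)).π e k⟩
  have main : ∀ a b n, a ≤ n + 1 → b ≤ n → (∀ i < a, q.A.b i = (s n).A.b i) →
      (∀ i < b, q.N.b i = (s n).N.b i) → R a b q (s n) := by
    intro a b n ha hb hAa hNb
    refine ⟨hAa, hNb, fun i hi => ?_, fun i hi => ?_, (hE n).symm, fun e he => ?_⟩
    · show (s (i + 1)).A.b i ∈ _
      rw [← cA i (n + i + 1) (by omega)]
      exact (comp' a b n (n + i + 1) ha hb (by omega)).tA i hi
    · show (s (i + 1)).N.b i ∈ _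
      rw [← cN i (n + i + 1) (by omega)]
      exact (comp' a b n (n + i + 1) ha hb (by omega)).tN i hi
    · rw [hE] at he
      have key : ∀ k m, k < m → n ≤ m → (q.π e - (s n).π e) k = ((s m).π e - (s n).π e) k := by
        intro k m hk _
        rw [Pi.sub_apply, Pi.sub_apply, cπ e he k m hk]
      refine ⟨fun k hk => ?_, fun j k hk k' hk' => ?_⟩
      · rw [key k (n + k + 1) (by omega) (by omega)]
        exact ((comp' a b n (n + k + 1) ha hb (by omega)).hπ e (by rw [hE]; exact he)).1 k hk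
      · rw [key k (n + k + k' + 1) (by omega) (by omega),
          key k' (n + k + k' + 1) (by omega) (by omega)]
        exact ((comp' a b n (n + k + k' + 1) ha hb (by omega)).hπ e
          (by rw [hE]; exact he)).2 j k hk k' hk'
  refine ⟨q, main 0 0 0 (by omega) (by omega) (fun i hi => absurd hi (Nat.not_lt_zero i))
    (fun i hi => absurd hi (Nat.not_lt_zero i)), fun n => ?_⟩
  exact main (n + 1) n (n + 1) (by omega) (by omega)
    (fun i hi => (cA i (n + 1) (by omega)).symm) (fun i hi => (cN i (n + 1) (by omega)).symm)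

end Fus

open Fus

/-- fusion: the decision of a statement about a finite union of blocks with last block `n` depends only on
the letters at the first `n` blocks of `N` -/
theorem fusion (E : Finset ℕ) (D : Cond → Finset ℕ → Bool → Prop)
    (mono : ∀ r q t c, r ≤ q → D q t c → D r t c)
    (dens : ∀ q : Cond, q.E = E → ∀ t, ∃ r ≤ q, r.E = E ∧ ∃ c, D r t c) (p : Cond) (hp : p.E = E) :
    ∃ q ≤ p, q.E = E ∧ ∀ (J : Finset ℕ) (hJ : J.Nonempty) (ξ : ℕ → ℕ → ZMod 2),
      ∃ c, D (q.trunk (J.max' hJ + 1) (J.max' hJ) ξ) (J.biUnion q.A.b) c := by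
  have step : ∀ (n : ℕ) (P : {P : Cond // P.E = E}), ∃ Q : {Q : Cond // Q.E = E},
      R (n + 1) n Q.1 P.1 ∧ ∀ J : Finset ℕ, J ⊆ Finset.range (n + 1) →
        ∀ ξ : ℕ → ℕ → ZMod 2, ∃ c, D (Q.1.trunk (n + 1) n ξ) (J.biUnion Q.1.A.b) c := by
    rintro n ⟨P, hP⟩
    obtain ⟨Q, hQ, hD⟩ := stage E D mono dens n P hP
    exact ⟨⟨Q, hQ.hE.trans hP⟩, hQ, hD⟩
  choose f hf1 hf2 using step
  let s : ℕ → {P : Cond // P.E = E} := fun n => Nat.rec ⟨p, hp⟩ (fun n P => f n P) n
  have hs : ∀ n, s (n + 1) = f n (s n) := fun n => rfl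
  obtain ⟨q, hq0, hq⟩ := limit (fun n => (s n).1) (fun n => by
    show R (n + 1) n (s (n + 1)).1 (s n).1
    rw [hs]
    exact hf1 n (s n))
  refine ⟨q, hq0.le, hq0.hE.trans hp, fun J hJ ξ => ?_⟩
  set n := J.max' hJ with hn
  have hJn : J ⊆ Finset.range (n + 1) := by
    intro j hj
    rw [Finset.mem_range]
    have := J.le_max' j hj
    omega
  obtain ⟨c, hc⟩ := hf2 n (s n) J hJn ξ
  rw [← hs] at hc
  refine ⟨c, ?_⟩
  have h6 : J.biUnion q.A.b = J.biUnion (s (n + 1)).1.A.b := by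
    apply Finset.biUnion_congr rfl
    intro j hj
    exact (hq n).hA j (Finset.mem_range.1 (hJn hj))
  rw [h6]
  exact mono _ _ _ _ ((hq n).trunk_le ξ) hc

end Pool.Agent.SymZF
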