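import Pool.Agent.SymZF.Val
import Pool.Agent.BVM.Extens

/-!
# Hereditarily symmetric names: basic properties
-/

set_option autoImplicit false

namespace Pool.Agent.SymZF

open Pool.Agent.BVM Pool.Agent.StarHur

section Act

variable {𝔹 : Type}

theorem act_mk (r : 𝔹 → 𝔹) (ι : Type) (A : ι → BSet 𝔹) (B : ι → 𝔹) :
    act r ⟨ι, A, B⟩ = ⟨ι, fun i => act r (A i), fun i => r (B i)⟩ := rfl

theorem act_act (r s : 𝔹 → 𝔹) (x : BSet 𝔹) : act r (act s x) = act (fun b => r (s b)) x := by
  induction x with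
  | mk ι A B ih =>
    simp only [act_mk, ih]

theorem act_id (r : 𝔹 → 𝔹) (h : ∀ b, r b = b) (x : BSet 𝔹) : act r x = x := by
  induction x with
  | mk ι A B ih =>
    simp only [act_mk, ih, h]

end Act

variable {𝔹 : Type} [CompleteBooleanAlgebra 𝔹] {G : Type} [AddCommGroup G] {S : Sys G 𝔹}

theorem beq_act (r : 𝔹 ≃o 𝔹) (x y : BSet 𝔹) : beq (act r x) (act r y) = r (beq x y) := by
  induction x generalizing y with
  | mk ι A B ih =>
    cases y with
    | mk ι' A' B' =>
      simp only [act_mk, Basic.beq_mk, ih, OrderIso.map_inf, OrderIso.map_iInf, OrderIso.map_iSup,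
        map_himp]

theorem bmem_act (r : 𝔹 ≃o 𝔹) (x y : BSet 𝔹) : bmem (act r x) (act r y) = r (bmem x y) := by
  cases y with
  | mk ι A B =>
    show (⨆ i : ι, r (B i) ⊓ beq (act r x) (act r (A i))) = r (⨆ i : ι, B i ⊓ beq x (A i))
    simp only [beq_act, OrderIso.map_iSup, OrderIso.map_inf]

theorem act_comm (S : Sys G 𝔹) (g h : G) (x : BSet 𝔹) :
    act (S.ρ g) (act (S.ρ h) x) = act (S.ρ h) (act (S.ρ g) x) := by
  rw [act_act, act_act]
  congr 1
  funext b
  rw [← S.map_add, ← S.map_add, add_comm]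

theorem hs_act {x : BSet 𝔹} (h : HS S x) (g : G) : HS S (act (S.ρ g) x) := by
  induction h with
  | mk ι A B hs _ ih =>
    rw [act_mk]
    refine HS.mk ι _ _ ?_ ih
    rw [← act_mk]
    obtain ⟨C, hC, hs⟩ := hs
    refine ⟨C, hC, fun h hh => ?_⟩
    rw [act_comm, beq_act, hs h hh, OrderIso.map_top]

/-- action on hereditarily symmetric names -/
def hact (g : G) (x : HName S) : HName S := ⟨act (S.ρ g) x.1, hs_act x.2 g⟩

/-- the Boolean-valued structure of hereditarily symmetric names -/
def hstr (S : Sys G 𝔹) : BStr 𝔹 (HName S) where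
  eq := heq
  mem := hmem
  refl x := beq_refl x.1
  symm x y := beq_symm x.1 y.1
  trans x y z := beq_trans x.1 y.1 z.1
  congr_left x y z := bmem_congr_left x.1 y.1 z.1
  congr_right x y z := bmem_congr_right z.1 x.1 y.1

theorem heq_act (g : G) (x y : HName S) : heq (hact g x) (hact g y) = S.ρ g (heq x y) :=
  beq_act (S.ρ g) x.1 y.1

theorem hmem_act (g : G) (x y : HName S) : hmem (hact g x) (hact g y) = S.ρ g (hmem x y) :=
  bmem_act (S.ρ g) x.1 y.1

theorem hact_add (g h : G) (x : HName S) : hact (g + h) x = hact g (hact h x) := by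
  apply Subtype.ext
  show act (S.ρ (g + h)) x.1 = act (S.ρ g) (act (S.ρ h) x.1)
  rw [act_act]
  congr 1
  funext b
  exact S.map_add g h b

theorem hact_zero (x : HName S) : hact 0 x = x :=
  Subtype.ext (act_id _ S.map_zero x.1)

theorem hact_neg (g : G) (x : HName S) : hact g (hact (-g) x) = x := by
  rw [← hact_add, add_neg_cancel, hact_zero]

theorem hact_neg' (g : G) (x : HName S) : hact (-g) (hact g x) = x := by
  rw [← hact_add, neg_add_cancel, hact_zero]

theorem heq_act_add (g h : G) (x y : HName S) : heq (hact (g + h) x) y = heq (hact g (hact h x)) y := by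
  rw [hact_add]

theorem heq_act_zero (x y : HName S) : heq (hact 0 x) y = heq x y := by
  rw [hact_zero]

theorem sym_of_hs {x : BSet 𝔹} (h : HS S x) : Sym S x := by
  cases h with
  | mk ι A B hs hA => exact hs

theorem hs_fam {x : BSet 𝔹} (h : HS S x) (i : x.idx) : HS S (x.fam i) := by
  cases h with
  | mk ι A B hs hA => exact hA i

theorem exists_supp (x : HName S) : ∃ A ∈ S.F, ∀ g ∈ A, heq (hact g x) x = ⊤ := sym_of_hs x.2

/-- invariance of the Boolean values of formulas -/
theorem gval_act {n : ℕ} (φ : Fml n) (v : Fin n → HName S) (g : G) :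
    gval (hstr S) φ (fun i => hact g (v i)) = S.ρ g (gval (hstr S) φ v) := by
  induction φ with
  | bot => exact (OrderIso.map_bot _).symm
  | mem i j => exact hmem_act g (v i) (v j)
  | eq i j => exact heq_act g (v i) (v j)
  | imp φ ψ ih1 ih2 =>
    show gval (hstr S) φ _ ⇨ gval (hstr S) ψ _ = S.ρ g (gval (hstr S) φ v ⇨ gval (hstr S) ψ v)
    rw [ih1, ih2, map_himp]
  | all φ ih =>
    show (⨅ x : HName S, gval (hstr S) φ (Fin.cons x fun i => hact g (v i))) =
      S.ρ g (⨅ x : HName S, gval (hstr S) φ (Fin.cons x v))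
    rw [OrderIso.map_iInf]
    have h1 : ∀ x : HName S, S.ρ g (gval (hstr S) φ (Fin.cons x v)) =
        gval (hstr S) φ (Fin.cons (hact g x) fun i => hact g (v i)) := by
      intro x
      rw [← ih]
      congr 1
      funext i
      refine Fin.cases ?_ (fun k => ?_) i
      · simp only [Fin.cons_zero]
      · simp only [Fin.cons_succ]
    simp only [h1]
    have h2 : Function.Surjective (hact (S := S) g) := fun x => ⟨hact (-g) x, hact_neg g x⟩
    exact (h2.iInf_comp fun x => gval (hstr S) φ (Fin.cons x fun i => hact g (v i))).symm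

/-- elements of a name -/
def hfam (x : HName S) (i : x.1.idx) : HName S := ⟨x.1.fam i, hs_fam x.2 i⟩

theorem hmem_def (z x : HName S) : hmem z x = ⨆ i : x.1.idx, x.1.val i ⊓ heq z (hfam x i) :=
  bmem_def z.1 x.1

theorem val_le_hmem (x : HName S) (i : x.1.idx) : x.1.val i ≤ hmem (hfam x i) x := val_le_bmem x.1 i

theorem heq_refl (x : HName S) : heq x x = ⊤ := beq_refl x.1
theorem heq_symm (x y : HName S) : heq x y = heq y x := beq_symm x.1 y.1
theorem heq_trans (x y z : HName S) : heq x y ⊓ heq y z ≤ heq x z := beq_trans x.1 y.1 z.1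
theorem hmem_congr_left (x y z : HName S) : heq x y ⊓ hmem x z ≤ hmem y z := bmem_congr_left x.1 y.1 z.1
theorem hmem_congr_right (x y z : HName S) : heq y z ⊓ hmem x y ≤ hmem x z := bmem_congr_right x.1 y.1 z.1

end Pool.Agent.SymZF
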