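import Pool.Agent.SymZF.HBasic

/-!
# Construction of hereditarily symmetric names, extensionality and foundation
-/

set_option autoImplicit false

namespace Pool.Agent.SymZF

open Pool.Agent.BVM Pool.Agent.StarHur

variable {𝔹 : Type} [CompleteBooleanAlgebra 𝔹] {G : Type} [AddCommGroup G] {S : Sys G 𝔹}

namespace HMk

theorem heq_refl (x : HName S) : heq x x = ⊤ := beq_refl x.1

theorem heq_symm (x y : HName S) : heq x y = heq y x := beq_symm x.1 y.1

theorem heq_trans (x y z : HName S) : heq x y ⊓ heq y z ≤ heq x z := beq_trans x.1 y.1 z.1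

theorem hmem_congr_left (x y z : HName S) : heq x y ⊓ hmem x z ≤ hmem y z :=
  bmem_congr_left x.1 y.1 z.1

theorem hmem_congr_right (x y z : HName S) : heq y z ⊓ hmem x y ≤ hmem x z :=
  bmem_congr_right x.1 y.1 z.1

theorem heq_act_neg (g : G) (x y : HName S) : heq (hact g (hact (-g) x)) y = heq x y := by
  rw [← heq_act_add, add_neg_cancel, heq_act_zero]

theorem heq_act_neg' (g : G) (x y : HName S) : heq (hact (-g) (hact g x)) y = heq x y := by
  rw [← heq_act_add, neg_add_cancel, heq_act_zero]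

/-- a name whose value of equality with another one is `⊤` can be replaced by it -/
theorem heq_congr_right {x y : HName S} (h : heq x y = ⊤) (z : HName S) : heq z x = heq z y := by
  apply le_antisymm
  · have h1 := heq_trans z x y
    rwa [h, inf_top_eq] at h1
  · have h1 := heq_trans z y x
    rwa [heq_symm y x, h, inf_top_eq] at h1

theorem ext_congr {f : HName S → 𝔹} (hf : GExt (hstr S) f) {x y : HName S} (h : heq x y = ⊤) :
    f x = f y := by
  have h1 : heq x y ⊓ f x ≤ f y := hf x y
  have h2 : heq y x ⊓ f y ≤ f x := hf y x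
  rw [h, top_inf_eq] at h1
  rw [heq_symm y x, h, top_inf_eq] at h2
  exact le_antisymm h1 h2

theorem gext_mem_left (x : HName S) : GExt (hstr S) fun z => hmem z x :=
  fun a b => hmem_congr_left a b x

theorem gext_mem_right (x : HName S) : GExt (hstr S) fun z => hmem x z :=
  fun a b => hmem_congr_right x a b

theorem gext_eq_left (x : HName S) : GExt (hstr S) fun z => heq z x := by
  intro a b
  show heq a b ⊓ heq a x ≤ heq b x
  rw [heq_symm a b]
  exact heq_trans b a x

/-- every value at a name is a value at a translated name -/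
theorem act_surj {f : HName S → 𝔹} (hf : GExt (hstr S) f) (g : G) (w : HName S) :
    f (hact g (hact (-g) w)) = f w := by
  apply ext_congr hf
  rw [heq_act_neg, heq_refl]

/-- reindexing of suprema over all names by the action -/
theorem iSup_act {f : HName S → 𝔹} (hf : GExt (hstr S) f) (g : G) :
    (⨆ w, f (hact g w)) = ⨆ w, f w := by
  apply le_antisymm
  · exact iSup_le fun w => le_iSup f (hact g w)
  · refine iSup_le fun w => ?_
    rw [← act_surj hf g w]
    exact le_iSup (fun w => f (hact g w)) (hact (-g) w)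

theorem iInf_act {f : HName S → 𝔹} (hf : GExt (hstr S) f) (g : G) :
    (⨅ w, f (hact g w)) = ⨅ w, f w := by
  apply le_antisymm
  · refine le_iInf fun w => ?_
    rw [← act_surj hf g w]
    exact iInf_le (fun w => f (hact g w)) (hact (-g) w)
  · exact le_iInf fun w => iInf_le f (hact g w)

/-- the action on a value of equality with an invariant name -/
theorem act_heq {g : G} {x : HName S} (h : heq (hact g x) x = ⊤) (z : HName S) :
    S.ρ g (heq z x) = heq (hact g z) x := by
  rw [← heq_act, heq_congr_right h]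

/-- the action on a value of membership in an invariant name -/
theorem act_hmem {g : G} {x : HName S} (h : heq (hact g x) x = ⊤) (z : HName S) :
    S.ρ g (hmem z x) = hmem (hact g z) x := by
  rw [← hmem_act]
  exact ext_congr (gext_mem_right (hact g z)) h

theorem sym_mk {ι : Type} (X : ι → HName S) (b : ι → 𝔹) (A : AddSubgroup G) (hA : A ∈ S.F)
    (h : ∀ g ∈ A, ∀ z : HName S, S.ρ g (⨆ i, b i ⊓ heq z (X i)) = ⨆ i, b i ⊓ heq (hact g z) (X i)) :
    Sym S ⟨ι, fun i => (X i).1, b⟩ := by
  refine ⟨A, hA, fun g hg => ?_⟩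
  rw [beq_def, eq_top_iff]
  refine le_inf (le_iInf fun i => ?_) (le_iInf fun j => ?_)
  · rw [le_himp_iff, top_inf_eq]
    show S.ρ g (b i) ≤ ⨆ j : ι, b j ⊓ heq (hact g (X i)) (X j)
    rw [← h g hg]
    refine (S.ρ g).monotone (le_trans ?_ (le_iSup (fun j => b j ⊓ heq (X i) (X j)) i))
    rw [heq_refl, inf_top_eq]
  · rw [le_himp_iff, top_inf_eq]
    show b j ≤ ⨆ i : ι, S.ρ g (b i) ⊓ heq (X j) (hact g (X i))
    have h1 : ∀ i : ι, S.ρ g (b i) ⊓ heq (X j) (hact g (X i)) =
        S.ρ g (b i ⊓ heq (hact (-g) (X j)) (X i)) := by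
      intro i
      rw [map_inf, ← heq_act, heq_act_neg]
    rw [iSup_congr h1, ← OrderIso.map_iSup, h g hg]
    have h2 : ∀ i : ι, b i ⊓ heq (hact g (hact (-g) (X j))) (X i) = b i ⊓ heq (X j) (X i) := by
      intro i
      rw [heq_act_neg]
    rw [iSup_congr h2]
    refine le_trans ?_ (le_iSup (fun i => b i ⊓ heq (X j) (X i)) j)
    rw [heq_refl, inf_top_eq]

end HMk

/-- a name made of hereditarily symmetric names is hereditarily symmetric if its membership function is
invariant -/
theorem exists_mk {ι : Type} (X : ι → HName S) (b : ι → 𝔹) (A : AddSubgroup G) (hA : A ∈ S.F)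
    (h : ∀ g ∈ A, ∀ z : HName S, S.ρ g (⨆ i, b i ⊓ heq z (X i)) = ⨆ i, b i ⊓ heq (hact g z) (X i)) :
    ∃ y : HName S, ∀ z, hmem z y = ⨆ i, b i ⊓ heq z (X i) :=
  ⟨⟨⟨ι, fun i => (X i).1, b⟩, HS.mk ι _ b (HMk.sym_mk X b A hA h) fun i => (X i).2⟩, fun _ => rfl⟩

/-- every name is of this form -/
theorem exists_small (y : HName S) : ∃ (ι : Type) (X : ι → HName S) (b : ι → 𝔹),
    ∀ z, hmem z y = ⨆ i, b i ⊓ heq z (X i) := by
  obtain ⟨y, hy⟩ := y
  cases hy with
  | mk ι A B h hA => exact ⟨ι, fun i => ⟨A i, hA i⟩, B, fun _ => rfl⟩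

/-- extensionality -/
theorem heq_eq_iInf (x y : HName S) : heq x y = ⨅ z : HName S, biff (hmem z x) (hmem z y) := by
  apply le_antisymm
  · refine le_iInf fun z => le_inf ?_ ?_
    · rw [le_himp_iff]
      exact HMk.hmem_congr_right _ _ _
    · rw [le_himp_iff, HMk.heq_symm x y]
      exact HMk.hmem_congr_right _ _ _
  · obtain ⟨x, hx⟩ := x
    obtain ⟨y, hy⟩ := y
    show _ ≤ beq x y
    cases hx with
    | mk ι A B h hA =>
      cases hy with
      | mk ι' A' B' h' hA' =>
        rw [beq_def]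
        refine le_inf (le_iInf fun i => ?_) (le_iInf fun j => ?_)
        · refine (iInf_le _ (⟨A i, hA i⟩ : HName S)).trans (inf_le_left.trans ?_)
          exact himp_le_himp_right (val_le_bmem (⟨ι, A, B⟩ : BSet 𝔹) i)
        · refine (iInf_le _ (⟨A' j, hA' j⟩ : HName S)).trans (inf_le_right.trans ?_)
          exact himp_le_himp_right (val_le_bmem (⟨ι', A', B'⟩ : BSet 𝔹) j)

/-- foundation -/
theorem h_found (x y : HName S) :
    hmem y x ≤ ⨆ y' : HName S, hmem y' x ⊓ ⨅ z : HName S, (hmem z x ⇨ (hmem z y')ᶜ) := by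
  obtain ⟨y, hy⟩ := y
  induction hy with
  | mk ι A B h hA ih =>
    set b : 𝔹 := ⨆ y' : HName S, hmem y' x ⊓ ⨅ z : HName S, (hmem z x ⇨ (hmem z y')ᶜ) with hb
    set y : HName S := ⟨BSet.mk ι A B, HS.mk ι A B h hA⟩ with hy
    have h1 : ∀ z : HName S, hmem z x ⊓ hmem z y ≤ b := by
      intro z
      have h0 : hmem z y = ⨆ j : ι, B j ⊓ heq z ⟨A j, hA j⟩ := rfl
      rw [h0, inf_iSup_eq]
      refine iSup_le fun j => ?_
      have h2 : hmem z x ⊓ (B j ⊓ heq z ⟨A j, hA j⟩) ≤ hmem ⟨A j, hA j⟩ x := by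
        refine le_trans ?_ (HMk.hmem_congr_left z ⟨A j, hA j⟩ x)
        exact le_inf (inf_le_right.trans inf_le_right) inf_le_left
      exact h2.trans (ih j)
    have h3 : hmem y x ⊓ bᶜ ≤ b := by
      refine le_trans ?_ (le_iSup (fun y' : HName S => hmem y' x ⊓ ⨅ z : HName S,
        (hmem z x ⇨ (hmem z y')ᶜ)) y)
      refine le_inf inf_le_left (le_iInf fun z => ?_)
      rw [le_himp_iff, le_compl_iff_disjoint_right, disjoint_iff]
      have h4 : hmem y x ⊓ bᶜ ⊓ hmem z x ⊓ hmem z y ≤ b ⊓ bᶜ := by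
        refine le_inf (le_trans ?_ (h1 z)) ?_
        · exact le_inf (inf_le_left.trans inf_le_right) inf_le_right
        · exact inf_le_left.trans (inf_le_left.trans inf_le_right)
      rw [inf_compl_self] at h4
      exact le_bot_iff.1 h4
    have h5 : hmem y x ⊓ bᶜ ≤ ⊥ := by
      rw [← inf_compl_self b]
      exact le_inf h3 inf_le_right
    rw [← compl_compl b, le_compl_iff_disjoint_right, disjoint_iff]
    exact le_bot_iff.1 h5

namespace HMk

/-- an extensional invariant function which lives on a small family of names is a name -/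
theorem exists_of_cover {ι : Type} (X : ι → HName S) (f : HName S → 𝔹) (hf : GExt (hstr S) f)
    (A : AddSubgroup G) (hA : A ∈ S.F) (hi : ∀ g ∈ A, ∀ z, S.ρ g (f z) = f (hact g z))
    (hc : ∀ z, f z ≤ ⨆ i, heq z (X i)) : ∃ y : HName S, ∀ z, hmem z y = f z := by
  have h1 : ∀ z, (⨆ i, f (X i) ⊓ heq z (X i)) = f z := by
    intro z
    apply le_antisymm
    · refine iSup_le fun i => ?_
      have h2 : heq (X i) z ⊓ f (X i) ≤ f z := hf (X i) z
      rw [heq_symm z, inf_comm]
      exact h2
    · have h2 : f z ≤ f z ⊓ ⨆ i, heq z (X i) := le_inf le_rfl (hc z)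
      refine h2.trans ?_
      rw [inf_iSup_eq]
      refine iSup_mono fun i => le_inf ?_ inf_le_right
      have h3 : heq z (X i) ⊓ f z ≤ f (X i) := hf z (X i)
      rw [inf_comm]
      exact h3
  obtain ⟨y, hy⟩ := exists_mk X (fun i => f (X i)) A hA (by
    intro g hg z
    rw [h1, h1, hi g hg])
  exact ⟨y, fun z => (hy z).trans (h1 z)⟩

end HMk

end Pool.Agent.SymZF
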