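import Pool.Agent.SymZF.FmlTools

/-!
# A countable two-valued model of the theory of a Boolean-valued structure
-/

set_option autoImplicit false

namespace Pool.Agent.SymZF

open Pool.Agent.BVM Pool.Agent.StarHur

namespace Henkin

/-- Code of a formula. -/
def code : {n : ℕ} → Fml n → ℕ
  | _, .bot => Nat.pair 0 0
  | _, .mem i j => Nat.pair 1 (Nat.pair i j)
  | _, .eq i j => Nat.pair 2 (Nat.pair i j)
  | _, .imp φ ψ => Nat.pair 3 (Nat.pair (code φ) (code ψ))
  | _, .all φ => Nat.pair 4 (code φ)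

lemma code_inj {n : ℕ} (φ ψ : Fml n) (h : code φ = code ψ) : φ = ψ := by
  induction φ with
  | bot => cases ψ <;> simp [code, Nat.pair_eq_pair] at h ⊢
  | mem i j =>
    cases ψ <;> simp [code, Nat.pair_eq_pair] at h ⊢
    exact ⟨Fin.ext h.1, Fin.ext h.2⟩
  | eq i j =>
    cases ψ <;> simp [code, Nat.pair_eq_pair] at h ⊢
    exact ⟨Fin.ext h.1, Fin.ext h.2⟩
  | imp φ₁ φ₂ h1 h2 =>
    cases ψ <;> simp [code, Nat.pair_eq_pair] at h ⊢
    exact ⟨h1 _ h.1, h2 _ h.2⟩
  | all φ h1 =>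
    cases ψ <;> simp [code, Nat.pair_eq_pair] at h ⊢
    exact h1 _ h

instance (n : ℕ) : Countable (Fml n) := ⟨⟨code, fun φ ψ h => code_inj φ ψ h⟩⟩

/-- A request: a formula together with an assignment. -/
abbrev Req : Type := Σ n : ℕ, Fml n × (Fin n → ℕ)

lemma exists_enum : ∃ f : ℕ → Req, ∀ r, ∀ k, ∃ l, k ≤ l ∧ f l = r := by
  have : Nonempty Req := ⟨⟨0, .bot, fun _ => 0⟩⟩
  obtain ⟨g, hg⟩ := exists_surjective_nat Req
  refine ⟨fun l => g (Nat.unpair l).1, fun r k => ?_⟩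
  obtain ⟨a, ha⟩ := hg r
  refine ⟨Nat.pair a k, Nat.right_le_pair a k, ?_⟩
  simp [Nat.unpair_pair, ha]

section

variable {𝔹 : Type} [CompleteBooleanAlgebra 𝔹] {H : Type 1} [Nonempty H] (B : BStr 𝔹 H)

omit [Nonempty H] in
/-- One step of the construction. -/
lemma step (k : ℕ) (r : Req) (b : 𝔹) (hb : b ≠ ⊥) (x : ℕ → H) :
    ∃ (b' : 𝔹) (x' : ℕ → H), b' ≤ b ∧ b' ≠ ⊥ ∧ (∀ i < k, x' i = x i) ∧
      (b' ≤ gval B r.2.1 (fun i => x (r.2.2 i)) ∨
        (b' ≤ (gval B r.2.1 (fun i => x (r.2.2 i)))ᶜ ∧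
          ∀ ψ : Fml (r.1 + 1), r.2.1 = .all ψ →
            b' ≤ (gval B ψ (Fin.cons (x' k) (fun i => x (r.2.2 i)) : Fin (r.1 + 1) → H))ᶜ)) := by
  classical
  obtain ⟨n, φ, v⟩ := r
  dsimp only
  set β := gval B φ (fun i => x (v i)) with hβ
  by_cases h : b ≤ β
  · exact ⟨b, x, le_rfl, hb, fun _ _ => rfl, Or.inl h⟩
  · have hne : b ⊓ βᶜ ≠ ⊥ := by
      intro hbot
      apply h
      rw [← disjoint_iff, disjoint_compl_right_iff] at hbot
      exact hbot
    by_cases hall : ∃ ψ : Fml (n + 1), φ = .all ψ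
    · obtain ⟨ψ, rfl⟩ := hall
      have h1 : b ⊓ βᶜ = ⨆ z : H, b ⊓ βᶜ ⊓ (gval B ψ (Fin.cons z (fun i => x (v i)) :
          Fin (n + 1) → H))ᶜ := by
        rw [← inf_iSup_eq]
        have : (⨆ z : H, (gval B ψ (Fin.cons z (fun i => x (v i)) : Fin (n + 1) → H))ᶜ) = βᶜ := by
          rw [hβ]
          simp only [gval]
          rw [compl_iInf]
        rw [this, inf_assoc, inf_idem]
      have h2 : ∃ z : H, b ⊓ βᶜ ⊓ (gval B ψ (Fin.cons z (fun i => x (v i)) :
          Fin (n + 1) → H))ᶜ ≠ ⊥ := by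
        by_contra hcon
        push Not at hcon
        apply hne
        rw [h1]
        simp only [hcon, iSup_bot]
      obtain ⟨z, hz⟩ := h2
      refine ⟨_, Function.update x k z, inf_le_left.trans inf_le_left, hz, ?_, Or.inr ⟨?_, ?_⟩⟩
      · intro i hi
        rw [Function.update_of_ne (by omega)]
      · exact inf_le_left.trans inf_le_right
      · intro ψ' hψ'
        have : ψ = ψ' := by
          have := hψ'
          simpa using this
        subst this
        rw [Function.update_self]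
        exact inf_le_right
    · refine ⟨_, x, inf_le_left, hne, fun _ _ => rfl, Or.inr ⟨inf_le_right, ?_⟩⟩
      intro ψ hψ
      exact absurd ⟨ψ, hψ⟩ hall

/-- The generic sequence. -/
lemma exists_generic [Nontrivial 𝔹] : ∃ (b : ℕ → 𝔹) (x : ℕ → H), Antitone b ∧ (∀ k, b k ≠ ⊥) ∧
    ∀ (n : ℕ) (φ : Fml n) (v : Fin n → ℕ),
      (∃ k, b k ≤ gval B φ (fun i => x (v i))) ∨
      ((∃ k, b k ≤ (gval B φ (fun i => x (v i)))ᶜ) ∧ ∀ ψ : Fml (n + 1), φ = .all ψ →
        ∃ k m, b k ≤ (gval B ψ (Fin.cons (x m) (fun i => x (v i)) : Fin (n + 1) → H))ᶜ) := by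
  classical
  obtain ⟨f, hf⟩ := exists_enum
  choose nb nx h1 h2 h3 h4 using step B
  -- the states
  let St : Type 1 := {b : 𝔹 // b ≠ ⊥} × (ℕ → H)
  let S : ℕ → St := fun k => Nat.rec (⟨⟨⊤, top_ne_bot⟩, fun _ => Classical.arbitrary H⟩ : St)
    (fun k s => (⟨⟨nb k (f k) s.1.1 s.1.2 s.2, h2 k (f k) s.1.1 s.1.2 s.2⟩,
      nx k (f k) s.1.1 s.1.2 s.2⟩ : St)) k
  have hS : ∀ k, S (k + 1) = (⟨⟨nb k (f k) (S k).1.1 (S k).1.2 (S k).2, h2 k (f k) _ _ _⟩,
      nx k (f k) (S k).1.1 (S k).1.2 (S k).2⟩ : St) := fun k => rfl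
  have hb : ∀ k, (S (k + 1)).1.1 = nb k (f k) (S k).1.1 (S k).1.2 (S k).2 := fun k => by rw [hS k]
  have hx : ∀ k, (S (k + 1)).2 = nx k (f k) (S k).1.1 (S k).1.2 (S k).2 := fun k => by rw [hS k]
  have hle : ∀ k, (S (k + 1)).1.1 ≤ (S k).1.1 := fun k => by rw [hb]; exact h1 _ _ _ _ _
  have hst : ∀ i k, i < k → (S k).2 i = (S (i + 1)).2 i := by
    intro i k hik
    induction k with
    | zero => omega
    | succ k ih =>
      rcases Nat.lt_or_ge i k with h | h
      · rw [hx, h3 k (f k) _ _ _ i h, ih h]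
      · obtain rfl : i = k := by omega
        rfl
  refine ⟨fun k => (S k).1.1, fun i => (S (i + 1)).2 i, antitone_nat_of_succ_le hle,
    fun k => (S k).1.2, ?_⟩
  intro n φ v
  -- a stage after all the values of `v`
  obtain ⟨N, hN⟩ : ∃ N, ∀ i, v i < N := by
    refine ⟨(Finset.univ.sup v) + 1, fun i => Nat.lt_succ_of_le (Finset.le_sup (Finset.mem_univ i))⟩
  obtain ⟨k, hk, hfk⟩ := hf ⟨n, φ, v⟩ N
  have hxv : (fun i => (S (v i + 1)).2 (v i)) = fun i => (S k).2 (v i) := by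
    funext i
    rw [hst (v i) k (lt_of_lt_of_le (hN i) hk)]
  have h5 := h4 k (f k) (S k).1.1 (S k).1.2 (S k).2
  rw [← hb, ← hx, hfk] at h5
  dsimp only at h5 ⊢
  rw [hxv]
  rcases h5 with h5 | ⟨h5, h6⟩
  · exact Or.inl ⟨k + 1, h5⟩
  · exact Or.inr ⟨⟨k + 1, h5⟩, fun ψ hψ => ⟨k + 1, k, h6 ψ hψ⟩⟩

end

end Henkin

open Henkin in
theorem henkin {𝔹 : Type} [CompleteBooleanAlgebra 𝔹] [Nontrivial 𝔹] {H : Type 1} [Nonempty H]
    (B : BStr 𝔹 H) : ∃ (M : Type) (E : M → M → Prop) (nm : M → H), ∀ (n : ℕ) (φ : Fml n) (v : Fin n → M),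
      gval B φ (fun i => nm (v i)) = ⊤ → Sat E φ v := by
  classical
  obtain ⟨b, x, hanti, hne, hgen⟩ := exists_generic B
  -- no contradictions
  have hcons : ∀ β : 𝔹, (∃ k, b k ≤ β) → (∃ k, b k ≤ βᶜ) → False := by
    rintro β ⟨k, hk⟩ ⟨l, hl⟩
    apply hne (max k l)
    rw [eq_bot_iff, ← inf_compl_eq_bot (a := β)]
    exact le_inf ((hanti (le_max_left k l)).trans hk) ((hanti (le_max_right k l)).trans hl)
  have hinf : ∀ β γ : 𝔹, (∃ k, b k ≤ β) → (∃ k, b k ≤ γ) → ∃ k, b k ≤ β ⊓ γ := by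
    rintro β γ ⟨k, hk⟩ ⟨l, hl⟩
    exact ⟨max k l, le_inf ((hanti (le_max_left k l)).trans hk) ((hanti (le_max_right k l)).trans hl)⟩
  let st : Setoid ℕ :=
    { r := fun i j => ∃ k, b k ≤ B.eq (x i) (x j)
      iseqv := ⟨fun i => ⟨0, by rw [B.refl]; exact le_top⟩,
        fun {i j} h => by
          obtain ⟨k, hk⟩ := h
          exact ⟨k, by rw [B.symm]; exact hk⟩,
        fun {i j l} h h' => by
          obtain ⟨k, hk⟩ := hinf _ _ h h'
          exact ⟨k, hk.trans (B.trans _ _ _)⟩⟩ }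
  let M : Type := Quotient st
  let nm : M → H := fun a => x a.out
  let E : M → M → Prop := fun a c => ∃ k, b k ≤ B.mem (nm a) (nm c)
  have truth : ∀ (n : ℕ) (φ : Fml n) (v : Fin n → M),
      Sat E φ v ↔ ∃ k, b k ≤ gval B φ (fun i => nm (v i)) := by
    intro n φ
    induction φ with
    | bot =>
      intro v
      simp only [Sat, gval]
      refine ⟨False.elim, ?_⟩
      rintro ⟨k, hk⟩
      exact hne k (le_bot_iff.1 hk)
    | mem i j => intro v; exact Iff.rfl
    | eq i j =>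
      intro v
      simp only [Sat, gval]
      constructor
      · intro h
        rw [h]
        exact ⟨0, by rw [B.refl]; exact le_top⟩
      · intro h
        have h' : (v i).out ≈ (v j).out := h
        rw [← Quotient.out_eq (v i), ← Quotient.out_eq (v j)]
        exact Quotient.sound h'
    | imp φ ψ h1 h2 =>
      intro v
      simp only [Sat, gval]
      rw [h1, h2]
      constructor
      · intro h
        rcases hgen _ φ (fun i => (v i).out) with hφ | ⟨⟨k, hk⟩, -⟩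
        · obtain ⟨k, hk⟩ := h hφ
          exact ⟨k, hk.trans le_himp⟩
        · refine ⟨k, hk.trans ?_⟩
          rw [himp_eq]
          exact le_sup_right
      · intro h h'
        obtain ⟨k, hk⟩ := hinf _ _ h h'
        exact ⟨k, hk.trans himp_inf_le⟩
    | all φ h =>
      intro v
      have hcons' : ∀ a : M, (fun i => nm ((Fin.cons a v : Fin (_ + 1) → M) i)) =
          (Fin.cons (nm a) (fun i => nm (v i)) : Fin (_ + 1) → H) := by
        intro a
        funext i
        refine Fin.cases rfl (fun _ => rfl) i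
      simp only [Sat]
      constructor
      · intro hall
        rcases hgen _ (.all φ) (fun i => (v i).out) with hφ | ⟨-, hφ⟩
        · exact hφ
        · exfalso
          obtain ⟨k, m, hk⟩ := hφ φ rfl
          -- the class of `m`
          let a : M := Quotient.mk st m
          have h1 := (h (Fin.cons a v)).1 (hall a)
          rw [hcons'] at h1
          have h2 : ∃ k, b k ≤ B.eq (nm a) (x m) := by
            have : (Quotient.mk st m).out ≈ m := Quotient.mk_out m
            exact this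
          obtain ⟨l, hl⟩ := hinf _ _ h2 h1
          refine hcons (gval B φ (Fin.cons (x m) (fun i => nm (v i)))) ⟨l, hl.trans ?_⟩ ⟨k, hk⟩
          refine le_trans ?_ (gval_ext B φ (Fin.cons (nm a) (fun i => nm (v i)))
            (Fin.cons (x m) (fun i => nm (v i))))
          refine inf_le_inf_right _ (le_iInf fun i => ?_)
          refine Fin.cases ?_ (fun j => ?_) i
          · simp only [Fin.cons_zero]
            exact le_rfl
          · simp only [Fin.cons_succ, B.refl]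
            exact le_top
      · rintro ⟨k, hk⟩ a
        rw [h, hcons']
        exact ⟨k, hk.trans (iInf_le _ (nm a))⟩
  refine ⟨M, E, nm, fun n φ v hv => (truth n φ v).2 ⟨0, ?_⟩⟩
  rw [hv]
  exact le_top

end Pool.Agent.SymZF
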