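import Pool.Agent.SymZF.POrder

/-!
# Trunks of conditions (module II2 of `MP_257b8b_lc`)
-/

set_option autoImplicit false

namespace Pool.Agent.SymZF

namespace PB

theorem blk_unique (A : BlockSeq) {i j x : ℕ} (hi : x ∈ A.b i) (hj : x ∈ A.b j) : i = j := by
  by_contra hne
  rcases lt_or_gt_of_ne hne with h' | h'
  · exact lt_irrefl _ (A.lt i j h' x hi x hj)
  · exact lt_irrefl _ (A.lt j i h' x hj x hi)

theorem le_of_mem_blk (A : BlockSeq) : ∀ {i x : ℕ}, x ∈ A.b i → i ≤ x := by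
  intro i
  induction i with
  | zero => intro x _; exact Nat.zero_le _
  | succ i ih =>
    intro x hx
    obtain ⟨y, hy⟩ := A.ne i
    have h1 := ih hy
    have h2 := A.lt i (i + 1) (Nat.lt_succ_self i) y hy x hx
    omega

/-- the function with value `c j` on block `j`, for `j < n` -/
def ts (N : BlockSeq) (n : ℕ) (c : ℕ → ZMod 2) (k : ℕ) : ZMod 2 :=
  ∑ j ∈ Finset.range n, if k ∈ N.b j then c j else 0

theorem ts_of_mem (N : BlockSeq) {n : ℕ} (c : ℕ → ZMod 2) {k j : ℕ} (hk : k ∈ N.b j) (hj : j < n) :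
    ts N n c k = c j := by
  unfold ts
  rw [Finset.sum_eq_single j]
  · rw [if_pos hk]
  · intro i _ hij
    rw [if_neg]
    intro hki
    exact hij (blk_unique N hki hk)
  · intro h
    exact absurd (Finset.mem_range.2 hj) h

theorem ts_of_not_mem (N : BlockSeq) {n : ℕ} (c : ℕ → ZMod 2) {k : ℕ} (hk : ∀ j < n, k ∉ N.b j) :
    ts N n c k = 0 := by
  unfold ts
  apply Finset.sum_eq_zero
  intro j hj
  rw [if_neg (hk j (Finset.mem_range.1 hj))]

theorem ts_mem_span (N : BlockSeq) (n : ℕ) (c : ℕ → ZMod 2) : ts N n c ∈ N.span := by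
  refine ⟨fun k hk => ts_of_not_mem N c fun j _ => hk j, fun j k hk k' hk' => ?_⟩
  by_cases hj : j < n
  · rw [ts_of_mem N c hk hj, ts_of_mem N c hk' hj]
  · rw [ts_of_not_mem N c, ts_of_not_mem N c]
    · intro i hi h
      have := blk_unique N h hk'
      omega
    · intro i hi h
      have := blk_unique N h hk
      omega

theorem trunk_pi (q : Cond) (m n : ℕ) (ξ : ℕ → ℕ → ZMod 2) (e k : ℕ) :
    (q.trunk m n ξ).π e k = q.π e k + ts q.N n (fun j => ξ j e) k := rfl

/-- the `i`-th block of a condensation only uses blocks with index at least `i` -/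
theorem le_of_condense {B A : BlockSeq} (h : B ≤ A) : ∀ (i : ℕ) (J : Finset ℕ),
    B.b i = J.biUnion A.b → ∀ j ∈ J, i ≤ j := by
  intro i
  induction i with
  | zero => intro _ _ j _; exact Nat.zero_le _
  | succ i ih =>
    intro J hJ j hj
    obtain ⟨K, ⟨k, hk⟩, hK⟩ := h i
    have h1 := ih K hK k hk
    obtain ⟨x, hx⟩ := A.ne k
    obtain ⟨y, hy⟩ := A.ne j
    have hx' : x ∈ B.b i := by rw [hK]; exact Finset.mem_biUnion.2 ⟨k, hk, hx⟩
    have hy' : y ∈ B.b (i + 1) := by rw [hJ]; exact Finset.mem_biUnion.2 ⟨j, hj, hy⟩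
    have hlt := B.lt i (i + 1) (Nat.lt_succ_self i) x hx' y hy'
    have hkj : k < j := by
      by_contra hcon
      rcases lt_or_eq_of_le (not_lt.1 hcon) with h' | h'
      · have := A.lt j k h' y hy x hx
        omega
      · subst h'
        obtain ⟨z, hz⟩ := A.ne j
        have h2 := B.lt i (i + 1) (Nat.lt_succ_self i) z
          (by rw [hK]; exact Finset.mem_biUnion.2 ⟨j, hk, hz⟩) z
          (by rw [hJ]; exact Finset.mem_biUnion.2 ⟨j, hj, hz⟩)
        omega
    omega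

theorem mem_tail_FU (A : BlockSeq) (m : ℕ) (J : Finset ℕ) (hJ : J.Nonempty) (h : ∀ j ∈ J, m ≤ j) :
    J.biUnion A.b ∈ (A.tail m).FU := by
  apply BlockSeq.FU_biUnion _ J hJ
  intro j hj
  have h1 := BlockSeq.mem_FU_self (A.tail m) (j - m)
  have h2 : (A.tail m).b (j - m) = A.b j := by
    show A.b (j - m + m) = A.b j
    rw [Nat.sub_add_cancel (h j hj)]
  rw [h2] at h1
  exact h1

theorem tail_mono {B A : BlockSeq} (h : B ≤ A) (m : ℕ) : B.tail m ≤ A.tail m := by
  intro i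
  obtain ⟨J, hJ, hJ'⟩ := h (i + m)
  have h1 := le_of_condense h (i + m) J hJ'
  show B.b (i + m) ∈ (A.tail m).FU
  rw [hJ']
  exact mem_tail_FU A m J hJ fun j hj => by have := h1 j hj; omega

theorem mem_tail_span (N : BlockSeq) (n : ℕ) {z : ℕ → ZMod 2} (hz : z ∈ N.span)
    (h : ∀ j < n, ∀ k ∈ N.b j, z k = 0) : z ∈ (N.tail n).span := by
  refine ⟨fun k hk => ?_, fun j k hk k' hk' => hz.2 (j + n) k hk k' hk'⟩
  by_cases hj : ∃ j, k ∈ N.b j
  · obtain ⟨j, hj⟩ := hj
    by_cases hjn : j < n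
    · exact h j hjn k hj
    · exfalso
      apply hk (j - n)
      show k ∈ N.b (j - n + n)
      rw [Nat.sub_add_cancel (not_lt.1 hjn)]
      exact hj
  · push Not at hj
    exact hz.1 k hj

end PB

open PB

theorem trunk_le (q : Cond) (m n : ℕ) (ξ : ℕ → ℕ → ZMod 2) : q.trunk m n ξ ≤ q := by
  refine ⟨q.A.tail_le m, q.N.tail_le n, Finset.Subset.refl _, fun e _ => ?_⟩
  have h1 : (q.trunk m n ξ).π e - q.π e = ts q.N n (fun j => ξ j e) := by
    funext k
    rw [Pi.sub_apply, trunk_pi, add_sub_cancel_left]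
  rw [h1]
  exact ts_mem_span _ _ _

/-- every condition has an extension beyond given bounds, and it lies below a trunk; the letters are the
differences of the reals on the blocks -/
theorem exists_trunk (q r : Cond) (h : r ≤ q) (m n : ℕ) : ∃ (r' : Cond) (ξ : ℕ → ℕ → ZMod 2), r' ≤ r ∧
    r'.E = r.E ∧ r' ≤ q.trunk m n ξ ∧
    ∀ j < n, ∀ x ∈ q.N.b j, ∀ e ∈ q.E, ξ j e = r.π e x - q.π e x := by
  obtain ⟨hA, hN, hE, hπ⟩ := h
  let ξ : ℕ → ℕ → ZMod 2 := fun j e => r.π e (q.N.ne j).choose - q.π e (q.N.ne j).choose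
  have hξ : ∀ j, ∀ x ∈ q.N.b j, ∀ e ∈ q.E, ξ j e = r.π e x - q.π e x := by
    intro j x hx e he
    exact (hπ e he).2 j _ (q.N.ne j).choose_spec x hx
  refine ⟨⟨r.A.tail m, r.N.tail n, r.E, r.π⟩, ξ, ?_, rfl, ?_, fun j _ => hξ j⟩
  · refine ⟨r.A.tail_le m, r.N.tail_le n, Finset.Subset.refl _, fun e _ => ?_⟩
    rw [sub_self]
    exact r.N.span.zero_mem
  · refine ⟨tail_mono hA m, tail_mono hN n, hE, fun e he => ?_⟩
    apply mem_tail_span q.N n
    · have h1 : r.π e - (q.trunk m n ξ).π e = (r.π e - q.π e) - ts q.N n (fun j => ξ j e) := by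
        funext k
        rw [Pi.sub_apply, trunk_pi, Pi.sub_apply, Pi.sub_apply]
        ring
      show r.π e - (q.trunk m n ξ).π e ∈ q.N.span
      rw [h1]
      exact q.N.span.sub_mem (hπ e he) (ts_mem_span _ _ _)
    · intro j hj k hk
      show r.π e k - (q.trunk m n ξ).π e k = 0
      rw [trunk_pi, ts_of_mem q.N _ hk hj, hξ j k hk e he]
      ring

theorem trunk_congr (q : Cond) (m n : ℕ) (ξ ξ' : ℕ → ℕ → ZMod 2)
    (h : ∀ j < n, ∀ e ∈ q.E, ξ j e = ξ' j e) : q.trunk m n ξ ≤ q.trunk m n ξ' := by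
  refine ⟨le_refl (q.A.tail m), le_refl (q.N.tail n), Finset.Subset.refl _, fun e he => ?_⟩
  have h1 : (q.trunk m n ξ).π e - (q.trunk m n ξ').π e = 0 := by
    funext k
    rw [Pi.sub_apply, trunk_pi, trunk_pi]
    have h2 : ts q.N n (fun j => ξ j e) k = ts q.N n (fun j => ξ' j e) k := by
      unfold ts
      apply Finset.sum_congr rfl
      intro j hj
      simp only [h j (Finset.mem_range.1 hj) e he]
    rw [h2]
    simp
  rw [h1]
  exact AddSubgroup.zero_mem _

end Pool.Agent.SymZF
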