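import Pool.Agent.SymZF.Defs

/-!
# The forcing: block sequences and conditions
-/

set_option autoImplicit false

namespace Pool.Agent.SymZF

/-- Infinite block sequences of finite subsets of `ℕ`. -/
structure BlockSeq where
  b : ℕ → Finset ℕ
  ne : ∀ i, (b i).Nonempty
  lt : ∀ i j, i < j → ∀ x ∈ b i, ∀ y ∈ b j, x < y

/-- Finite unions of blocks. -/
def BlockSeq.FU (A : BlockSeq) : Set (Finset ℕ) := {s | ∃ J : Finset ℕ, J.Nonempty ∧ s = J.biUnion A.b}

/-- `B` is a condensation of `A`. -/
def BlockSeq.le (B A : BlockSeq) : Prop := ∀ i, B.b i ∈ A.FU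

/-- Removing the first `k` blocks. -/
def BlockSeq.tail (A : BlockSeq) (k : ℕ) : BlockSeq where
  b i := A.b (i + k)
  ne i := A.ne _
  lt i j h := A.lt _ _ (by omega)

/-- The closed group generated by the characteristic functions of the blocks. -/
def BlockSeq.span (N : BlockSeq) : AddSubgroup (ℕ → ZMod 2) where
  carrier := {z | (∀ n, (∀ j, n ∉ N.b j) → z n = 0) ∧ ∀ j, ∀ m ∈ N.b j, ∀ n ∈ N.b j, z m = z n}
  zero_mem' := ⟨fun _ _ => rfl, fun _ _ _ _ _ => rfl⟩
  add_mem' := by
    rintro y z ⟨h1, h2⟩ ⟨h3, h4⟩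
    refine ⟨fun n hn => ?_, fun j m hm n hn => ?_⟩
    · show y n + z n = 0
      rw [h1 n hn, h3 n hn, add_zero]
    · show y m + z m = y n + z n
      rw [h2 j m hm n hn, h4 j m hm n hn]
  neg_mem' := by
    rintro y ⟨h1, h2⟩
    refine ⟨fun n hn => ?_, fun j m hm n hn => ?_⟩
    · show - y n = 0
      rw [h1 n hn, neg_zero]
    · show - y m = - y n
      rw [h2 j m hm n hn]

/-- Conditions: two block sequences, a finite set of coordinates and reals at these coordinates (the reals
at the other coordinates do not matter). -/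
structure Cond where
  A : BlockSeq
  N : BlockSeq
  E : Finset ℕ
  π : ℕ → ℕ → ZMod 2

/-- The order of the forcing. -/
def Cond.le (q p : Cond) : Prop :=
  q.A.le p.A ∧ q.N.le p.N ∧ p.E ⊆ q.E ∧ ∀ e ∈ p.E, q.π e - p.π e ∈ p.N.span

/-- Translation of the reals of a condition. -/
def Cond.shift (Z : ℕ → ℕ → ZMod 2) (p : Cond) : Cond := ⟨p.A, p.N, p.E, p.π + Z⟩

/-- The condition in which the first `n` blocks of `N` are fixed by the letters `ξ 0, ..., ξ (n - 1)`, and
the first `m` blocks of `A` are removed. -/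
def Cond.trunk (q : Cond) (m n : ℕ) (ξ : ℕ → ℕ → ZMod 2) : Cond :=
  ⟨q.A.tail m, q.N.tail n, q.E,
    fun e k => q.π e k + ∑ j ∈ Finset.range n, if k ∈ q.N.b j then ξ j e else 0⟩

/-- The group of the symmetric system. -/
abbrev Gp : Type := ℕ → ℕ → ZMod 2

/-- The subgroup of the translations which are trivial at the coordinates in `E`. -/
def fixS (E : Finset ℕ) : AddSubgroup Gp where
  carrier := {Z | ∀ e ∈ E, Z e = 0}
  zero_mem' := fun _ _ => rfl
  add_mem' := by
    intro a b ha hb e he
    show a e + b e = 0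
    rw [ha e he, hb e he, add_zero]
  neg_mem' := by
    intro a ha e he
    show - a e = 0
    rw [ha e he, neg_zero]

/-- Substitution of a letter for the variable in a marked variable word, with or without the marks. -/
def sub {L : Type} (u : List (Option L × Bool)) (l : L) (e : Bool) : List (L × Bool) :=
  u.map fun x => (x.1.getD l, x.2 && e)

end Pool.Agent.SymZF
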