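import Pool.Agent.SymZF.PDefs

/-!
# The order of block sequences and of conditions
-/

set_option autoImplicit false

namespace Pool.Agent.SymZF

namespace BlockSeq

theorem mem_FU_self (A : BlockSeq) (i : ℕ) : A.b i ∈ A.FU :=
  ⟨{i}, Finset.singleton_nonempty i, by simp⟩

theorem FU_union (A : BlockSeq) {s t : Finset ℕ} (hs : s ∈ A.FU) (ht : t ∈ A.FU) : s ∪ t ∈ A.FU := by
  obtain ⟨J, hJ, rfl⟩ := hs
  obtain ⟨K, hK, rfl⟩ := ht
  exact ⟨J ∪ K, hJ.mono Finset.subset_union_left, by rw [Finset.union_biUnion]⟩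

theorem FU_nonempty (A : BlockSeq) {s : Finset ℕ} (hs : s ∈ A.FU) : s.Nonempty := by
  obtain ⟨J, ⟨j, hj⟩, rfl⟩ := hs
  obtain ⟨x, hx⟩ := A.ne j
  exact ⟨x, Finset.mem_biUnion.2 ⟨j, hj, hx⟩⟩

/-- finite unions of elements of `FU A` are in `FU A` -/
theorem FU_biUnion (A : BlockSeq) {ι : Type*} [DecidableEq ι] (J : Finset ι) (hJ : J.Nonempty) (t : ι → Finset ℕ)
    (ht : ∀ j ∈ J, t j ∈ A.FU) : J.biUnion t ∈ A.FU := by
  classical
  choose! K hK using ht
  refine ⟨J.biUnion K, ?_, ?_⟩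
  · obtain ⟨j, hj⟩ := hJ
    obtain ⟨x, hx⟩ := (hK j hj).1
    exact ⟨x, Finset.mem_biUnion.2 ⟨j, hj, hx⟩⟩
  · rw [Finset.biUnion_biUnion]
    exact Finset.biUnion_congr rfl fun j hj => (hK j hj).2

theorem le_iff {B A : BlockSeq} : B.le A ↔ ∀ s ∈ B.FU, s ∈ A.FU := by
  constructor
  · rintro h s ⟨J, hJ, rfl⟩
    exact A.FU_biUnion J hJ B.b fun j _ => h j
  · intro h i
    exact h _ (B.mem_FU_self i)

instance : Preorder BlockSeq where
  le := BlockSeq.le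
  le_refl A i := A.mem_FU_self i
  le_trans C B A h1 h2 := by
    show BlockSeq.le C A
    rw [le_iff]
    intro s hs
    exact le_iff.1 h2 s (le_iff.1 h1 s hs)

theorem le_def {B A : BlockSeq} : B ≤ A ↔ ∀ i, B.b i ∈ A.FU := Iff.rfl

theorem FU_mono {B A : BlockSeq} (h : B ≤ A) {s : Finset ℕ} (hs : s ∈ B.FU) : s ∈ A.FU := le_iff.1 h s hs

theorem tail_le (A : BlockSeq) (k : ℕ) : A.tail k ≤ A := fun i => A.mem_FU_self (i + k)

theorem span_mono {B A : BlockSeq} (h : B ≤ A) : B.span ≤ A.span := by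
  rintro z ⟨h1, h2⟩
  have hB : ∀ j, ∃ J : Finset ℕ, J.Nonempty ∧ B.b j = J.biUnion A.b := fun j => h j
  choose J hJ hJ' using hB
  refine ⟨fun n hn => h1 n fun j hj => ?_, fun j m hm n hn => ?_⟩
  · rw [hJ' j, Finset.mem_biUnion] at hj
    obtain ⟨i, _, hi⟩ := hj
    exact hn i hi
  · by_cases hj : ∃ k, j ∈ J k
    · obtain ⟨k, hk⟩ := hj
      refine h2 k m ?_ n ?_
      · rw [hJ' k]; exact Finset.mem_biUnion.2 ⟨j, hk, hm⟩
      · rw [hJ' k]; exact Finset.mem_biUnion.2 ⟨j, hk, hn⟩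
    · have hdis : ∀ i i' x, x ∈ A.b i → x ∈ A.b i' → i = i' := by
        intro i i' x hx hx'
        by_contra hne
        rcases lt_or_gt_of_ne hne with h' | h'
        · exact lt_irrefl _ (A.lt i i' h' x hx x hx')
        · exact lt_irrefl _ (A.lt i' i h' x hx' x hx)
      have key : ∀ x ∈ A.b j, ∀ k, x ∉ B.b k := by
        intro x hx k hk
        rw [hJ' k, Finset.mem_biUnion] at hk
        obtain ⟨i, hi, hi'⟩ := hk
        have := hdis i j x hi' hx
        subst this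
        exact hj ⟨k, hi⟩
      rw [h1 m (key m hm), h1 n (key n hn)]

end BlockSeq

namespace Cond

instance : Preorder Cond where
  le := Cond.le
  le_refl p := ⟨le_refl p.A, le_refl p.N, Finset.Subset.refl _, fun e _ => by
    rw [sub_self]; exact p.N.span.zero_mem⟩
  le_trans r q p h1 h2 := by
    refine ⟨le_trans (α := BlockSeq) h1.1 h2.1, le_trans (α := BlockSeq) h1.2.1 h2.2.1,
      h2.2.2.1.trans h1.2.2.1, fun e he => ?_⟩
    have h3 := BlockSeq.span_mono (B := q.N) (A := p.N) h2.2.1 (h1.2.2.2 e (h2.2.2.1 he))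
    have h4 := p.N.span.add_mem h3 (h2.2.2.2 e he)
    rwa [sub_add_sub_cancel] at h4

theorem le_def {q p : Cond} : q ≤ p ↔ q.A ≤ p.A ∧ q.N ≤ p.N ∧ p.E ⊆ q.E ∧
    ∀ e ∈ p.E, q.π e - p.π e ∈ p.N.span := Iff.rfl

end Cond

end Pool.Agent.SymZF
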