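import Pool.Agent.SymZF.Defs
import Pool.Agent.MP_b1d3ea_lc.BInternal

/-!
# Boolean-valued structures, values of formulas and of the internal notions
-/

set_option autoImplicit false

namespace Pool.Agent.SymZF

open Pool.Agent.BVM Pool.Agent.StarHur

/-- A Boolean-valued structure for the language of set theory. -/
structure BStr (𝔹 : Type) [CompleteBooleanAlgebra 𝔹] (H : Type 1) where
  eq : H → H → 𝔹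
  mem : H → H → 𝔹
  refl : ∀ x, eq x x = ⊤
  symm : ∀ x y, eq x y = eq y x
  trans : ∀ x y z, eq x y ⊓ eq y z ≤ eq x z
  congr_left : ∀ x y z, eq x y ⊓ mem x z ≤ mem y z
  congr_right : ∀ x y z, eq x y ⊓ mem z x ≤ mem z y

variable {𝔹 : Type} [CompleteBooleanAlgebra 𝔹] {H : Type 1} (B : BStr 𝔹 H)

/-- Boolean value of a formula. -/
def gval : {n : ℕ} → Fml n → (Fin n → H) → 𝔹
  | _, .bot, _ => ⊥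
  | _, .mem i j, v => B.mem (v i) (v j)
  | _, .eq i j, v => B.eq (v i) (v j)
  | _, .imp φ ψ, v => gval φ v ⇨ gval ψ v
  | _, .all φ, v => ⨅ x : H, gval φ (Fin.cons x v : Fin (_ + 1) → H)

/-- Extensional Boolean-valued predicates. -/
def GExt (f : H → 𝔹) : Prop := ∀ x y, B.eq x y ⊓ f x ≤ f y

def vUPair (a b z : H) : 𝔹 := ⨅ t, biff (B.mem t z) (B.eq t a ⊔ B.eq t b)

def vPair (a b p : H) : 𝔹 := ⨅ z, biff (B.mem z p) (vUPair B a a z ⊔ vUPair B a b z)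

def vPM (a b R : H) : 𝔹 := ⨆ p, vPair B a b p ⊓ B.mem p R

def vInductive (x : H) : 𝔹 :=
  (⨆ e, B.mem e x ⊓ ⨅ z, (B.mem z e)ᶜ) ⊓
  ⨅ t, B.mem t x ⇨ ⨆ s, B.mem s x ⊓ ⨅ z, biff (B.mem z s) (B.mem z t ⊔ B.eq z t)

def vOmega (w : H) : 𝔹 := vInductive B w ⊓ ⨅ x, vInductive B x ⇨ ⨅ t, B.mem t w ⇨ B.mem t x

def vSucc (t s : H) : 𝔹 := ⨅ z, biff (B.mem z s) (B.mem z t ⊔ B.eq z t)

def vTM (m n k a : H) : 𝔹 := ⨆ p, vPair B m n p ⊓ vPM B p k a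

def vAdd (w a : H) : 𝔹 :=
  (⨅ m, B.mem m w ⇨ ⨅ n, B.mem n w ⇨ ⨆ k, B.mem k w ⊓ (vTM B m n k a ⊓
    ⨅ k', vTM B m n k' a ⇨ B.eq k' k)) ⊓
  ((⨅ m, B.mem m w ⇨ ⨅ z, B.mem z w ⇨ (⨅ t, (B.mem t z)ᶜ) ⇨ vTM B m z m a) ⊓
  ⨅ m, B.mem m w ⇨ ⨅ n, B.mem n w ⇨ ⨅ k, vTM B m n k a ⇨ ⨅ n', vSucc B n n' ⇨
    ⨅ k', vSucc B k k' ⇨ vTM B m n' k' a)

def vPos (w t : H) : 𝔹 := B.mem t w ⊓ ⨆ s, B.mem s t

def vSubN (w X : H) : 𝔹 := ⨅ t, B.mem t X ⇨ vPos B w t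

def vFilterN (w F : H) : 𝔹 :=
  (⨅ X, B.mem X F ⇨ vSubN B w X) ⊓ ((⨆ X, B.mem X F) ⊓ ((⨅ X, B.mem X F ⇨ ⨆ t, B.mem t X) ⊓
  ((⨅ X, B.mem X F ⇨ ⨅ Y, vSubN B w Y ⇨ (⨅ t, B.mem t X ⇨ B.mem t Y) ⇨ B.mem Y F) ⊓
  ⨅ X, B.mem X F ⇨ ⨅ Y, B.mem Y F ⇨ ⨆ Z, B.mem Z F ⊓ ⨅ t, biff (B.mem t Z) (B.mem t X ⊓ B.mem t Y))))

def vShift (w a X n D : H) : 𝔹 :=
  ⨅ m, biff (B.mem m D) (vPos B w m ⊓ ⨆ k, vTM B m n k a ⊓ B.mem k X)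

def vInSum (w a F X : H) : 𝔹 :=
  ⨆ D, B.mem D F ⊓ ⨅ n, biff (B.mem n D) (vPos B w n ⊓ ⨆ C, B.mem C F ⊓ vShift B w a X n C)

def vIdem (w a F : H) : 𝔹 := ⨅ X, vSubN B w X ⇨ biff (B.mem X F) (vInSum B w a F X)

def vIdemFilter (w a F : H) : 𝔹 := vFilterN B w F ⊓ vIdem B w a F

def vIdemUltra (w a F : H) : 𝔹 :=
  vIdemFilter B w a F ⊓ ⨅ X, vSubN B w X ⇨
    (B.mem X F ⊔ ⨆ Y, B.mem Y F ⊓ ⨅ t, biff (B.mem t Y) (vPos B w t ⊓ (B.mem t X)ᶜ))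

end Pool.Agent.SymZF
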